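import Pool.Agent.Mg.S15482.Ge4bb98

section

/-! A gadget without end markers: two finite substitutions on the letters `2`, `3`. -/

namespace Pool.Agent.MP_dd548e_lc.Bin

open List Relation

variable {Q : Type}

/-- runs that read a start of the word and stop in a final state; the number is the excess -/
def Run (δ : Q → ℕ → ℕ → Q → Prop) (F : Q → Prop) : Q → List ℕ → ℤ → Prop
  | _, [], _ => False
  | q, l :: w, c => ∃ t q', δ q l t q' ∧ ((F q' ∧ c = t - 1) ∨ Run δ F q' w (c + 1 - t))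

lemma peel {N j a m : ℕ} {r : List ℕ} (e : replicate j 2 ++ (pw N a ++ r) = pw N m) :
    (a = 0 ∨ j = 0) ∧ ∃ m', m = a + m' ∧ replicate j 2 ++ r = pw N m' := by
  cases a with
  | zero => exact ⟨Or.inl rfl, m, by simp, by simpa [pw] using e⟩
  | succ a =>
    have : j = 0 := by
      rw [pw, blk, append_assoc, append_assoc, ← append_assoc, replicate_append_replicate,
        singleton_append] at e
      obtain ⟨m', -, h, -⟩ := strip e
      omega
    subst this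
    obtain ⟨m', h1, h2⟩ := strip_pw (t := a + 1) (u := r) (m := m) (by simpa using e)
    exact ⟨Or.inr rfl, m', h1, by simpa using h2⟩

lemma long {N k m : ℕ} {r : List ℕ} (hk : N < k) : replicate k 2 ++ r ≠ pw N m := by
  intro e
  obtain ⟨d, rfl⟩ : ∃ d, k = N + (d + 1) := ⟨k - N - 1, by omega⟩
  cases m with
  | zero => simp [pw] at e
  | succ m =>
    rw [pw, blk, replicate_add, append_assoc, append_assoc, append_cancel_left_eq,
      replicate_succ] at e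
    simp at e

lemma only {N j m : ℕ} (e : replicate j 2 = pw N m) : j = 0 ∧ m = 0 := by
  cases m with
  | zero => simpa [pw] using e
  | succ m =>
    have : 3 ∈ replicate j 2 := by rw [e]; simp [pw, blk]
    simp at this

lemma der_append {R : ℕ → List ℕ → Prop} {a a' b b' : List ℕ} (h : Der R a a') (h' : Der R b b') :
    Der R (a ++ b) (a' ++ b') := by
  obtain ⟨x, h, rfl⟩ := h
  obtain ⟨y, h', rfl⟩ := h'
  exact ⟨x ++ y, rel_append h h', by simp⟩

/-- words over the two letters -/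
def Two (w : List ℕ) : Prop := ∀ l ∈ w, l = 2 ∨ l = 3

lemma Two.tail {l : ℕ} {w : List ℕ} (h : Two (l :: w)) : Two w :=
  fun x hx => h x (mem_cons_of_mem _ hx)

lemma Two.append {a b : List ℕ} (h : Two a) (h' : Two b) : Two (a ++ b) :=
  forall_mem_append.2 ⟨h, h'⟩

/-- the data of the gadget -/
structure GA (Q : Type) extends WA Q where
  μ : ℕ
  n : ℕ
  J : Q → ℕ → Prop
  mpos : 0 < μ
  dN : μ ∣ N
  dI : ∀ q, μ ∣ idx q
  jpos : ∀ q s, J q s → 0 < s

namespace GA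

variable (A : GA Q)

def Core (l : ℕ) (k : List ℕ) : Prop :=
  (∃ q t q' a ε, A.δ q l t q' ∧ (ε = 0 ∨ (ε = 1 ∧ l = 3)) ∧ (a = A.al q' ∨ (A.F q' ∧ a = [])) ∧
    k = A.be q ++ (pw A.N (A.n + (t + 2 * ε)) ++ a)) ∨
  (l = 3 ∧ ∃ q s, A.J q s ∧ k = pw A.N s ++ A.al q) ∨
  (l = 2 ∧ k = replicate (A.N + A.μ) 2) ∨
  ∃ i, 0 < i ∧ i ≤ A.μ ∧ (l = 2 ∨ (l = 3 ∧ i = A.μ)) ∧ k = replicate (A.N + i) 2 ++ [3]

def NNw (l : ℕ) (b : List ℕ) : Prop :=
  ∃ ε ≤ 1, ∃ ε' ≤ 1, ∃ k, A.Core l k ∧ b = pw A.N ε ++ (k ++ pw A.N ε')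

def Neu (l : ℕ) (b : List ℕ) : Prop :=
  ((l = 2 ∨ l = 3) ∧ b = pw A.N (A.n + 2)) ∨ (l = 3 ∧ b = pw A.N (A.n + 4))

def R2 (l : ℕ) (b : List ℕ) : Prop := A.Neu l b ∨ A.NNw l b

def R1 (l : ℕ) (b : List ℕ) : Prop := (l = 3 ∧ b = pw A.N (A.n + 3)) ∨ A.R2 l b

def wt (w : List ℕ) : ℕ := (A.n + 2) * w.length

lemma wt_nil : A.wt [] = 0 := rfl

lemma wt_cons (l : ℕ) (w : List ℕ) : A.wt (l :: w) = A.wt w + (A.n + 2) := Nat.mul_succ _ _

lemma wt_append (a b : List ℕ) : A.wt (a ++ b) = A.wt a + A.wt b := by simp [wt, mul_add]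

variable {A}

lemma Core.r2 {l : ℕ} {k : List ℕ} (h : A.Core l k) : A.R2 l k :=
  Or.inr ⟨0, by omega, 0, by omega, k, h, by simp [pw]⟩

/-- images that use a word which is not neutral -/
inductive NN (A : GA Q) : List ℕ → List ℕ → Prop
  | here {l : ℕ} {b w r : List ℕ} : A.NNw l b → Der A.R2 w r → NN A (l :: w) (b ++ r)
  | there {l : ℕ} {b w r : List ℕ} : A.Neu l b → NN A w r → NN A (l :: w) (b ++ r)

lemma NN.der {w u : List ℕ} (h : A.NN w u) : Der A.R2 w u := by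
  induction h with
  | here h1 h2 => exact (der_cons _ _ _ _).2 ⟨_, _, Or.inr h1, h2, rfl⟩
  | there h1 _ ih => exact (der_cons _ _ _ _).2 ⟨_, _, Or.inl h1, ih, rfl⟩

lemma NN.shift {w u : List ℕ} (h : A.NN w u) :
    A.NN w (blk A.N ++ u) ∨ ∃ u', A.NN w u' ∧ u = blk A.N ++ u' := by
  induction h with
  | @here l b w r h1 h2 =>
    obtain ⟨ε, hε, ε', hε', k, hk, rfl⟩ := h1
    rcases (by omega : ε = 0 ∨ ε = 1) with rfl | rfl
    · have := NN.here (A := A) ⟨1, le_rfl, ε', hε', k, hk, rfl⟩ h2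
      exact Or.inl (by simpa [pw] using this)
    · exact Or.inr ⟨_, NN.here ⟨0, by omega, ε', hε', k, hk, rfl⟩ h2, by simp [pw]⟩
  | @there l b w r h1 _ ih =>
    obtain ⟨a, ha⟩ : ∃ a, b = pw A.N a := by rcases h1 with h | h <;> exact ⟨_, h.2⟩
    rcases ih with k | ⟨u', k, rfl⟩
    · exact Or.inl (by rw [ha, blk_pw, ← ha]; exact NN.there h1 k)
    · exact Or.inr ⟨_, NN.there h1 k, by rw [ha, blk_pw]⟩

lemma pick {l i : ℕ} {w : List ℕ} (hi : i ≤ count 3 (l :: w)) :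
    ∃ ε i', (ε = 0 ∨ (ε = 1 ∧ l = 3)) ∧ i = i' + ε ∧ i' ≤ count 3 w := by
  by_cases h : i ≤ count 3 w
  · exact ⟨0, i, Or.inl rfl, rfl, h⟩
  · rw [count_cons] at hi
    split_ifs at hi with h3
    · exact ⟨1, i - 1, Or.inr ⟨rfl, by simpa using h3⟩, by omega, by omega⟩
    · omega

lemma even {w : List ℕ} (hw : Two w) {i : ℕ} (hi : i ≤ count 3 w) :
    Der A.R2 w (pw A.N (A.wt w + 2 * i)) := by
  induction w generalizing i with
  | nil =>
    obtain rfl : i = 0 := by simpa using hi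
    exact (der_nil _ _).2 rfl
  | cons l w ih =>
    obtain ⟨ε, i', hε, rfl, hi'⟩ := pick hi
    refine (der_cons _ _ _ _).2 ⟨pw A.N (A.n + 2 + 2 * ε), _, Or.inl ?_, ih hw.tail hi', ?_⟩
    · rcases hε with rfl | ⟨rfl, h⟩
      · exact Or.inl ⟨hw l mem_cons_self, rfl⟩
      · exact Or.inr ⟨h, rfl⟩
    · rw [← pw_add, wt_cons]
      congr 1
      omega

lemma split {w u : List ℕ} (hw : Two w) (h : Der A.R1 w u) :
    A.NN w u ∨ ∃ e ≤ 2 * count 3 w, u = pw A.N (A.wt w + e) := by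
  induction w generalizing u with
  | nil => exact Or.inr ⟨0, by omega, (der_nil _ _).1 h⟩
  | cons l w ih =>
    obtain ⟨b, r, hb, hr, rfl⟩ := (der_cons _ _ _ _).1 h
    have hc : count 3 w ≤ count 3 (l :: w) := count_le_count_cons
    have hc3 : count 3 (3 :: w) = count 3 w + 1 := count_cons_self
    rcases ih hw.tail hr with k | ⟨e, he, rfl⟩
    · rcases hb with ⟨rfl, rfl⟩ | hb | hb
      · rcases k.shift with k' | ⟨u', k', rfl⟩
        · have := NN.there (A := A) (l := 3) (Or.inl ⟨Or.inr rfl, rfl⟩) k'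
          exact Or.inl (by rwa [← append_assoc, ← pw_one, ← pw_add] at this)
        · have := NN.there (A := A) (l := 3) (Or.inr ⟨rfl, rfl⟩) k'
          exact Or.inl (by rw [← append_assoc, ← pw_one, ← pw_add]; exact this)
      · exact Or.inl (NN.there hb k)
      · exact Or.inl (NN.here hb k.der)
    · rcases hb with ⟨rfl, rfl⟩ | (⟨-, rfl⟩ | ⟨rfl, rfl⟩) | ⟨ε, hε, ε', hε', k, hk, rfl⟩
      · exact Or.inr ⟨e + 1, by omega, by rw [← pw_add, wt_cons]; congr 1; omega⟩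
      · exact Or.inr ⟨e, by omega, by rw [← pw_add, wt_cons]; congr 1; omega⟩
      · exact Or.inr ⟨e + 2, by omega, by rw [← pw_add, wt_cons]; congr 1; omega⟩
      · obtain ⟨i, η, hη, hi, e1⟩ : ∃ i η, η ≤ 1 ∧ i ≤ count 3 w ∧ ε' + e = η + 2 * i :=
          ⟨(ε' + e) / 2, (ε' + e) % 2, by omega, by omega, by omega⟩
        have := NN.here (A := A) ⟨ε, hε, η, hη, k, hk, rfl⟩ (even hw.tail hi)
        left
        simp only [append_assoc, ← pw_add] at this ⊢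
        rwa [show ε' + (A.wt w + e) = η + (A.wt w + 2 * i) by omega]

lemma run_der {q : Q} {w : List ℕ} {c : ℤ} (hw : Two w) (h : Run A.δ A.F q w c) {i : ℕ}
    (hi : i ≤ count 3 w) :
    ∃ u m, Der A.R2 w u ∧ A.al q ++ u = pw A.N m ∧ (m : ℤ) = A.wt w + c + 2 * i := by
  induction w generalizing q c i with
  | nil => exact h.elim
  | cons l w ih =>
    obtain ⟨ε, i', hε, rfl, hi'⟩ := pick hi
    obtain ⟨t, q', h1, ⟨h2, rfl⟩ | h2⟩ := h
    · refine ⟨_, 1 + (A.n + (t + 2 * ε) + (A.wt w + 2 * i')), (der_cons _ _ _ _).2 ⟨_, _,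
        Core.r2 (Or.inl ⟨q, t, q', [], ε, h1, hε, Or.inr ⟨h2, rfl⟩, rfl⟩), even hw.tail hi', rfl⟩,
        ?_, by rw [wt_cons]; omega⟩
      rw [pw_add _ 1, pw_add _ (A.n + _), pw_one, ← A.al_be q]
      simp only [append_assoc, nil_append]
    · obtain ⟨u, m, k1, k2, k3⟩ := ih hw.tail h2 hi'
      refine ⟨_, 1 + (A.n + (t + 2 * ε) + m), (der_cons _ _ _ _).2 ⟨_, _,
        Core.r2 (Or.inl ⟨q, t, q', _, ε, h1, hε, Or.inl rfl, rfl⟩), k1, rfl⟩,
        ?_, by rw [wt_cons]; omega⟩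
      rw [pw_add _ 1, pw_add _ (A.n + _), pw_one, ← A.al_be q, ← k2]
      simp only [append_assoc]

/-- some letter `3` of the word starts a run of total excess one -/
def Easy (A : GA Q) (w : List ℕ) : Prop :=
  ∃ u v q s c, w = u ++ 3 :: v ∧ A.J q s ∧ Run A.δ A.F q v c ∧ s + c = A.n + 3

/-- every run started at a letter `3` of the word has total excess at least two -/
def Hard (A : GA Q) (w : List ℕ) : Prop :=
  ∀ u v q s c, w = u ++ 3 :: v → A.J q s → Run A.δ A.F q v c → A.n + 4 ≤ s + c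

lemma der_iff {w : List ℕ} (hw : Two w) (h : A.Easy w) (u : List ℕ) :
    Der A.R1 w u ↔ Der A.R2 w u := by
  refine ⟨fun k => ?_, fun ⟨ws, k, e⟩ => ⟨ws, k.imp fun _ _ => Or.inr, e⟩⟩
  rcases split hw k with k | ⟨e, he, rfl⟩
  · exact k.der
  obtain ⟨i, rfl | rfl⟩ := Nat.even_or_odd' e
  · exact even hw (by omega)
  obtain ⟨a, v, q, s, c, rfl, h1, h2, h3⟩ := h
  have ha : Two a := (forall_mem_append.1 hw).1
  have hv : Two v := Two.tail (forall_mem_append.1 hw).2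
  rw [count_append, count_cons_self] at he
  obtain ⟨i1, i2, k1, k2, rfl⟩ : ∃ i1 i2, i1 ≤ count 3 a ∧ i2 ≤ count 3 v ∧ i = i1 + i2 :=
    ⟨min i (count 3 a), i - min i (count 3 a), by omega, by omega, by omega⟩
  obtain ⟨u, m, k3, k4, k5⟩ := run_der hv h2 k2
  have := der_append (even (A := A) ha k1) ((der_cons _ _ _ _).2 ⟨_, _,
    Core.r2 (Or.inr (Or.inl ⟨rfl, q, s, h1, rfl⟩)), k3, rfl⟩)
  rw [append_assoc, k4, ← pw_add, ← pw_add] at this
  rwa [wt_append, wt_cons, show A.wt a + (A.wt v + (A.n + 2)) + (2 * (i1 + i2) + 1) =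
    A.wt a + 2 * i1 + (s + m) by omega]

lemma decode {w u : List ℕ} (hw : A.Hard w) (h : Der A.R2 w u) {j m : ℕ}
    (e : replicate j 2 ++ u = pw A.N m) :
    (j = 0 ∧ (m = A.wt w ∨ A.wt w + 2 ≤ m)) ∨
      ∃ q c, j = A.idx q ∧ Run A.δ A.F q w c ∧ A.wt w + c ≤ m := by
  induction w generalizing u j m with
  | nil =>
    obtain rfl := (der_nil _ _).1 h
    have := only (by simpa using e)
    exact Or.inl ⟨this.1, Or.inl this.2⟩
  | cons l w ih =>
    obtain ⟨b, r, hb, hr, rfl⟩ := (der_cons _ _ _ _).1 h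
    have hw' : A.Hard w := fun u v q s c e => hw (l :: u) v q s c (by rw [e, cons_append])
    have h0 : ∀ m, r = pw A.N m → m = A.wt w ∨ A.wt w + 2 ≤ m := fun m e => by
      rcases ih hw' hr (j := 0) e with k | ⟨q, c, k, -⟩
      · exact k.2
      · exact absurd k (A.pos q).ne
    have h1 : ∀ q ε m, A.al q ++ (pw A.N ε ++ r) = pw A.N m →
        ∃ c, Run A.δ A.F q w c ∧ A.wt w + c ≤ m := fun q ε m e => by
      obtain ⟨-, m', rfl, e1⟩ := peel e
      rcases ih hw' hr e1 with k | ⟨q', c, k, k1, k2⟩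
      · exact absurd k.1 (A.pos q).ne'
      · obtain rfl := A.inj k
        exact ⟨c, k1, by omega⟩
    rw [wt_cons]
    rcases hb with (⟨-, rfl⟩ | ⟨-, rfl⟩) | ⟨ε, -, ε', -, k, hk, rfl⟩
    · obtain ⟨k | rfl, m', rfl, e1⟩ := peel e
      · omega
      · have := h0 m' e1
        exact Or.inl ⟨rfl, by omega⟩
    · obtain ⟨k | rfl, m', rfl, e1⟩ := peel e
      · omega
      · have := h0 m' e1
        exact Or.inl ⟨rfl, by omega⟩
    simp only [append_assoc] at e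
    obtain ⟨-, m1, rfl, e1⟩ := peel e
    rcases hk with ⟨q, t, q', a, η, k1, -, k2, rfl⟩ | ⟨rfl, q, s, k1, rfl⟩ | ⟨-, rfl⟩ |
      ⟨i, k1, -, -, rfl⟩
    · rw [WA.be, append_assoc, append_assoc, ← append_assoc, replicate_append_replicate,
        singleton_append, append_assoc] at e1
      obtain ⟨m2, rfl, k3, e2⟩ := strip e1
      obtain ⟨m3, rfl, e3⟩ := strip_pw e2
      have := A.le q
      rcases k2 with rfl | ⟨k2, rfl⟩
      · obtain ⟨c, k4, k5⟩ := h1 _ _ _ e3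
        exact Or.inr ⟨q, c + t - 1, by omega, ⟨t, q', k1, Or.inr (by simpa using k4)⟩, by omega⟩
      · obtain ⟨m4, rfl, e4⟩ := strip_pw (nil_append _ ▸ e3)
        have := h0 m4 e4
        exact Or.inr ⟨q, t - 1, by omega, ⟨t, q', k1, Or.inl ⟨k2, rfl⟩⟩, by omega⟩
    · rw [append_assoc] at e1
      obtain ⟨k | rfl, m2, rfl, e2⟩ := peel e1
      · exact absurd k (A.jpos q s k1).ne'
      · obtain ⟨c, k4, k5⟩ := h1 _ _ _ e2
        have := hw [] w q s c rfl k1 k4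
        exact Or.inl ⟨rfl, Or.inr (by omega)⟩
    · rw [← append_assoc, replicate_append_replicate] at e1
      exact absurd e1 (long (by have := A.mpos; omega))
    · rw [append_assoc, ← append_assoc, replicate_append_replicate] at e1
      exact absurd e1 (long (by omega))

lemma not_der {w : List ℕ} (hw : A.Hard w) : ¬ Der A.R2 w (pw A.N (A.wt w + 1)) := fun h => by
  rcases decode hw h (j := 0) rfl with k | ⟨q, c, k, -⟩
  · omega
  · exact absurd k (A.pos q).ne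

end GA

end Pool.Agent.MP_dd548e_lc.Bin

end

section

/-! Reachable words of the two systems and the lengths of their blocks modulo `μ`. -/

namespace Pool.Agent.MP_dd548e_lc.Bin

open List Relation

variable {Q : Type}

/-- the lengths modulo `μ` of the runs of the letter `2` that end before a letter `3` -/
def cls (μ : ℕ) : ℕ → List ℕ → List ℕ
  | _, [] => []
  | i, l :: w => if l = 3 then i % μ :: cls μ 0 w else cls μ (i + 1) w

section cls

variable {μ i j : ℕ} {w : List ℕ}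

lemma cls_three : cls μ i (3 :: w) = i % μ :: cls μ 0 w := if_pos rfl

lemma cls_two : cls μ i (2 :: w) = cls μ (i + 1) w := if_neg (by omega)

lemma cls_rep (k : ℕ) : cls μ i (replicate k 2 ++ w) = cls μ (i + k) w := by
  induction k generalizing i with
  | zero => rfl
  | succ k ih => rw [replicate_succ, cons_append, cls_two, ih, add_assoc, add_comm 1]

lemma cls_blk (k : ℕ) : cls μ 0 (replicate k 2 ++ [3] ++ w) = k % μ :: cls μ 0 w := by
  rw [append_assoc, cls_rep, singleton_append, cls_three, zero_add]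

lemma cls_congr (h : i % μ = j % μ) : cls μ i w = cls μ j w := by
  induction w generalizing i j with
  | nil => rfl
  | cons l w ih =>
    unfold cls
    split_ifs
    · rw [h]
    · exact ih (by rw [Nat.add_mod, h, ← Nat.add_mod])

lemma cls_lt (hμ : 0 < μ) : ∀ c ∈ cls μ i w, c < μ := by
  induction w generalizing i with
  | nil => simp [cls]
  | cons l w ih =>
    unfold cls
    split_ifs
    · exact forall_mem_cons.2 ⟨Nat.mod_lt _ hμ, ih⟩
    · exact ih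

lemma cls_count : count 0 (cls μ i w) ≤ count 3 w := by
  induction w generalizing i with
  | nil => simp [cls]
  | cons l w ih =>
    unfold cls
    split_ifs with h
    · have := ih (i := 0)
      rw [h, count_cons_self, count_cons]
      split_ifs <;> omega
    · exact ih.trans count_le_count_cons

lemma cls_suffix (u v : List ℕ) : ∃ a, cls μ i (u ++ 3 :: v) = a ++ cls μ 0 v := by
  induction u generalizing i with
  | nil => exact ⟨[i % μ], cls_three⟩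
  | cons l u ih =>
    rw [cons_append, cls]
    split_ifs
    · obtain ⟨a, h⟩ := ih (i := 0)
      exact ⟨_ :: a, by rw [h, cons_append]⟩
    · exact ih

lemma cls_split {a r : List ℕ} {c : ℕ} (h : cls μ i w = a ++ c :: r) :
    ∃ u v, w = u ++ 3 :: v ∧ cls μ 0 v = r := by
  induction w generalizing i a with
  | nil => simp [cls] at h
  | cons l w ih =>
    unfold cls at h
    split_ifs at h with h3
    · cases a with
      | nil => exact ⟨[], w, by rw [h3, nil_append], (cons.inj h).2⟩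
      | cons x a =>
        obtain ⟨u, v, rfl, k⟩ := ih (cons.inj h).2
        exact ⟨l :: u, v, rfl, k⟩
    · obtain ⟨u, v, rfl, k⟩ := ih h
      exact ⟨l :: u, v, rfl, k⟩

/-- the word adds at least `z` separators -/
def Bal (μ : ℕ) (b : List ℕ) (z : ℕ) : Prop :=
  ∀ w, z + count 0 (cls μ 0 w) ≤ count 0 (cls μ 0 (b ++ w))

lemma Bal.append {a b : List ℕ} {z z' : ℕ} (h : Bal μ a z) (h' : Bal μ b z') :
    Bal μ (a ++ b) (z + z') := fun w => by
  have := h (b ++ w)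
  have := h' w
  rw [append_assoc]
  omega

lemma Bal.zero {a : List ℕ} {z : ℕ} (h : Bal μ a z) : Bal μ a 0 := fun w => by
  have := h w
  omega

lemma bal_rep {k : ℕ} (h : μ ∣ k) : Bal μ (replicate k 2) 0 := fun w => by
  rw [cls_rep, cls_congr (i := 0 + k) (j := 0) (by simp [Nat.mod_eq_zero_of_dvd h]), zero_add]

lemma bal_any (k : ℕ) : Bal μ (replicate k 2 ++ [3]) 0 := fun w => by
  rw [cls_blk, zero_add]
  exact count_le_count_cons

lemma bal_blk {k : ℕ} (h : μ ∣ k) : Bal μ (replicate k 2 ++ [3]) 1 := fun w => by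
  rw [cls_blk, Nat.mod_eq_zero_of_dvd h, count_cons_self, add_comm]

lemma bal_pw (N s : ℕ) : Bal μ (pw N s) 0 := by
  induction s with
  | zero => exact fun w => by simp [pw]
  | succ s ih => exact (bal_any N).append ih

lemma bal_pw' {N s : ℕ} (h : μ ∣ N) (hs : 0 < s) : Bal μ (pw N s) 1 := by
  obtain ⟨s, rfl⟩ : ∃ t, s = t + 1 := ⟨s - 1, by omega⟩
  exact (bal_blk h).append (bal_pw N s)

end cls

lemma two_rep (k : ℕ) : Two (replicate k 2) := fun _ h => Or.inl (mem_replicate.1 h).2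

lemma two_blk (k : ℕ) : Two (replicate k 2 ++ [3]) := (two_rep k).append (by simp [Two])

lemma pw_ne {N s : ℕ} (hs : 0 < s) : pw N s ≠ [] := fun h => by
  have := pw_eq_nil h.symm
  omega

/-- every segment between two separators is `H` -/
def Ok (H cs : List ℕ) : Prop := ∀ a b, cs = a ++ 0 :: b → b = [] ∨ ∃ t, b = H ++ 0 :: t

lemma Ok.step {H cs : List ℕ} (hH : 0 ∉ H) (h : Ok H cs) (h' : cs = [] ∨ ∃ t, cs = H ++ 0 :: t) :
    Ok H (H ++ 0 :: cs) := by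
  intro a b e
  rcases append_eq_append_iff.1 e with ⟨_ | ⟨x, a'⟩, -, k⟩ | ⟨_ | ⟨x, a'⟩, rfl, k⟩
  · exact (cons.inj k).2 ▸ h'
  · exact h a' b (cons.inj k).2
  · exact (cons.inj k).2 ▸ h'
  · exact absurd (by simp [(cons.inj k).1]) hH

namespace GA

variable {A : GA Q}

lemma core_inv {l : ℕ} {k : List ℕ} (h : A.Core l k) :
    Two k ∧ k ≠ [] ∧ Bal A.μ k 0 ∧ (l = 3 → Bal A.μ k 1) := by
  have := A.mpos
  rcases h with ⟨q, t, q', a, ε, -, -, h, rfl⟩ | ⟨-, q, s, h, rfl⟩ | ⟨rfl, rfl⟩ |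
    ⟨i, -, -, h, rfl⟩
  · have ha : Two a ∧ Bal A.μ a 0 := by
      rcases h with rfl | ⟨-, rfl⟩
      exacts [⟨two_rep _, bal_rep (A.dI q')⟩, ⟨two_rep 0, bal_pw 0 0⟩]
    have := (bal_blk (Nat.dvd_sub A.dN (A.dI q))).append
      ((bal_pw A.N (A.n + (t + 2 * ε))).append ha.2)
    exact ⟨(two_blk _).append (Two.append pw_letters ha.1), by simp [WA.be], this.zero,
      fun _ => this⟩
  · have := (bal_pw' A.dN (A.jpos q s h)).append (bal_rep (A.dI q))
    exact ⟨Two.append pw_letters (two_rep _), by simp [pw_ne (A.jpos q s h)], this.zero,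
      fun _ => this⟩
  · exact ⟨two_rep _, by simp; omega, bal_rep (Nat.dvd_add A.dN dvd_rfl), by omega⟩
  · refine ⟨two_blk _, by simp, bal_any _, fun h3 => ?_⟩
    obtain rfl : i = A.μ := by omega
    exact bal_blk (Nat.dvd_add A.dN dvd_rfl)

lemma r1_inv {l : ℕ} {b : List ℕ} (h : A.R1 l b) :
    Two b ∧ b ≠ [] ∧ Bal A.μ b 0 ∧ (l = 3 → Bal A.μ b 1) := by
  rcases h with ⟨-, rfl⟩ | (⟨-, rfl⟩ | ⟨-, rfl⟩) | ⟨ε, -, ε', -, k, hk, rfl⟩
  iterate 3 exact ⟨pw_letters, pw_ne (by omega), bal_pw _ _, fun _ => bal_pw' A.dN (by omega)⟩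
  obtain ⟨h1, h2, h3, h4⟩ := core_inv hk
  exact ⟨Two.append pw_letters (h1.append pw_letters), by simp [h2],
    (bal_pw _ _).append (h3.append (bal_pw _ _)),
    fun h => (bal_pw _ _).append ((h4 h).append (bal_pw _ _))⟩

lemma der_inv {w u : List ℕ} (h : Der A.R1 w u) :
    Two u ∧ count 3 w ≤ count 0 (cls A.μ 0 u) := by
  induction w generalizing u with
  | nil =>
    obtain rfl := (der_nil _ _).1 h
    exact ⟨two_rep 0, by simp⟩
  | cons l w ih =>
    obtain ⟨b, r, hb, hr, rfl⟩ := (der_cons _ _ _ _).1 h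
    obtain ⟨h1, -, h2, h3⟩ := r1_inv hb
    refine ⟨h1.append (ih hr).1, ?_⟩
    have := (ih hr).2
    have := h2 r
    rw [count_cons]
    split_ifs with h4
    · have := h3 (by simpa using h4) r
      omega
    · omega

lemma der_mono {w u : List ℕ} : Der A.R2 w u → Der A.R1 w u :=
  fun ⟨ws, k, e⟩ => ⟨ws, k.imp fun _ _ => Or.inr, e⟩

lemma der_blk (k : ℕ) : Der A.R2 (blk k) (blk ((k + 1) * (A.N + A.μ))) := by
  induction k with
  | zero =>
    exact (der_cons _ _ _ _).2 ⟨_, [], Core.r2 (Or.inr (Or.inr (Or.inr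
      ⟨A.μ, A.mpos, le_rfl, Or.inr ⟨rfl, rfl⟩, rfl⟩))), (der_nil _ _).2 rfl, by simp [blk]⟩
  | succ k ih =>
    refine (der_cons _ _ _ _).2 ⟨_, _, Core.r2 (Or.inr (Or.inr (Or.inl ⟨rfl, rfl⟩))), ih, ?_⟩
    rw [blk, blk, ← append_assoc, replicate_append_replicate]
    congr 2
    ring

lemma der_seg {H : List ℕ} (hH : ∀ c ∈ H, 0 < c ∧ c < A.μ) (j : ℕ) :
    ∃ g, Der A.R2 (blk (j + H.length)) g ∧
      ∀ r, cls A.μ 0 (g ++ r) = H ++ 0 :: cls A.μ 0 r := by
  induction H with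
  | nil =>
    refine ⟨_, der_blk j, fun r => ?_⟩
    rw [blk, cls_blk, Nat.mod_eq_zero_of_dvd ((Nat.dvd_add A.dN dvd_rfl).mul_left _), nil_append]
  | cons c H ih =>
    obtain ⟨g, h1, h2⟩ := ih fun x hx => hH x (mem_cons_of_mem _ hx)
    have hc := hH c mem_cons_self
    refine ⟨_, (der_cons _ _ _ _).2 ⟨_, g, Core.r2 (Or.inr (Or.inr (Or.inr
      ⟨c, hc.1, hc.2.le, Or.inl rfl, rfl⟩))), h1, rfl⟩, fun r => ?_⟩
    rw [append_assoc, cls_blk, h2, cons_append, Nat.add_mod, Nat.mod_eq_zero_of_dvd A.dN, zero_add,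
      Nat.mod_mod, Nat.mod_eq_of_lt hc.2]

lemma reach (A : GA Q) (j : ℕ) :
    ∃ k, j ≤ k ∧ ReflTransGen (Der A.R1) [3, 3, 3] (blk k ++ (blk k ++ blk k)) := by
  induction j with
  | zero => exact ⟨0, le_rfl, ReflTransGen.refl⟩
  | succ j ih =>
    obtain ⟨k, h1, h2⟩ := ih
    refine ⟨_, ?_, h2.tail (der_mono (der_append (der_blk k) (der_append (der_blk k) (der_blk k))))⟩
    have := A.mpos
    exact (by omega : j + 1 ≤ k + 1).trans (Nat.le_mul_of_pos_right _ (by omega))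

theorem seqs_iff (A : GA Q) (Halt : Prop)
    (h1 : ¬ Halt → ∀ v g t, Two v → cls A.μ 0 v = 0 :: (g ++ 0 :: t) → 0 ∉ g →
      ∃ q s c, A.J q s ∧ Run A.δ A.F q v c ∧ s + c = A.n + 3)
    (h2 : Halt → ∃ H : List ℕ, (∀ c ∈ H, 0 < c ∧ c < A.μ) ∧ ∀ v, Two v →
      (∀ b, cls A.μ 0 v = 0 :: b → b = [] ∨ ∃ t, b = H ++ 0 :: t) →
      ∀ q s c, A.J q s → Run A.δ A.F q v c → A.n + 4 ≤ s + c) :
    ¬ Seqs A.R2 [3, 3, 3] = Seqs A.R1 [3, 3, 3] ↔ Halt := by
  constructor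
  · intro h
    by_contra hn
    refine h (seqs_eq (P := fun w => Two w ∧ 3 ≤ count 0 (cls A.μ 0 w))
      ⟨by simp [Two], by simp [cls]⟩ (fun w w' hw k => ?_) fun w w' hw => ?_).symm
    · exact ⟨(der_inv k).1, hw.2.trans (cls_count.trans (der_inv k).2)⟩
    refine der_iff hw.1 ?_ w'
    obtain ⟨hw, hc⟩ := hw
    have key : ∀ cs : List ℕ, 0 < count 0 cs →
        ∃ g t, cs = g ++ 0 :: t ∧ 0 ∉ g ∧ count 0 cs = count 0 t + 1 := fun cs h => by
      obtain ⟨g, t, rfl, k⟩ := eq_append_cons_of_mem (count_pos_iff.1 h)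
      exact ⟨g, t, rfl, k, by rw [count_append, count_eq_zero.2 k, count_cons_self, zero_add]⟩
    obtain ⟨g0, t0, e0, -, c0⟩ := key _ (by omega : 0 < count 0 (cls A.μ 0 w))
    obtain ⟨g1, t1, rfl, -, c1⟩ := key t0 (by omega)
    obtain ⟨g2, t2, rfl, k2, -⟩ := key t1 (by omega)
    obtain ⟨a, c, e1⟩ : ∃ a c, g0 ++ 0 :: g1 = a ++ [c] :=
      ⟨_, _, (dropLast_append_getLast (by simp)).symm⟩
    rw [← cons_append, ← append_assoc, e1, append_assoc, singleton_append] at e0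
    obtain ⟨u, v, rfl, e2⟩ := cls_split e0
    obtain ⟨q, s, c, k⟩ := h1 hn v g2 t2 (Two.tail (forall_mem_append.1 hw).2) e2 k2
    exact ⟨u, v, q, s, c, rfl, k⟩
  · intro h
    obtain ⟨H, hH, h3⟩ := h2 h
    obtain ⟨k, hk, hr⟩ := A.reach H.length
    obtain ⟨j, rfl⟩ := Nat.exists_eq_add_of_le' hk
    obtain ⟨g, g1, g2⟩ := der_seg hH j
    have hd := der_mono (der_append g1 (der_append g1 g1))
    obtain ⟨htwo, hc⟩ := der_inv hd
    have h0 : 0 ∉ H := fun h => (hH 0 h).1.ne rfl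
    have hok : Ok H (cls A.μ 0 (g ++ (g ++ g))) := by
      rw [g2, g2, ← append_nil g, g2]
      exact Ok.step h0 (Ok.step h0 (Ok.step h0 (fun a b e => by simp [cls] at e) (Or.inl rfl))
        (Or.inr ⟨_, rfl⟩)) (Or.inr ⟨_, rfl⟩)
    have hard : A.Hard (g ++ (g ++ g)) := fun u v q s c e k1 k2 => by
      obtain ⟨a, ha⟩ := cls_suffix (μ := A.μ) (i := 0) u v
      rw [e] at htwo hok
      exact h3 v (Two.tail (forall_mem_append.1 htwo).2) (fun b e' => hok a b (e' ▸ ha)) q s c k1 k2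
    have h4 : 3 ∈ g ++ (g ++ g) := by
      refine count_pos_iff.1 (lt_of_lt_of_le (lt_of_lt_of_le ?_ hc) cls_count)
      exact count_pos_iff.2 (by simp [blk])
    obtain ⟨a, v, e⟩ := append_of_mem h4
    refine fun e' => seqs_ne (P := Two) pw_letters
      (fun w hw => ⟨_, der_mono (even hw (Nat.zero_le _)), pw_letters⟩) (hr.tail hd) ?_
      (not_der hard) e'.symm
    rw [e] at htwo ⊢
    have := der_append (der_mono (even (A := A) (forall_mem_append.1 htwo).1 (Nat.zero_le _)))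
      ((der_cons _ _ _ _).2 ⟨_, _, Or.inl ⟨rfl, rfl⟩,
        der_mono (even (A := A) (Two.tail (forall_mem_append.1 htwo).2) (Nat.zero_le _)), rfl⟩)
    rw [← pw_add, ← pw_add] at this
    rwa [wt_append, wt_cons, show A.wt a + (A.wt v + (A.n + 2)) + 1 =
      A.wt a + 2 * 0 + (A.n + 3 + (A.wt v + 2 * 0)) by omega]

end GA

end Pool.Agent.MP_dd548e_lc.Bin

end

section

/-! The error detecting automaton with one-sided counters, and the reduction. -/

namespace Pool.Agent.MP_dd548e_lc.Bin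

open List Relation

section lift

variable {H : Type} {μ : ℕ} {T : H → ℕ → ℕ → H → Prop} {F : H → Prop}

/-- the automaton that reads the lengths of the blocks modulo `μ` -/
def lo (μ : ℕ) (T : H → ℕ → ℕ → H → Prop) (F : H → Prop) (p : H × Fin μ) (l t : ℕ)
    (p' : H × Fin μ) : Prop :=
  (l = 2 ∧ t = 1 ∧ ¬ F p.1 ∧ p'.1 = p.1 ∧ p'.2.val = (p.2.val + 1) % μ) ∨
    (l = 3 ∧ p'.2.val = 0 ∧ T p.1 p.2.val t p'.1)

lemma lift (hT : ∀ h c t h', T h c t h' → ¬ F h) {v : List ℕ} (hv : Two v) (p : H × Fin μ) (i : ℕ)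
    (hi : p.2.val = i % μ) (c : ℤ) :
    Run (lo μ T F) (fun p => F p.1) p v c ↔ Run T F p.1 (cls μ i v) c := by
  have hμ : 0 < μ := p.2.pos
  induction v generalizing p i c with
  | nil => rfl
  | cons l v ih =>
    rcases hv l mem_cons_self with rfl | rfl
    · rw [cls_two]
      constructor
      · rintro ⟨t, p', ⟨-, rfl, h1, h2, h3⟩ | ⟨h, -⟩, h4⟩
        · rcases h4 with ⟨h4, -⟩ | h4
          · exact absurd (h2 ▸ h4) h1
          · have := (ih hv.tail p' (i + 1) (by rw [h3, hi, Nat.mod_add_mod]) _).1 h4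
            simpa [h2] using this
        · omega
      · intro h
        refine ⟨1, (p.1, ⟨(i + 1) % μ, Nat.mod_lt _ hμ⟩),
          Or.inl ⟨rfl, rfl, ?_, rfl, by rw [hi, Nat.mod_add_mod]⟩,
          Or.inr ((ih hv.tail _ (i + 1) rfl _).2 (by simpa using h))⟩
        cases e : cls μ (i + 1) v with
        | nil => exact (e ▸ h :).elim
        | cons x cs =>
          rw [e] at h
          obtain ⟨t, q', h, -⟩ := h
          exact hT _ _ _ _ h
    · rw [cls_three, ← hi]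
      constructor
      · rintro ⟨t, p', ⟨h, -⟩ | ⟨-, h1, h2⟩, h4⟩
        · omega
        · exact ⟨t, p'.1, h2, h4.imp_right (ih hv.tail p' 0 (by simpa using h1) _).1⟩
      · rintro ⟨t, h', h2, h4⟩
        exact ⟨t, (h', ⟨0, hμ⟩), Or.inr ⟨rfl, rfl, h2⟩,
          h4.imp_right (ih hv.tail (h', ⟨0, hμ⟩) 0 (by simp) _).2⟩

end lift

variable {σ : Type} {m : ℕ}

/-- transitions on the classes: `0` is a separator, `o + 1` is the operation `o` -/
def T (D : DFA ℕ σ) : Bool × St σ m → ℕ → ℕ → Bool × St σ m → Prop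
  | (true, h), c, t, p => c = 0 ∧ t = 1 ∧ p = (false, h)
  | (false, .dfa s), 0, t, p => s ∉ D.accept ∧ t = 1 ∧ p = (false, .done)
  | (false, .dfa s), o + 1, t, p => t = 1 ∧ p = (false, .dfa (D.step s o))
  | (false, .cntA r), o + 1, t, p =>
      (t = eff r o ∧ p = (false, .cntA r)) ∨ (o = 3 * r + 1 ∧ t = 1 ∧ p = (false, .done))
  | (false, .cntB r), o + 1, t, p =>
      (t = 2 - eff r o ∧ p = (false, .cntB r)) ∨ (o = 3 * r + 2 ∧ t = 1 ∧ p = (false, .done))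
  | (false, .wait r), o + 1, t, p =>
      t = 1 ∧ (p = (false, .wait r) ∨ (o = 3 * r ∧ p = (false, .cntB r)))
  | _, _, _, _ => False

def Fd (p : Bool × St σ m) : Prop := p = (false, .done)

variable (D : DFA ℕ σ)

lemma eff_le (r o : ℕ) : eff r o ≤ 2 := by unfold eff; split_ifs <;> omega

lemma T_le {p p' : Bool × St σ m} {c t : ℕ} (h : T D p c t p') : t ≤ 2 ∧ ¬ Fd p := by
  obtain ⟨_ | _, q⟩ := p
  · rcases q with s | r | r | r | _ <;> rcases c with _ | o <;> simp only [T] at h <;>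
      refine ⟨?_, by simp [Fd]⟩
    · omega
    · omega
    · have := eff_le r o
      omega
    · omega
    · omega
  · exact ⟨by rw [h.2.1]; omega, by simp [Fd]⟩

lemma run_done {cs : List ℕ} {c : ℤ} : ¬ Run (T D) Fd ((false, .done) : Bool × St σ m) cs c := by
  cases cs with
  | nil => exact id
  | cons x cs =>
    rintro ⟨t, p, h, -⟩
    exact (T_le D h).2 rfl

lemma run_pre {q : St σ m} (hq : q ≠ .done) {cs : List ℕ} {c : ℤ} :
    Run (T D) Fd (true, q) cs c ↔ ∃ b, cs = 0 :: b ∧ Run (T D) Fd (false, q) b c := by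
  cases cs with
  | nil => exact ⟨False.elim, by simp⟩
  | cons x cs =>
    constructor
    · rintro ⟨t, p, ⟨rfl, rfl, rfl⟩, ⟨h, -⟩ | h⟩
      · exact absurd (Prod.ext_iff.1 h).2 hq
      · exact ⟨cs, rfl, by simpa using h⟩
    · rintro ⟨b, e, h⟩
      obtain ⟨rfl, rfl⟩ := cons.inj e
      exact ⟨1, _, ⟨rfl, rfl, rfl⟩, Or.inr (by simpa using h)⟩

lemma run_dfa (s : σ) (w t : List ℕ) (c : ℤ) :
    Run (T D) Fd ((false, .dfa s) : Bool × St σ m) (w.map (· + 1) ++ 0 :: t) c ↔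
      c = 0 ∧ D.evalFrom s w ∉ D.accept := by
  induction w generalizing s c with
  | nil =>
    constructor
    · rintro ⟨t, p, ⟨h, rfl, rfl⟩, ⟨-, k⟩ | k⟩
      · exact ⟨by simpa using k, h⟩
      · exact (run_done D k).elim
    · rintro ⟨rfl, h⟩
      exact ⟨1, _, ⟨h, rfl, rfl⟩, Or.inl ⟨rfl, by simp⟩⟩
  | cons o w ih =>
    constructor
    · rintro ⟨t, p, ⟨rfl, rfl⟩, ⟨k, -⟩ | k⟩
      · simp [Fd] at k
      · simpa using (ih _ _).1 k
    · rintro ⟨rfl, h⟩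
      exact ⟨1, _, ⟨rfl, rfl⟩, Or.inr ((ih _ _).2 ⟨by simp, h⟩)⟩

lemma sound' (w t : List ℕ) (v v' : Regs) (h : Exec w v v') (r : Fin m) (c : ℤ) :
    (Run (T D) Fd (false, .cntA r) (w.map (· + 1) ++ 0 :: t) c → 1 ≤ v r + c) ∧
    (Run (T D) Fd (false, .cntB r) (w.map (· + 1) ++ 0 :: t) c → v r ≤ c) ∧
    (Run (T D) Fd (false, .wait r) (w.map (· + 1) ++ 0 :: t) c → 1 ≤ c) := by
  induction w generalizing v c with
  | nil => exact ⟨fun ⟨_, _, h, _⟩ => h.elim, fun ⟨_, _, h, _⟩ => h.elim,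
      fun ⟨_, _, h, _⟩ => h.elim⟩
  | cons o w ih =>
    obtain ⟨u, h1, h2⟩ := h
    have e := step_eff h1 r
    have := eff_le r o
    refine ⟨?_, ?_, ?_⟩
    · rintro ⟨t, p, ⟨rfl, rfl⟩ | ⟨rfl, rfl, rfl⟩, ⟨k, k'⟩ | k⟩
      · simp [Fd] at k
      · have := (ih u h2 _).1 k
        omega
      · simp only [eff] at e
        split_ifs at e <;> omega
      · exact (run_done D k).elim
    · rintro ⟨t, p, ⟨rfl, rfl⟩ | ⟨rfl, rfl, rfl⟩, ⟨k, k'⟩ | k⟩
      · simp [Fd] at k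
      · have := (ih u h2 _).2.1 k
        omega
      · rcases h1 with ⟨h, -⟩ | ⟨h, -⟩ | ⟨-, h, -⟩
        · omega
        · omega
        · rw [show (3 * r.val + 2) / 3 = r by omega] at h
          omega
      · exact (run_done D k).elim
    · rintro ⟨t, p, ⟨rfl, rfl | ⟨rfl, rfl⟩⟩, ⟨k, k'⟩ | k⟩
      · simp [Fd] at k
      · have := (ih u h2 _).2.2 k
        omega
      · simp [Fd] at k
      · have := (ih u h2 _).2.1 k
        simp [eff] at e
        omega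

lemma complete' (w t : List ℕ) (hw : ∀ o ∈ w, o < m) (v : Regs) (h : ¬ ∃ v', Exec w v v') :
    ∃ r : Fin m, Run (T D) Fd (false, .cntA r) (w.map (· + 1) ++ t) (-v r) ∨
      (∃ z : ℕ, z < v r ∧ Run (T D) Fd (false, .cntB r) (w.map (· + 1) ++ t) z) ∨
      Run (T D) Fd (false, .wait r) (w.map (· + 1) ++ t) 0 := by
  induction w generalizing v with
  | nil => exact absurd ⟨v, rfl⟩ h
  | cons o w ih =>
    by_cases hs : ∃ u, Step o v u
    · obtain ⟨u, hu⟩ := hs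
      obtain ⟨r, k⟩ := ih (fun o ho => hw o (mem_cons_of_mem _ ho)) u
        fun ⟨v', k⟩ => h ⟨v', u, hu, k⟩
      have e := step_eff hu r
      have := eff_le r o
      refine ⟨r, ?_⟩
      rcases k with k | ⟨z, hz, k⟩ | k
      · exact Or.inl ⟨_, _, Or.inl ⟨rfl, rfl⟩,
          Or.inr (by rw [show -(v r : ℤ) + 1 - eff r o = -u r by omega]; exact k)⟩
      · by_cases h0 : o = 3 * r ∧ z = 0
        · obtain ⟨rfl, rfl⟩ := h0
          exact Or.inr (Or.inr ⟨_, _, ⟨rfl, Or.inr ⟨rfl, rfl⟩⟩, Or.inr (by simpa using k)⟩)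
        · have h3 : eff r o ≤ z + 1 := by unfold eff; split_ifs <;> omega
          exact Or.inr (Or.inl ⟨z + 1 - eff r o, by omega, _, _, Or.inl ⟨rfl, rfl⟩,
            Or.inr (by
              rw [show ((z + 1 - eff r o : ℕ) : ℤ) + 1 - (2 - eff r o : ℕ) = z by omega]
              exact k)⟩)
      · exact Or.inr (Or.inr ⟨_, _, ⟨rfl, Or.inl rfl⟩, Or.inr (by simpa using k)⟩)
    · have ho : o / 3 < m := lt_of_le_of_lt (Nat.div_le_self _ _) (hw o mem_cons_self)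
      refine ⟨⟨o / 3, ho⟩, ?_⟩
      have h3 : o % 3 = 0 ∨ o % 3 = 1 ∨ o % 3 = 2 := by omega
      rcases h3 with h3 | h3 | h3
      · exact absurd ⟨_, Or.inl ⟨h3, rfl⟩⟩ hs
      · have h0 : v (o / 3) = 0 := by
          by_contra h0
          refine hs ⟨v - ee (o / 3), Or.inr (Or.inl ⟨h3, funext fun i => ?_⟩)⟩
          simp only [Pi.add_apply, Pi.sub_apply, ee]
          split_ifs with hi
          · rw [hi]; omega
          · omega
        exact Or.inl ⟨1, _, Or.inr ⟨by simp only; omega, rfl, rfl⟩, Or.inl ⟨rfl, by simp [h0]⟩⟩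
      · have h0 : v (o / 3) ≠ 0 := fun h0 => hs ⟨v, Or.inr (Or.inr ⟨h3, h0, rfl⟩)⟩
        exact Or.inr (Or.inl ⟨0, Nat.pos_of_ne_zero h0, 1, _,
          Or.inr ⟨by simp only; omega, rfl, rfl⟩, Or.inl ⟨rfl, by simp⟩⟩)

/-- the starts for the input `n` -/
def Jn {Q : Type} (I : Q → Prop) (qA qB : Q) (n : ℕ) (q : Q) (s : ℕ) : Prop :=
  (I q ∧ s = n + 3) ∨ (q = qA ∧ s = n + n + 3) ∨ (q = qB ∧ ∃ j < n, s = j + 4)

theorem exists_aut : ∃ (Q : Type) (_ : Finite Q) (δ : Q → ℕ → ℕ → Q → Prop) (F : Q → Prop)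
    (μ : ℕ) (I : Q → Prop) (qA qB : Q) (Halt : ℕ → Prop), 0 < μ ∧
    (∀ q l t q', δ q l t q' → (l = 2 ∨ l = 3) ∧ t ≤ 2) ∧ ¬ ComputablePred Halt ∧
    (∀ n, ¬ Halt n → ∀ v g t, Two v → cls μ 0 v = 0 :: (g ++ 0 :: t) → 0 ∉ g →
      ∃ q s c, Jn I qA qB n q s ∧ Run δ F q v c ∧ s + c = n + 3) ∧
    ∀ n, Halt n → ∃ H : List ℕ, (∀ c ∈ H, 0 < c ∧ c < μ) ∧ ∀ v, Two v →
      (∀ b, cls μ 0 v = 0 :: b → b = [] ∨ ∃ t, b = H ++ 0 :: t) →
      ∀ q s c, Jn I qA qB n q s → Run δ F q v c → n + 4 ≤ s + c := by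
  obtain ⟨L, M, ⟨σ, _, D, rfl⟩, hM, hc⟩ := exists_machine
  have key : ∀ (q : St σ (M + 1)), q ≠ .done → ∀ v, Two v → ∀ c,
      Run (lo (M + 1) (T D) Fd) (fun p => Fd p.1) ((true, q), 0) v c ↔
        ∃ b, cls (M + 1) 0 v = 0 :: b ∧ Run (T D) Fd (false, q) b c := fun q hq v hv c => by
    rw [lift (T := T D) (F := Fd) (fun _ _ _ _ h => (T_le D h).2) hv _ 0 rfl, run_pre D hq]
  have e0 : ∀ n : ℕ, (n • ee 0) (0 : Fin (M + 1)) = n := fun n => by simp [ee]
  have e1 : ∀ (n : ℕ) (r : Fin (M + 1)), r ≠ 0 → (n • ee 0) r = 0 := fun n r hr => by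
    have : r.val ≠ 0 := fun e => hr (Fin.ext e)
    simp [ee, this]
  refine ⟨(Bool × St σ (M + 1)) × Fin (M + 1), inferInstance, lo (M + 1) (T D) Fd,
    fun p => Fd p.1, M + 1, fun q => q = ((true, .dfa D.start), 0) ∨
      (∃ r, r ≠ 0 ∧ q = ((true, .cntA r), 0)) ∨ ∃ r, q = ((true, .wait r), 0),
    ((true, .cntA 0), 0), ((true, .cntB 0), 0), _, Nat.succ_pos _, ?_, hc, ?_, ?_⟩
  · rintro q l t q' (⟨h, rfl, -⟩ | ⟨h, -, k⟩)
    exacts [⟨Or.inl h, by omega⟩, ⟨Or.inr h, (T_le D k).1⟩]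
  · intro n hn v g t hv e hg
    have hlt : ∀ c ∈ g, c < M + 1 := fun c h =>
      cls_lt (i := 0) (w := v) (Nat.succ_pos _) c (by simp [e, h])
    obtain ⟨w, rfl⟩ : ∃ w : List ℕ, g = w.map (· + 1) := by
      refine ⟨g.map (· - 1), ?_⟩
      rw [List.map_map]
      refine (map_id g).symm.trans (map_congr_left fun c h => ?_)
      have : c ≠ 0 := fun h0 => hg (h0 ▸ h)
      simp only [id, Function.comp_apply]
      omega
    by_cases hw : w ∈ D.accepts
    · obtain ⟨r, k | ⟨z, hz, k⟩ | k⟩ := complete' D (m := M + 1) w (0 :: t)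
        (fun o ho => by have := hlt _ (mem_map_of_mem ho); omega) _ fun h => hn ⟨w, hw, h⟩
      · by_cases hr : r = 0
        · subst hr
          exact ⟨_, _, _, Or.inr (Or.inl ⟨rfl, rfl⟩), (key _ (by simp) v hv _).2 ⟨_, e, k⟩,
            by rw [e0]; omega⟩
        · exact ⟨_, _, _, Or.inl ⟨Or.inr (Or.inl ⟨r, hr, rfl⟩), rfl⟩,
            (key _ (by simp) v hv _).2 ⟨_, e, k⟩, by rw [e1 n r hr]; omega⟩
      · by_cases hr : r = 0
        · subst hr
          rw [e0] at hz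
          exact ⟨_, _, _, Or.inr (Or.inr ⟨rfl, n - 1 - z, by omega, rfl⟩),
            (key _ (by simp) v hv _).2 ⟨_, e, k⟩, by omega⟩
        · rw [e1 n r hr] at hz
          omega
      · exact ⟨_, _, _, Or.inl ⟨Or.inr (Or.inr ⟨r, rfl⟩), rfl⟩,
          (key _ (by simp) v hv _).2 ⟨_, e, k⟩, by omega⟩
    · exact ⟨_, _, 0, Or.inl ⟨Or.inl rfl, rfl⟩,
        (key _ (by simp) v hv _).2 ⟨_, e, (run_dfa D _ _ _ _).2 ⟨rfl, hw⟩⟩, by omega⟩
  · rintro n ⟨w, hw, v', h⟩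
    refine ⟨w.map (· + 1), fun c hc => ?_, fun v hv hb q s c hJ k => ?_⟩
    · obtain ⟨o, ho, rfl⟩ := mem_map.1 hc
      have := hM w hw o ho
      omega
    have key' : ∀ (q : St σ (M + 1)), q ≠ .done →
        Run (lo (M + 1) (T D) Fd) (fun p => Fd p.1) ((true, q), 0) v c →
        ∃ t, Run (T D) Fd (false, q) (w.map (· + 1) ++ 0 :: t) c := fun q hq k => by
      obtain ⟨b, e, k⟩ := (key q hq v hv c).1 k
      rcases hb b e with rfl | ⟨t, rfl⟩
      exacts [k.elim, ⟨t, k⟩]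
    rcases hJ with ⟨rfl | ⟨r, hr, rfl⟩ | ⟨r, rfl⟩, rfl⟩ | ⟨rfl, rfl⟩ | ⟨rfl, j, hj, rfl⟩ <;>
      obtain ⟨t, k⟩ := key' _ (by simp) k
    · exact absurd hw ((run_dfa D _ _ _ _).1 k).2
    · have := (sound' D w t _ _ h r c).1 k
      rw [e1 n r hr] at this
      omega
    · have := (sound' D w t _ _ h r c).2.2 k
      omega
    · have := (sound' D w t _ _ h 0 c).1 k
      rw [e0] at this
      omega
    · have := (sound' D w t _ _ h 0 c).2.1 k
      rw [e0] at this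
      omega

/-- families of rule sets that are listed by a primitive recursive function -/
def PR (F : ℕ → ℕ → List ℕ → Prop) : Prop :=
  ∃ R : ℕ → List (ℕ × List ℕ), Primrec R ∧ ∀ n l b, (l, b) ∈ R n ↔ F n l b

lemma PR.congr {F G : ℕ → ℕ → List ℕ → Prop} (h : PR F) (e : ∀ n l b, F n l b ↔ G n l b) :
    PR G := h.imp fun _ h => ⟨h.1, fun n l b => (h.2 n l b).trans (e n l b)⟩

lemma PR.or {F G : ℕ → ℕ → List ℕ → Prop} (h : PR F) (h' : PR G) :
    PR fun n l b => F n l b ∨ G n l b := by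
  obtain ⟨R, h1, h2⟩ := h
  obtain ⟨R', h1', h2'⟩ := h'
  exact ⟨fun n => R n ++ R' n, Primrec.list_append.comp h1 h1', fun n l b => by simp [h2, h2']⟩

lemma PR.set {ι : Type} {S : Set ι} (hS : S.Finite) {F : ι → ℕ → ℕ → List ℕ → Prop}
    (h : ∀ i, PR (F i)) : PR fun n l b => ∃ i ∈ S, F i n l b := by
  induction S, hS using Set.Finite.induction_on with
  | empty => exact ⟨fun _ => [], Primrec.const _, by simp⟩
  | @insert a _ _ _ ih => exact ((h a).or ih).congr (by simp)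

lemma PR.wrap {F : ℕ → ℕ → List ℕ → Prop} (h : PR F) (a a' : List ℕ) :
    PR fun n l b => ∃ k, F n l k ∧ b = a ++ (k ++ a') := by
  obtain ⟨R, h1, h2⟩ := h
  refine ⟨fun n => (R n).map fun p => (p.1, a ++ (p.2 ++ a')), Primrec.list_map h1
    ((Primrec.fst.comp Primrec.snd).pair (Primrec.list_append.comp (Primrec.const a)
      (Primrec.list_append.comp (Primrec.snd.comp Primrec.snd) (Primrec.const a')))).to₂,
    fun n l b => ?_⟩
  simp only [mem_map, Prod.mk.injEq, Prod.exists, h2]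
  constructor
  · rintro ⟨_, k, h, rfl, rfl⟩
    exact ⟨k, h, rfl⟩
  · rintro ⟨k, h, rfl⟩
    exact ⟨l, k, h, rfl, rfl⟩

lemma primrec_pw (N : ℕ) : Primrec (pw N) := by
  refine (Primrec.nat_rec₁ [] (f := fun _ l => blk N ++ l)
    (Primrec.list_append.comp (Primrec.const _) Primrec.snd)).of_eq fun n => ?_
  induction n with
  | zero => rfl
  | succ n ih => rw [pw, ← ih]

lemma pr_list (N l0 : ℕ) {E : ℕ → List ℕ} (hE : Primrec E) :
    PR fun n l b => l = l0 ∧ ∃ g ∈ E n, b = pw N g := by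
  refine ⟨fun n => (E n).map fun g => (l0, pw N g), Primrec.list_map hE
    ((Primrec.const l0).pair ((primrec_pw N).comp Primrec.snd)), fun n l b => ?_⟩
  simp only [mem_map, Prod.mk.injEq]
  constructor
  · rintro ⟨g, h, rfl, rfl⟩
    exact ⟨rfl, g, h, rfl⟩
  · rintro ⟨rfl, g, h, rfl⟩
    exact ⟨g, h, rfl, rfl⟩

lemma pr_one (N l0 : ℕ) {g : ℕ → ℕ} (hg : Primrec g) :
    PR fun n l b => l = l0 ∧ b = pw N (g n) :=
  (pr_list N l0 (Primrec.list_cons.comp hg (Primrec.const []))).congr (by simp)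

lemma pr_add (N l0 k : ℕ) : PR fun n l b => l = l0 ∧ b = pw N (n + k) :=
  pr_one N l0 (Primrec.nat_add.comp Primrec.id (Primrec.const k))

lemma pr_const (l0 : ℕ) (a : List ℕ) : PR fun _ l b => l = l0 ∧ b = a :=
  ⟨fun _ => [(l0, a)], Primrec.const _, by simp⟩

theorem exists_red : ∃ (R : ℕ → List (ℕ × List ℕ)) (u : ℕ → List ℕ), Primrec R ∧ Primrec u ∧
    (∀ n, ∀ p ∈ (3, u n) :: R n, (p.1 = 2 ∨ p.1 = 3) ∧ p.2 ≠ [] ∧ Two p.2) ∧
    (∀ n, (∃ w, (2, w) ∈ R n) ∧ ∃ w, (3, w) ∈ R n) ∧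
    ¬ ComputablePred fun n => ¬ Seqs (fun a w => (a, w) ∈ R n) [3, 3, 3] =
      Seqs (fun a w => (a, w) ∈ (3, u n) :: R n) [3, 3, 3] := by
  obtain ⟨Q, _, δ, F, μ, I, qA, qB, Halt, hμ, hδ, hc, h1, h2⟩ := exists_aut
  obtain ⟨K, ⟨e⟩⟩ := Finite.exists_equiv_fin Q
  let W : WA Q := ⟨δ, F, μ * K, fun q => μ * (e q + 1), fun q q' h =>
    e.injective (Fin.ext (by simpa [hμ.ne'] using h)), fun q => by positivity,
    fun q => Nat.mul_le_mul_left _ (e q).2⟩
  let A : ℕ → GA Q := fun n => ⟨W, μ, n, Jn I qA qB n, hμ, Dvd.intro _ rfl,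
    fun q => Dvd.intro _ rfl, by rintro q s (h | h | ⟨-, j, -, h⟩) <;> omega⟩
  have c1 : PR fun n l k => ∃ q t q' a ε, δ q l t q' ∧ (ε = 0 ∨ (ε = 1 ∧ l = 3)) ∧
      (a = W.al q' ∨ (F q' ∧ a = [])) ∧ k = W.be q ++ (pw W.N (n + (t + 2 * ε)) ++ a) := by
    have hS : {x : Q × ℕ × Q × List ℕ × ℕ × ℕ | δ x.1 x.2.2.2.2.2 x.2.1 x.2.2.1 ∧
        (x.2.2.2.2.1 = 0 ∨ (x.2.2.2.2.1 = 1 ∧ x.2.2.2.2.2 = 3)) ∧
        (x.2.2.2.1 = W.al x.2.2.1 ∨ (F x.2.2.1 ∧ x.2.2.2.1 = []))}.Finite := by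
      refine (Set.finite_univ.prod ((Set.finite_le_nat 2).prod (Set.finite_univ.prod
        (((Set.finite_range W.al).insert []).prod
          ((Set.finite_le_nat 1).prod (Set.finite_le_nat 3)))))).subset ?_
      rintro ⟨q, t, q', a, ε, l⟩ ⟨k1, k2, k3⟩
      have := hδ _ _ _ _ k1
      refine ⟨trivial, this.2, trivial, ?_, ?_, ?_⟩
      · rcases k3 with k | k
        exacts [Or.inr ⟨q', k.symm⟩, Or.inl k.2]
      · change ε ≤ 1
        simp only at k2
        omega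
      · change l ≤ 3
        simp only at this
        omega
    refine (PR.set hS fun x => (pr_add W.N x.2.2.2.2.2 (x.2.1 + 2 * x.2.2.2.2.1)).wrap
      (W.be x.1) x.2.2.2.1).congr fun n l k => ⟨?_, ?_⟩
    · rintro ⟨⟨q, t, q', a, ε, l⟩, ⟨k1, k2, k3⟩, _, ⟨rfl, rfl⟩, rfl⟩
      exact ⟨q, t, q', a, ε, k1, k2, k3, rfl⟩
    · rintro ⟨q, t, q', a, ε, k1, k2, k3, rfl⟩
      exact ⟨(q, t, q', a, ε, l), ⟨k1, k2, k3⟩, _, ⟨rfl, rfl⟩, rfl⟩
  have c2 : PR fun n l k => l = 3 ∧ ∃ q s, Jn I qA qB n q s ∧ k = pw W.N s ++ W.al q := by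
    refine ((PR.set (Set.toFinite {q | I q}) fun q => (pr_add W.N 3 3).wrap [] (W.al q)).or
      (((pr_one W.N 3 (Primrec.nat_add.comp (Primrec.nat_add.comp Primrec.id Primrec.id)
        (Primrec.const 3))).wrap [] (W.al qA)).or
      ((pr_list W.N 3 (E := fun n => (range n).map (· + 4)) (Primrec.list_map Primrec.list_range
        (Primrec.nat_add.comp Primrec.snd (Primrec.const 4)).to₂)).wrap [] (W.al qB)))).congr
      fun n l k => ⟨?_, ?_⟩
    · rintro (⟨q, h, _, ⟨rfl, rfl⟩, rfl⟩ | ⟨_, ⟨rfl, rfl⟩, rfl⟩ | ⟨_, ⟨rfl, g, h, rfl⟩, rfl⟩)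
      · exact ⟨rfl, q, _, Or.inl ⟨h, rfl⟩, rfl⟩
      · exact ⟨rfl, qA, _, Or.inr (Or.inl ⟨rfl, rfl⟩), rfl⟩
      · obtain ⟨j, hj, rfl⟩ := mem_map.1 h
        exact ⟨rfl, qB, _, Or.inr (Or.inr ⟨rfl, j, mem_range.1 hj, rfl⟩), rfl⟩
    · rintro ⟨rfl, q, s, ⟨h, rfl⟩ | ⟨rfl, rfl⟩ | ⟨rfl, j, hj, rfl⟩, rfl⟩
      · exact Or.inl ⟨q, h, _, ⟨rfl, rfl⟩, rfl⟩
      · exact Or.inr (Or.inl ⟨_, ⟨rfl, rfl⟩, rfl⟩)
      · exact Or.inr (Or.inr ⟨_, ⟨rfl, _, mem_map.2 ⟨j, mem_range.2 hj, rfl⟩, rfl⟩, rfl⟩)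
  have c3 : PR fun _ l k => ∃ i, 0 < i ∧ i ≤ μ ∧ (l = 2 ∨ (l = 3 ∧ i = μ)) ∧
      k = replicate (W.N + i) 2 ++ [3] := by
    refine ((PR.set (Set.finite_Ioc 0 μ) fun i => pr_const 2 (replicate (W.N + i) 2 ++ [3])).or
      (pr_const 3 (replicate (W.N + μ) 2 ++ [3]))).congr fun n l k => ⟨?_, ?_⟩
    · rintro (⟨i, h, rfl, rfl⟩ | ⟨rfl, rfl⟩)
      exacts [⟨i, h.1, h.2, Or.inl rfl, rfl⟩, ⟨μ, hμ, le_rfl, Or.inr ⟨rfl, rfl⟩, rfl⟩]
    · rintro ⟨i, k1, k2, rfl | ⟨rfl, rfl⟩, rfl⟩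
      exacts [Or.inl ⟨i, ⟨k1, k2⟩, rfl, rfl⟩, Or.inr ⟨rfl, rfl⟩]
  have c4 : PR fun n => (A n).Core := c1.or (c2.or ((pr_const 2 (replicate (W.N + μ) 2)).or c3))
  have c5 : PR fun n => (A n).NNw := PR.set (Set.finite_le_nat 1) fun ε =>
    PR.set (Set.finite_le_nat 1) fun ε' => c4.wrap (pw W.N ε) (pw W.N ε')
  have c6 : PR fun n => (A n).Neu :=
    (((pr_add W.N 2 2).or (pr_add W.N 3 2)).congr fun _ _ _ => or_and_right.symm).or
      (pr_add W.N 3 4)
  obtain ⟨R, p1, hR⟩ : PR fun n => (A n).R2 := c6.or c5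
  have hR1 : ∀ n l b, (l, b) ∈ (3, pw W.N (n + 3)) :: R n ↔ (A n).R1 l b := fun n l b => by
    rw [mem_cons, hR, Prod.mk.injEq]
    rfl
  refine ⟨R, fun n => pw W.N (n + 3), p1,
    (primrec_pw _).comp (Primrec.nat_add.comp Primrec.id (Primrec.const 3)), fun n p hp => ?_,
    fun n => ⟨⟨_, (hR n _ _).2 (Or.inl (Or.inl ⟨Or.inl rfl, rfl⟩))⟩,
      ⟨_, (hR n _ _).2 (Or.inl (Or.inr ⟨rfl, rfl⟩))⟩⟩, ?_⟩
  · have h := (hR1 n p.1 p.2).1 hp
    refine ⟨?_, (GA.r1_inv h).2.1, (GA.r1_inv h).1⟩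
    rcases h with h | (h | h) | ⟨_, -, _, -, _, ⟨_, _, _, _, _, h, -⟩ | h | h | ⟨_, -, -, h, -⟩, -⟩
    exacts [Or.inr h.1, h.1, Or.inr h.1, (hδ _ _ _ _ h).1, Or.inr h.1, Or.inl h.1,
      h.imp_right And.left]
  · simp only [hR, hR1]
    rwa [show Halt = _ from funext fun n => propext ((A n).seqs_iff _ (h1 n) (h2 n)).symm] at hc

end Pool.Agent.MP_dd548e_lc.Bin

end
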