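import Pool.Agent.MP_dd548e_lc.Regular

namespace Pool.Agent.MP_dd548e_lc

open Language Computability Relation

/-- register contents -/
abbrev Regs := ℕ → ℕ

/-- unit vector -/
def ee (r : ℕ) : Regs := fun i => if i = r then 1 else 0

/-- Operation `o` acts on register `o / 3`: increment, decrement or zero test. -/
def Step (o : ℕ) (v u : Regs) : Prop :=
  (o % 3 = 0 ∧ u = v + ee (o / 3)) ∨ (o % 3 = 1 ∧ v = u + ee (o / 3)) ∨
    (o % 3 = 2 ∧ v (o / 3) = 0 ∧ u = v)

def Exec : List ℕ → Regs → Regs → Prop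
  | [], v, v' => v' = v
  | o :: w, v, v' => ∃ u, Step o v u ∧ Exec w u v'

lemma exec_append (w w' : List ℕ) (v v' : Regs) :
    Exec (w ++ w') v v' ↔ ∃ u, Exec w v u ∧ Exec w' u v' := by
  induction w generalizing v with
  | nil => simp [Exec]
  | cons o w ih =>
    simp only [List.cons_append, Exec, ih]
    constructor
    · rintro ⟨u, h1, t, h2, h3⟩
      exact ⟨t, ⟨u, h1, h2⟩, h3⟩
    · rintro ⟨t, ⟨u, h1, h2⟩, h3⟩
      exact ⟨u, h1, t, h2, h3⟩

/-- relations computed by nondeterministic counter machines with a regular control -/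
def Real (R : Regs → Regs → Prop) : Prop :=
  ∃ L : Language ℕ, L.IsRegular ∧ (∃ M, ∀ w ∈ L, ∀ o ∈ w, o < M) ∧
    ∀ v v', R v v' ↔ ∃ w ∈ L, Exec w v v'

lemma Real.congr {R R' : Regs → Regs → Prop} (h : Real R) (e : ∀ v v', R v v' ↔ R' v v') :
    Real R' := by
  obtain ⟨L, h1, h2, h3⟩ := h
  exact ⟨L, h1, h2, fun v v' => (e v v').symm.trans (h3 v v')⟩

lemma real_step (o : ℕ) : Real (Step o) := by
  refine ⟨{[o]}, regular_single o, ⟨o + 1, ?_⟩, fun v v' => ⟨fun h => ⟨[o], rfl, v', h, rfl⟩, ?_⟩⟩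
  · rintro w rfl o' ho
    rw [List.mem_singleton.1 ho]; omega
  · rintro ⟨w, rfl, u, h, rfl⟩
    exact h

lemma Real.comp {R R' : Regs → Regs → Prop} (h : Real R) (h' : Real R') :
    Real (fun v v' => ∃ u, R v u ∧ R' u v') := by
  obtain ⟨L, h1, ⟨M, h2⟩, h3⟩ := h
  obtain ⟨L', h1', ⟨M', h2'⟩, h3'⟩ := h'
  refine ⟨L * L', regular_mul h1 h1', ⟨max M M', ?_⟩, fun v v' => ⟨?_, ?_⟩⟩
  · intro w hw o ho
    obtain ⟨a, ha, b, hb, rfl⟩ := Language.mem_mul.1 hw
    rcases List.mem_append.1 ho with k | k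
    · exact lt_max_of_lt_left (h2 a ha o k)
    · exact lt_max_of_lt_right (h2' b hb o k)
  · rintro ⟨u, k1, k2⟩
    obtain ⟨a, ha, k1⟩ := (h3 _ _).1 k1
    obtain ⟨b, hb, k2⟩ := (h3' _ _).1 k2
    exact ⟨a ++ b, Language.mem_mul.2 ⟨a, ha, b, hb, rfl⟩, (exec_append _ _ _ _).2 ⟨u, k1, k2⟩⟩
  · rintro ⟨w, hw, k⟩
    obtain ⟨a, ha, b, hb, rfl⟩ := Language.mem_mul.1 hw
    obtain ⟨u, k1, k2⟩ := (exec_append _ _ _ _).1 k
    exact ⟨u, (h3 _ _).2 ⟨a, ha, k1⟩, (h3' _ _).2 ⟨b, hb, k2⟩⟩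

lemma Real.star {R : Regs → Regs → Prop} (h : Real R) : Real (ReflTransGen R) := by
  obtain ⟨L, h1, ⟨M, h2⟩, h3⟩ := h
  refine ⟨L∗, regular_kstar h1, ⟨M, ?_⟩, fun v v' => ⟨?_, ?_⟩⟩
  · refine kstar_induction (by simp) ?_
    intro a b ha _ ih o ho
    rcases List.mem_append.1 ho with k | k
    · exact h2 a ha o k
    · exact ih o k
  · intro k
    induction k using ReflTransGen.head_induction_on with
    | refl => exact ⟨[], kstar_nil _, rfl⟩
    | head k _ ih =>
      obtain ⟨a, ha, k1⟩ := (h3 _ _).1 k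
      obtain ⟨b, hb, k2⟩ := ih
      exact ⟨a ++ b, kstar_cons ha hb, (exec_append _ _ _ _).2 ⟨_, k1, k2⟩⟩
  · rintro ⟨w, hw, k⟩
    revert v
    refine kstar_induction (P := fun w => ∀ v, Exec w v v' → ReflTransGen R v v') ?_ ?_ w hw
    · rintro v rfl; exact ReflTransGen.refl
    · intro a b ha _ ih v k
      obtain ⟨u, k1, k2⟩ := (exec_append _ _ _ _).1 k
      exact ReflTransGen.head ((h3 _ _).2 ⟨a, ha, k1⟩) (ih u k2)

/-- vector replacement step -/
def VS (a b : Regs) (v u : Regs) : Prop := ∃ t : Regs, v = t + a ∧ u = t + b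

lemma real_inc (r : ℕ) : Real (VS 0 (ee r)) := by
  refine (real_step (3 * r)).congr fun v u => ?_
  have h1 : 3 * r % 3 = 0 := by omega
  have h2 : 3 * r / 3 = r := by omega
  simp [Step, VS, h1, h2]

lemma real_dec (r : ℕ) : Real (VS (ee r) 0) := by
  refine (real_step (3 * r + 1)).congr fun v u => ?_
  have h1 : (3 * r + 1) % 3 = 1 := by omega
  have h2 : (3 * r + 1) / 3 = r := by omega
  simp only [Step, VS, h1, h2, add_zero]
  constructor
  · rintro (h | h | h)
    · simp at h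
    · exact ⟨u, h.2, rfl⟩
    · simp at h
  · rintro ⟨t, h, rfl⟩
    exact Or.inr (Or.inl ⟨trivial, h⟩)

lemma real_zero (r : ℕ) : Real (fun v u => v r = 0 ∧ u = v) := by
  refine (real_step (3 * r + 2)).congr fun v u => ?_
  have h1 : (3 * r + 2) % 3 = 2 := by omega
  have h2 : (3 * r + 2) / 3 = r := by omega
  simp [Step, h1, h2]

lemma real_vs_dec {a b : Regs} (r : ℕ) (h : Real (VS a b)) : Real (VS (a + ee r) b) := by
  refine ((real_dec r).comp h).congr fun v v' => ⟨?_, ?_⟩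
  · rintro ⟨u, ⟨t, rfl, rfl⟩, ⟨t', h1, rfl⟩⟩
    refine ⟨t', ?_, rfl⟩
    rw [add_zero] at h1
    rw [h1, add_assoc]
  · rintro ⟨t, rfl, rfl⟩
    exact ⟨t + a, ⟨t + a, by rw [add_assoc], by rw [add_zero]⟩, t, rfl, rfl⟩

lemma real_vs_inc {a b : Regs} (r : ℕ) (h : Real (VS a b)) : Real (VS a (b + ee r)) := by
  refine (h.comp (real_inc r)).congr fun v v' => ⟨?_, ?_⟩
  · rintro ⟨u, ⟨t, rfl, rfl⟩, ⟨t', h1, rfl⟩⟩
    refine ⟨t, rfl, ?_⟩
    rw [add_zero] at h1
    rw [← h1, add_assoc]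
  · rintro ⟨t, rfl, rfl⟩
    exact ⟨t + b, ⟨t, rfl, rfl⟩, t + b, by rw [add_zero], by rw [add_assoc]⟩

lemma star_vs {a b : Regs} (hab : ∀ i, a i = 0 ∨ b i = 0) (v u : Regs) :
    ReflTransGen (VS a b) v u ↔ ∃ k : ℕ, VS (k • a) (k • b) v u := by
  constructor
  · intro h
    induction h with
    | refl => exact ⟨0, v, by simp, by simp⟩
    | tail _ h ih =>
      obtain ⟨k, t, rfl, rfl⟩ := ih
      obtain ⟨t', h1, rfl⟩ := h
      refine ⟨k + 1, t - a, ?_, ?_⟩
      · funext i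
        have := congrFun h1 i
        simp only [Pi.add_apply, Pi.smul_apply, Pi.sub_apply, smul_eq_mul, add_mul, one_mul]
          at this ⊢
        rcases hab i with h | h <;> simp only [h, mul_zero] at this ⊢ <;> omega
      · funext i
        have := congrFun h1 i
        simp only [Pi.add_apply, Pi.smul_apply, Pi.sub_apply, smul_eq_mul, add_mul, one_mul]
          at this ⊢
        rcases hab i with h | h <;> simp only [h, mul_zero] at this ⊢ <;> omega
  · rintro ⟨k, t, rfl, rfl⟩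
    induction k generalizing t with
    | zero => simpa using ReflTransGen.refl
    | succ k ih =>
      refine ReflTransGen.head (b := (t + b) + k • a) ⟨t + k • a, ?_, ?_⟩ ?_
      · rw [succ_nsmul, add_assoc]
      · rw [add_right_comm]
      · have := ih (t + b)
        rwa [succ_nsmul, add_comm (k • b) b, ← add_assoc]

lemma real_havoc (r : ℕ) : Real (fun v u => ∀ i, i ≠ r → u i = v i) := by
  refine ((real_dec r).star.comp (real_inc r).star).congr fun v v' => ?_
  simp only [star_vs (a := ee r) (b := 0) (fun _ => Or.inr rfl),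
    star_vs (a := 0) (b := ee r) (fun _ => Or.inl rfl)]
  constructor
  · rintro ⟨u, ⟨k, t, rfl, rfl⟩, ⟨k', t', h, rfl⟩⟩ i hi
    have := congrFun h i
    simp [ee, hi] at this ⊢
    exact this.symm
  · intro h
    refine ⟨Function.update v r 0, ⟨v r, Function.update v r 0, ?_, by simp⟩,
      ⟨v' r, Function.update v r 0, by simp, ?_⟩⟩
    · funext i
      by_cases hi : i = r <;> simp [ee, hi]
    · funext i
      by_cases hi : i = r
      · simp [ee, hi]
      · simp [ee, hi, h i hi]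

lemma real_id : Real (fun v u => u = v) := by
  refine ((real_inc 0).comp (real_dec 0)).congr fun v u => ⟨?_, ?_⟩
  · rintro ⟨w, ⟨t, rfl, rfl⟩, ⟨t', h1, rfl⟩⟩
    simpa using (add_right_cancel h1).symm
  · rintro rfl
    exact ⟨u + ee 0, ⟨u, by simp, rfl⟩, ⟨u, rfl, by simp⟩⟩

/-- all registers from `s` on are empty -/
def Z (s : ℕ) (v : Regs) : Prop := ∀ i, s ≤ i → v i = 0

/-- `Q` is computed using the registers from `s` on as scratch space -/
def Act (s : ℕ) (Q : Regs → Regs → Prop) : Prop :=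
  (∀ v v', Z s v → Q v v' → Z s v') ∧ ∃ R, Real R ∧ ∀ v, Z s v → ∀ v', R v v' ↔ Q v v'

lemma Act.congr {s : ℕ} {Q Q' : Regs → Regs → Prop} (h : Act s Q)
    (e : ∀ v, Z s v → ∀ v', Q v v' ↔ Q' v v') : Act s Q' := by
  obtain ⟨h1, R, h2, h3⟩ := h
  exact ⟨fun v v' hv k => h1 v v' hv ((e v hv v').2 k), R, h2,
    fun v hv v' => (h3 v hv v').trans (e v hv v')⟩

lemma Real.act {s : ℕ} {Q : Regs → Regs → Prop} (h : Real Q)
    (hz : ∀ v v', Z s v → Q v v' → Z s v') : Act s Q := ⟨hz, Q, h, fun _ _ _ => Iff.rfl⟩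

lemma Act.comp {s : ℕ} {Q Q' : Regs → Regs → Prop} (h : Act s Q) (h' : Act s Q') :
    Act s (fun v v' => ∃ u, Q v u ∧ Q' u v') := by
  obtain ⟨h1, R, h2, h3⟩ := h
  obtain ⟨h1', R', h2', h3'⟩ := h'
  refine ⟨?_, _, h2.comp h2', fun v hv v' => ⟨?_, ?_⟩⟩
  · rintro v v' hv ⟨u, k1, k2⟩
    exact h1' _ _ (h1 _ _ hv k1) k2
  · rintro ⟨u, k1, k2⟩
    have k1' := (h3 v hv u).1 k1
    exact ⟨u, k1', (h3' u (h1 _ _ hv k1') v').1 k2⟩
  · rintro ⟨u, k1, k2⟩
    exact ⟨u, (h3 v hv u).2 k1, (h3' u (h1 _ _ hv k1) v').2 k2⟩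

lemma Act.star {s : ℕ} {Q : Regs → Regs → Prop} (h : Act s Q) : Act s (ReflTransGen Q) := by
  obtain ⟨h1, R, h2, h3⟩ := h
  have hz : ∀ v v', Z s v → ReflTransGen Q v v' → Z s v' := by
    intro v v' hv k
    induction k with
    | refl => exact hv
    | tail _ k ih => exact h1 _ _ ih k
  refine ⟨hz, _, h2.star, fun v hv v' => ⟨fun k => ?_, fun k => ?_⟩⟩
  · induction k with
    | refl => exact ReflTransGen.refl
    | tail _ k ih => exact ih.tail ((h3 _ (hz _ _ hv ih) _).1 k)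
  · induction k with
    | refl => exact ReflTransGen.refl
    | tail k' k ih => exact ih.tail ((h3 _ (hz _ _ hv k') _).2 k)

lemma act_id (s : ℕ) : Act s (fun v u => u = v) :=
  real_id.act (by rintro v _ h rfl; exact h)

lemma act_havoc {s r : ℕ} (hr : r < s) : Act s (fun v u => ∀ i, i ≠ r → u i = v i) :=
  (real_havoc r).act fun v v' hv k i hi => by rw [k i (by omega), hv i hi]

lemma act_inc {s r : ℕ} (hr : r < s) : Act s (fun v u => u = v + ee r) := by
  refine ((real_inc r).congr fun v u => ?_).act ?_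
  · simp [VS]
  · rintro v _ hv rfl i hi
    have : i ≠ r := by omega
    simp [ee, this, hv i hi]

/-- forget the last register after clearing it -/
lemma Act.close {s : ℕ} {Q : Regs → Regs → Prop} (h : Act (s + 1) Q) :
    Act s (fun v v' => ∃ u, Q v u ∧ (∀ i, i ≠ s → v' i = u i) ∧ v' s = 0) := by
  obtain ⟨h1, R, h2, h3⟩ := h
  have zz : ∀ v, Z s v → Z (s + 1) v := fun v hv i hi => hv i (by omega)
  refine ⟨?_, _, h2.comp ((real_havoc s).comp (real_zero s)), fun v hv v' => ⟨?_, ?_⟩⟩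
  · rintro v v' hv ⟨u, k1, k2, k3⟩ i hi
    by_cases e : i = s
    · rw [e, k3]
    · rw [k2 i e]; exact h1 _ _ (zz v hv) k1 i (by omega)
  · rintro ⟨u, k1, t, k2, k3, rfl⟩
    exact ⟨u, (h3 v (zz v hv) u).1 k1, k2, k3⟩
  · rintro ⟨u, k1, k2, k3⟩
    exact ⟨u, (h3 v (zz v hv) u).2 k1, v', k2, k3, rfl⟩

/-- `P` can be tested nondeterministically -/
def Test (s : ℕ) (P : Regs → Prop) : Prop := Act s (fun v v' => P v ∧ v' = v)

lemma Test.congr {s : ℕ} {P P' : Regs → Prop} (h : Test s P) (e : ∀ v, Z s v → (P v ↔ P' v)) :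
    Test s P' := Act.congr h fun v hv v' => by rw [e v hv]

lemma test_true (s : ℕ) : Test s (fun _ => True) := (act_id s).congr fun _ _ _ => by simp

lemma Test.and {s : ℕ} {P P' : Regs → Prop} (h : Test s P) (h' : Test s P') :
    Test s (fun v => P v ∧ P' v) := by
  refine (Act.comp h h').congr fun v _ v' => ⟨?_, ?_⟩
  · rintro ⟨u, ⟨k1, rfl⟩, k2, rfl⟩
    exact ⟨⟨k1, k2⟩, rfl⟩
  · rintro ⟨⟨k1, k2⟩, rfl⟩
    exact ⟨_, ⟨k1, rfl⟩, k2, rfl⟩

lemma test_forall {s n : ℕ} {P : Fin n → Regs → Prop} (h : ∀ i, Test s (P i)) :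
    Test s (fun v => ∀ i, P i v) := by
  induction n with
  | zero => exact (test_true s).congr fun v _ => by simp
  | succ n ih =>
    exact ((h 0).and (ih fun i => h i.succ)).congr fun v _ =>
      (Fin.forall_fin_succ (P := fun i => P i v)).symm

lemma test_zero (s r : ℕ) : Test s (fun v => v r = 0) :=
  (real_zero r).act (by rintro v _ h ⟨-, rfl⟩; exact h)

/-- a relation using one more register which restores all the others yields a test -/
lemma Act.toTest {s : ℕ} {Q : Regs → Regs → Prop} (h : Act (s + 1) Q)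
    (hQ : ∀ v u, Z s v → Q v u → ∀ i, i ≠ s → u i = v i) : Test s (fun v => ∃ u, Q v u) := by
  refine h.close.congr fun v hv v' => ⟨?_, ?_⟩
  · rintro ⟨u, k1, k2, k3⟩
    refine ⟨⟨u, k1⟩, funext fun i => ?_⟩
    by_cases e : i = s
    · rw [e, k3, hv s le_rfl]
    · rw [k2 i e, hQ v u hv k1 i e]
  · rintro ⟨⟨u, k1⟩, rfl⟩
    exact ⟨u, k1, fun i hi => (hQ _ u hv k1 i hi).symm, hv s le_rfl⟩

lemma Test.exists {s : ℕ} {P : Regs → Prop} (h : Test (s + 1) P) :
    Test s (fun v => ∃ z, P (Function.update v s z)) := by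
  refine (((act_havoc (Nat.lt_succ_self s)).comp h).toTest ?_).congr fun v _ => ⟨?_, ?_⟩
  · rintro v _ _ ⟨u, k1, -, rfl⟩
    exact k1
  · rintro ⟨_, u, k1, k2, -⟩
    refine ⟨u s, ?_⟩
    have : Function.update v s (u s) = u := by
      funext i
      by_cases e : i = s
      · simp [e]
      · simp [e, k1 i e]
    rwa [this]
  · rintro ⟨z, k⟩
    exact ⟨_, Function.update v s z, fun i hi => by simp [hi], k, rfl⟩

lemma test_eq {s i j : ℕ} (hi : i < s) (hj : j < s) : Test s (fun v => v i = v j) := by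
  by_cases hij : i = j
  · exact (test_true s).congr fun v _ => by simp [hij]
  have his : i ≠ s := hi.ne
  have hjs : j ≠ s := hj.ne
  have d1 : ∀ x, (ee i + ee j) x = 0 ∨ ee s x = 0 := by
    intro x
    by_cases h : x = s
    · left; simp [ee, h, his.symm, hjs.symm]
    · right; simp [ee, h]
  have r1 : Real (VS (ee i + ee j) (0 + ee s)) := real_vs_inc s (real_vs_dec j (real_dec i))
  have r2 : Real (VS (0 + ee s) (ee i + ee j)) := real_vs_dec s (real_vs_inc j (real_inc i))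
  rw [zero_add] at r1 r2
  refine ⟨by rintro v _ h ⟨-, rfl⟩; exact h, _, r1.star.comp ((real_zero i).comp
    ((real_zero j).comp (r2.star.comp (real_zero s)))), fun v hv v' => ?_⟩
  simp only [star_vs d1, star_vs (fun x => (d1 x).symm)]
  have hs := hv s le_rfl
  constructor
  · rintro ⟨_, ⟨k, t, rfl, rfl⟩, _, ⟨a1, rfl⟩, _, ⟨a2, rfl⟩, _, ⟨k', t', a3, rfl⟩, a4, rfl⟩
    have a5 := congrFun a3 s
    simp [ee, his, hjs, his.symm, hjs.symm, hij, Ne.symm hij] at a1 a2 a4 a5 hs ⊢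
    have : k = k' := by omega
    subst this
    exact ⟨by omega, by rw [add_right_cancel a3]⟩
  · rintro ⟨h, rfl⟩
    have e : v' = Function.update (Function.update v' i 0) j 0 + v' i • (ee i + ee j) := by
      funext x
      by_cases h1 : x = j
      · simp [ee, h1, Ne.symm hij, h]
      · by_cases h2 : x = i
        · simp [ee, h2, hij]
        · simp [ee, h1, h2]
    refine ⟨_, ⟨v' i, _, e, rfl⟩, _, ⟨?_, rfl⟩, _, ⟨?_, rfl⟩, _, ⟨v' i, _, rfl, e⟩, hs, rfl⟩
    · simp [ee, his, hij]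
    · simp [ee, hjs]

end Pool.Agent.MP_dd548e_lc
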