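import Pool.Agent.MP_dd548e_lc.Words

namespace Pool.Agent.MP_dd548e_lc

open List Relation

/-- one parallel derivation step -/
def Der (R : ℕ → List ℕ → Prop) (w w' : List ℕ) : Prop :=
  ∃ ws : List (List ℕ), Forall₂ R w ws ∧ w' = ws.flatten

/-- derivation sequences -/
def Seqs (R : ℕ → List ℕ → Prop) (ω : List ℕ) : Set (ℕ → List ℕ) :=
  {s | s 0 = ω ∧ ∀ n, Der R (s n) (s (n + 1))}

lemma der_nil (R : ℕ → List ℕ → Prop) (w' : List ℕ) : Der R [] w' ↔ w' = [] := by simp [Der]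

lemma der_cons (R : ℕ → List ℕ → Prop) (a : ℕ) (w w' : List ℕ) :
    Der R (a :: w) w' ↔ ∃ u r, R a u ∧ Der R w r ∧ w' = u ++ r := by
  constructor
  · rintro ⟨ws, h, rfl⟩
    cases h with
    | cons h1 h2 => exact ⟨_, _, h1, ⟨_, h2, rfl⟩, by simp⟩
  · rintro ⟨u, _, h1, ⟨ws, h2, rfl⟩, rfl⟩
    exact ⟨u :: ws, Forall₂.cons h1 h2, by simp⟩

lemma seqs_eq {R1 R2 : ℕ → List ℕ → Prop} {ω : List ℕ} {P : List ℕ → Prop} (h0 : P ω)
    (h1 : ∀ w w', P w → Der R1 w w' → P w') (h2 : ∀ w w', P w → (Der R1 w w' ↔ Der R2 w w')) :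
    Seqs R1 ω = Seqs R2 ω := by
  ext s
  constructor
  · rintro ⟨k0, k⟩
    have : ∀ n, P (s n) := fun n => by
      induction n with
      | zero => exact k0 ▸ h0
      | succ n ih => exact h1 _ _ ih (k n)
    exact ⟨k0, fun n => (h2 _ _ (this n)).1 (k n)⟩
  · rintro ⟨k0, k⟩
    have : ∀ n, P (s n) := fun n => by
      induction n with
      | zero => exact k0 ▸ h0
      | succ n ih => exact h1 _ _ ih ((h2 _ _ ih).2 (k n))
    exact ⟨k0, fun n => (h2 _ _ (this n)).2 (k n)⟩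

lemma seqs_cons {R : ℕ → List ℕ → Prop} {a b : List ℕ} (h : Der R a b) {s : ℕ → List ℕ}
    (hs : s ∈ Seqs R b) : (fun n => Nat.casesOn n a s) ∈ Seqs R a := by
  refine ⟨rfl, fun n => ?_⟩
  cases n with
  | zero => exact (show Der R a (s 0) from hs.1.symm ▸ h)
  | succ n => exact hs.2 n

lemma seqs_ne {R1 R2 : ℕ → List ℕ → Prop} {ω a b : List ℕ} {P : List ℕ → Prop} (h0 : P b)
    (h1 : ∀ w, P w → ∃ w', Der R1 w w' ∧ P w') (hr : ReflTransGen (Der R1) ω a)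
    (hab : Der R1 a b) (hn : ¬ Der R2 a b) : Seqs R1 ω ≠ Seqs R2 ω := by
  have key : ∃ s ∈ Seqs R1 ω, ∃ k, s k = a ∧ s (k + 1) = b := by
    induction hr using ReflTransGen.head_induction_on with
    | refl =>
      choose f hf1 hf2 using h1
      let g : {w // P w} → {w // P w} := fun w => ⟨f w.1 w.2, hf2 w.1 w.2⟩
      have : (fun n => (g^[n] ⟨b, h0⟩).1) ∈ Seqs R1 b := by
        refine ⟨rfl, fun n => ?_⟩
        simp only [Function.iterate_succ_apply']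
        exact hf1 _ _
      exact ⟨_, seqs_cons hab this, 0, rfl, rfl⟩
    | head h _ ih =>
      obtain ⟨s, hs, k, k1, k2⟩ := ih
      exact ⟨_, seqs_cons h hs, k + 1, k1, k2⟩
  obtain ⟨s, hs, k, rfl, rfl⟩ := key
  intro e
  rw [e] at hs
  exact hn (hs.2 k)

/-- `u'` is obtained from `u` by choosing a type for every letter `3` -/
def Mark (M : ℕ) (u' u : List ℕ) : Prop := u'.map (fun l => min l 3) = u ∧ ∀ l ∈ u', l < M + 4

lemma mark_nil {M : ℕ} {u' : List ℕ} : Mark M u' [] ↔ u' = [] := by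
  refine ⟨fun h => map_eq_nil_iff.1 h.1, ?_⟩
  rintro rfl
  simp [Mark]

lemma mark_append {M : ℕ} {u' a r : List ℕ} :
    Mark M u' (a ++ r) ↔ ∃ a' r', Mark M a' a ∧ Mark M r' r ∧ u' = a' ++ r' := by
  constructor
  · rintro ⟨h1, h2⟩
    obtain ⟨a', r', rfl, k1, k2⟩ := map_eq_append_iff.1 h1
    rw [forall_mem_append] at h2
    exact ⟨a', r', ⟨k1, h2.1⟩, ⟨k2, h2.2⟩, rfl⟩
  · rintro ⟨a', r', ⟨rfl, h1⟩, ⟨rfl, h2⟩, rfl⟩
    exact ⟨map_append, forall_mem_append.2 ⟨h1, h2⟩⟩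

lemma mark_self {M : ℕ} {u : List ℕ} (h : ∀ l ∈ u, l = 2 ∨ l = 3) : Mark M u u := by
  refine ⟨?_, fun l hl => by rcases h l hl with h | h <;> omega⟩
  conv_rhs => rw [← map_id u]
  exact map_congr_left fun l hl => by rcases h l hl with h | h <;> simp [h]

lemma mark_rep {M j : ℕ} {u' : List ℕ} : Mark M u' (replicate j 2) ↔ u' = replicate j 2 := by
  refine ⟨fun h => ?_, ?_⟩
  · obtain ⟨h1, h2⟩ := eq_replicate_iff.1 h.1
    refine eq_replicate_iff.2 ⟨by simpa using h1, fun b hb => ?_⟩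
    have := h2 _ (mem_map_of_mem hb)
    omega
  · rintro rfl
    exact mark_self fun l hl => Or.inl (mem_replicate.1 hl).2

lemma mark_three {M : ℕ} {u' : List ℕ} : Mark M u' [3] ↔ ∃ j < M + 1, u' = [j + 3] := by
  constructor
  · rintro ⟨h1, h2⟩
    obtain ⟨l, rfl, h⟩ := map_eq_singleton_iff.1 h1
    have := h2 l (mem_singleton_self l)
    exact ⟨l - 3, by omega, by congr 1; omega⟩
  · rintro ⟨j, hj, rfl⟩
    exact ⟨by simp, by simp; omega⟩

lemma mark_finite (M : ℕ) (u : List ℕ) : {u' | Mark M u' u}.Finite := by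
  induction u with
  | nil => simp [mark_nil]
  | cons a u ih =>
    refine (Set.Finite.image2 List.cons (Set.finite_lt_nat (M + 4)) ih).subset ?_
    rintro u' ⟨h1, h2⟩
    obtain ⟨l, t, rfl, -, k⟩ := map_eq_cons_iff.1 h1
    exact ⟨l, h2 l mem_cons_self, t, ⟨k, fun x hx => h2 x (mem_cons_of_mem _ hx)⟩, rfl⟩

/-- words over the inner alphabet -/
def Good (M : ℕ) (b : List ℕ) : Prop := ∀ l ∈ b, 2 ≤ l ∧ l < M + 4

lemma Mark.good {M : ℕ} {u' u : List ℕ} (h : Mark M u' u) (hu : ∀ l ∈ u, l = 2 ∨ l = 3) :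
    Good M u' := by
  intro l hl
  have := hu (min l 3) (h.1 ▸ mem_map_of_mem hl)
  exact ⟨by omega, h.2 l hl⟩

/-- the types of the live letters -/
def live (b : List ℕ) : List ℕ := b.filterMap fun l => if 4 ≤ l then some (l - 4) else none

lemma live_lt {M : ℕ} {b : List ℕ} (h : Good M b) : ∀ o ∈ live b, o < M := by
  intro o ho
  obtain ⟨l, hl, k⟩ := mem_filterMap.1 ho
  have := h l hl
  split_ifs at k
  simp only [Option.some.injEq] at k
  omega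

lemma live_dead {b : List ℕ} (h : ∀ l ∈ b, l = 2 ∨ l = 3) : live b = [] := by
  rw [live, filterMap_eq_nil_iff]
  intro l hl
  rcases h l hl with h | h <;> simp [h]

lemma exists_mark (N M : ℕ) (w : List ℕ) (hw : ∀ o ∈ w, o < M) (k : ℕ) :
    ∃ u', Mark M u' (pw N (w.length + k)) ∧ live u' = w := by
  induction w with
  | nil => exact ⟨_, mark_self pw_letters, live_dead pw_letters⟩
  | cons o w ih =>
    obtain ⟨u', h1, h2⟩ := ih fun o ho => hw o (mem_cons_of_mem _ ho)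
    refine ⟨(replicate N 2 ++ [o + 1 + 3]) ++ u', ?_, ?_⟩
    · rw [length_cons, show w.length + 1 + k = (w.length + k) + 1 by omega, pw]
      refine mark_append.2 ⟨_, _, mark_append.2 ⟨_, _, mark_rep.2 rfl,
        mark_three.2 ⟨o + 1, ?_, rfl⟩, rfl⟩, h1, rfl⟩
      have := hw o mem_cons_self
      omega
    · have : live (replicate N 2) = [] := live_dead fun l hl => Or.inl (mem_replicate.1 hl).2
      simp only [live, filterMap_append] at this h2 ⊢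
      simp [this, h2]

namespace WA

variable {Q : Type} (A : WA Q) (M : ℕ)

/-- the rules of the OL system with start words `S` -/
def Rule (S : List ℕ → Prop) (l : ℕ) (u' : List ℕ) : Prop :=
  (l = 0 ∧ ∃ a a', S a ∧ Mark M a' a ∧ u' = 0 :: a') ∨
  (l = 1 ∧ ∃ c c', A.C c ∧ Mark M c' c ∧ u' = c' ++ [1]) ∨
  ((l = 2 ∨ l = 3) ∧ u' = []) ∨
  ∃ o < M, l = o + 4 ∧ ∃ b, A.B o b ∧ Mark M u' b

lemma der_tail (S : List ℕ → Prop) {b : List ℕ} (hb : Good M b) (w' : List ℕ) :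
    Der (A.Rule M S) (b ++ [1]) w' ↔
      ∃ r r', A.Tail (live b) r ∧ Mark M r' r ∧ w' = r' ++ [1] := by
  induction b generalizing w' with
  | nil => simp [der_cons, der_nil, Rule, live, Tail]
  | cons l b ih =>
    have hl := hb l mem_cons_self
    have hb' : Good M b := fun x hx => hb x (mem_cons_of_mem _ hx)
    rw [cons_append, der_cons]
    simp only [ih hb']
    by_cases h4 : 4 ≤ l
    · have e : live (l :: b) = (l - 4) :: live b := by simp [live, h4]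
      rw [e]
      constructor
      · rintro ⟨u, _, h1, ⟨r, r', h2, h3, rfl⟩, rfl⟩
        rcases h1 with h1 | h1 | h1 | ⟨o, -, rfl, x, h1, h5⟩
        · omega
        · omega
        · omega
        · exact ⟨x ++ r, u ++ r', ⟨x, r, by simpa using h1, h2, rfl⟩,
            mark_append.2 ⟨_, _, h5, h3, rfl⟩, by simp⟩
      · rintro ⟨_, r', ⟨x, r, h1, h2, rfl⟩, h3, rfl⟩
        obtain ⟨u, r'', h5, h6, rfl⟩ := mark_append.1 h3
        exact ⟨u, _, Or.inr (Or.inr (Or.inr ⟨l - 4, by omega, by omega, x, h1, h5⟩)),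
          ⟨r, r'', h2, h6, rfl⟩, by simp⟩
    · have e : live (l :: b) = live b := by simp [live, h4]
      rw [e]
      constructor
      · rintro ⟨u, _, h1, ⟨r, r', h2, h3, rfl⟩, rfl⟩
        rcases h1 with h1 | h1 | ⟨-, rfl⟩ | ⟨o, -, rfl, -⟩
        · omega
        · omega
        · exact ⟨r, r', h2, h3, rfl⟩
        · omega
      · rintro ⟨r, r', h2, h3, rfl⟩
        exact ⟨[], _, Or.inr (Or.inr (Or.inl ⟨by omega, rfl⟩)), ⟨r, r', h2, h3, rfl⟩, rfl⟩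

lemma der_full (S : List ℕ → Prop) {b : List ℕ} (hb : Good M b) (w' : List ℕ) :
    Der (A.Rule M S) (0 :: (b ++ [1])) w' ↔
      ∃ u u', A.Full S (live b) u ∧ Mark M u' u ∧ w' = 0 :: (u' ++ [1]) := by
  rw [der_cons]
  simp only [A.der_tail M S hb]
  constructor
  · rintro ⟨u, _, h1, ⟨r, r', h2, h3, rfl⟩, rfl⟩
    rcases h1 with ⟨-, a, a', h1, h4, rfl⟩ | h1 | h1 | ⟨o, -, h1, -⟩
    · exact ⟨a ++ r, a' ++ r', ⟨a, r, h1, h2, rfl⟩, mark_append.2 ⟨_, _, h4, h3, rfl⟩, by simp⟩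
    · omega
    · omega
    · omega
  · rintro ⟨_, u', ⟨a, r, h1, h2, rfl⟩, h3, rfl⟩
    obtain ⟨a', r', h4, h5, rfl⟩ := mark_append.1 h3
    exact ⟨_, _, Or.inl ⟨rfl, a, a', h1, h4, rfl⟩, ⟨r, r', h2, h5, rfl⟩, by simp⟩

lemma full_letters {J : Q → ℕ → Prop} {w u : List ℕ} (h : A.Full (A.S1 J) w u) :
    ∀ l ∈ u, l = 2 ∨ l = 3 := by
  obtain ⟨a, r, h1, h2, rfl⟩ := h
  exact forall_mem_append.2 ⟨A.S1_letters h1, A.tail_letters h2⟩

lemma reach (J : Q → ℕ → Prop) (w : List ℕ) (hw : ∀ o ∈ w, o < M) :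
    ∃ b, Good M b ∧ live b = w ∧
      ReflTransGen (Der (A.Rule M (A.S1 J))) [0, 1] (0 :: (b ++ [1])) := by
  induction w with
  | nil => exact ⟨[], by simp [Good], rfl, ReflTransGen.refl⟩
  | cons o w ih =>
    obtain ⟨b, h1, h2, h3⟩ := ih fun o ho => hw o (mem_cons_of_mem _ ho)
    obtain ⟨u', k1, k2⟩ := exists_mark A.N M (o :: w) hw w.length
    refine ⟨u', k1.good pw_letters, k2, h3.tail ((A.der_full M _ h1 _).2 ⟨_, u', ?_, k1, rfl⟩)⟩
    rw [h2, show (o :: w).length + w.length = 2 * w.length + 1 by rw [length_cons]; omega]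
    exact ⟨[], _, Or.inl (Or.inl rfl), A.tail_pw w, rfl⟩

theorem seqs_eq_iff (J : Q → ℕ → Prop) :
    Seqs (A.Rule M (A.S1 J)) [0, 1] = Seqs (A.Rule M (A.S2 J)) [0, 1] ↔
      ∀ w : List ℕ, (∀ o ∈ w, o < M) → ∃ q z, J q z ∧ Acc A.δ A.F q w z := by
  constructor
  · intro e w hw
    by_contra hn
    obtain ⟨b, h1, rfl, h3⟩ := A.reach M J w hw
    refine seqs_ne (P := fun w => ∃ b, Good M b ∧ w = 0 :: (b ++ [1]))
      ⟨_, (mark_self pw_letters).good pw_letters, rfl⟩ ?_ h3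
      ((A.der_full M _ h1 _).2 ⟨_, _, A.full_one J _, mark_self pw_letters, rfl⟩) ?_ e
    · rintro _ ⟨b, hb, rfl⟩
      exact ⟨_, (A.der_full M _ hb _).2 ⟨_, _, A.full_one J _, mark_self pw_letters, rfl⟩,
        _, (mark_self pw_letters).good pw_letters, rfl⟩
    · rw [A.der_full M _ h1]
      rintro ⟨u, u', k1, k2, k3⟩
      obtain rfl : pw A.N (2 * (live b).length + 1 + 1) = u' := by simpa using k3
      obtain rfl : pw A.N (2 * (live b).length + 1 + 1) = u :=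
        (mark_self (M := M) pw_letters).1.symm.trans k2.1
      exact hn (A.full_two k1)
  · intro h
    refine seqs_eq (P := fun w => ∃ b, Good M b ∧ w = 0 :: (b ++ [1]))
      ⟨[], by simp [Good], rfl⟩ ?_ ?_
    · rintro _ w' ⟨b, hb, rfl⟩ k
      obtain ⟨u, u', k1, k2, rfl⟩ := (A.der_full M _ hb _).1 k
      exact ⟨u', k2.good (A.full_letters k1), rfl⟩
    · rintro _ w' ⟨b, hb, rfl⟩
      simp only [A.der_full M _ hb, A.full_iff (h _ (live_lt hb))]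

lemma rule_total (S : List ℕ → Prop) (hS : S []) (l : ℕ) (hl : l < M + 4) :
    ∃ u, A.Rule M S l u := by
  by_cases h4 : 4 ≤ l
  · exact ⟨_, Or.inr (Or.inr (Or.inr ⟨l - 4, by omega, by omega, _, Or.inr (Or.inr rfl),
      mark_self pw_letters⟩))⟩
  · have : l = 0 ∨ l = 1 ∨ (l = 2 ∨ l = 3) := by omega
    rcases this with h | h | h
    · exact ⟨_, Or.inl ⟨h, [], [], hS, mark_nil.2 rfl, rfl⟩⟩
    · exact ⟨_, Or.inr (Or.inl ⟨h, _, _, Or.inr (Or.inr rfl), mark_self A.blk_letters, rfl⟩)⟩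
    · exact ⟨_, Or.inr (Or.inr (Or.inl ⟨h, rfl⟩))⟩

lemma rule_letters {S : List ℕ → Prop} {l : ℕ} {u : List ℕ} (h : A.Rule M S l u) :
    ∀ x ∈ u, x < M + 4 := by
  rcases h with ⟨-, a, a', -, h, rfl⟩ | ⟨-, c, c', -, h, rfl⟩ | ⟨-, rfl⟩ | ⟨o, -, -, b, -, h⟩
  · exact forall_mem_cons.2 ⟨by omega, h.2⟩
  · exact forall_mem_append.2 ⟨h.2, by simp⟩
  · simp
  · exact h.2

lemma rule_finite [Finite Q] (hδ : ∀ q o t q', A.δ q o t q' → t ≤ 2) {S : List ℕ → Prop}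
    (hS : {u | S u}.Finite) : {p : ℕ × List ℕ | A.Rule M S p.1 p.2}.Finite := by
  have hm : ∀ T : Set (List ℕ), T.Finite → {u' | ∃ u ∈ T, Mark M u' u}.Finite := by
    intro T hT
    refine (hT.biUnion fun u _ => mark_finite M u).subset ?_
    rintro u' ⟨u, h1, h2⟩
    exact Set.mem_biUnion h1 h2
  have hC0 : {u | A.C0 u}.Finite := (Set.finite_range A.be).subset (by
    rintro _ ⟨q, -, rfl⟩; exact ⟨q, rfl⟩)
  have hC : {u | A.C u}.Finite :=
    (hC0.union ((hC0.image (blk A.N ++ ·)).union (Set.finite_singleton (blk A.N)))).subset (by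
      rintro u (h | ⟨u0, h, rfl⟩ | rfl)
      exacts [Or.inl h, Or.inr (Or.inl ⟨u0, h, rfl⟩), Or.inr (Or.inr rfl)])
  have hU : {u | ∃ o, A.U0 o u}.Finite :=
    (Set.finite_range fun x : Q × Fin 3 × Q => A.be x.1 ++ (pw A.N x.2.1 ++ A.al x.2.2)).subset (by
      rintro _ ⟨o, q, t, q', h, rfl⟩
      exact ⟨(q, ⟨t, Nat.lt_succ_of_le (hδ _ _ _ _ h)⟩, q'), rfl⟩)
  have hB : {u | ∃ o, A.B o u}.Finite :=
    (hU.union ((hU.image (blk A.N ++ ·)).union (Set.finite_singleton (pw A.N 2)))).subset (by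
      rintro u ⟨o, h | ⟨u0, h, rfl⟩ | rfl⟩
      exacts [Or.inl ⟨o, h⟩, Or.inr (Or.inl ⟨u0, ⟨o, h⟩, rfl⟩), Or.inr (Or.inr rfl)])
  refine ((Set.finite_lt_nat (M + 4)).prod (((hm _ hS).image (0 :: ·)).union
    (((hm _ hC).image (· ++ [1])).union ((hm _ hB).insert [])))).subset ?_
  rintro ⟨l, u⟩ h
  rcases h with ⟨h0, a, a', h1, h, rfl⟩ | ⟨h0, c, c', h1, h, rfl⟩ | ⟨h0, rfl⟩ |
    ⟨o, ho, h0, b, h1, h⟩
  · exact ⟨by simp only [Set.mem_ofPred_eq] at h0 ⊢; omega, Or.inl ⟨a', ⟨a, h1, h⟩, rfl⟩⟩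
  · exact ⟨by simp only [Set.mem_ofPred_eq] at h0 ⊢; omega,
      Or.inr (Or.inl ⟨c', ⟨c, h1, h⟩, rfl⟩)⟩
  · exact ⟨by simp only [Set.mem_ofPred_eq] at h0 ⊢; omega, Or.inr (Or.inr (Or.inl rfl))⟩
  · exact ⟨by simp only [Set.mem_ofPred_eq] at h0 ⊢; omega,
      Or.inr (Or.inr (Or.inr ⟨b, ⟨o, h1⟩, h⟩))⟩

end WA

/-- all markings of a power of the block -/
def marks (N M : ℕ) (k : ℕ) : List (List ℕ) :=
  Nat.rec [[]] (fun _ l => l.flatMap fun u => (range (M + 1)).map fun j =>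
    replicate N 2 ++ (j + 3) :: u) k

lemma mem_marks {N M k : ℕ} {u' : List ℕ} : u' ∈ marks N M k ↔ Mark M u' (pw N k) := by
  induction k generalizing u' with
  | zero => simp [marks, pw, mark_nil]
  | succ k ih =>
    have : marks N M (k + 1) = (marks N M k).flatMap fun u => (range (M + 1)).map fun j =>
      replicate N 2 ++ (j + 3) :: u := rfl
    simp only [this, mem_flatMap, mem_map, mem_range, ih, pw, blk, mark_append, mark_rep,
      mark_three]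
    constructor
    · rintro ⟨u, h1, j, h2, rfl⟩
      exact ⟨_, u, ⟨_, _, rfl, ⟨j, h2, rfl⟩, rfl⟩, h1, by simp⟩
    · rintro ⟨_, u, ⟨_, _, rfl, ⟨j, h2, rfl⟩, rfl⟩, h1, rfl⟩
      exact ⟨u, h1, j, h2, by simp⟩

lemma primrec_marks (N M : ℕ) : Primrec (marks N M) := by
  refine Primrec.nat_rec₁ _ (Primrec.list_flatMap Primrec.snd
    (Primrec.list_map (Primrec.const _) ?_))
  exact Primrec.list_append.comp (Primrec.const _) (Primrec.list_cons.comp
    (Primrec.nat_add.comp Primrec.snd (Primrec.const 3)) (Primrec.snd.comp Primrec.fst))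

/-- start rules for one initial configuration -/
def startRules (N M : ℕ) (x : List ℕ) (z : ℕ) : List (ℕ × List ℕ) :=
  (marks N M (z + 1)).map fun u => (0, 0 :: (u ++ x))

lemma primrec_startRules (N M : ℕ) (x : List ℕ) : Primrec (startRules N M x) :=
  Primrec.list_map ((primrec_marks N M).comp Primrec.succ) ((Primrec.const 0).pair
    (Primrec.list_cons.comp (Primrec.const 0)
      (Primrec.list_append.comp Primrec.snd (Primrec.const x))))

lemma mem_startRules {N M j z l : ℕ} {u : List ℕ} : (l, u) ∈ startRules N M (replicate j 2) z ↔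
    l = 0 ∧ ∃ a', Mark M a' (pw N (z + 1) ++ replicate j 2) ∧ u = 0 :: a' := by
  simp only [startRules, mem_map, mem_marks, mark_append, mark_rep, Prod.mk.injEq]
  constructor
  · rintro ⟨a, h, rfl, rfl⟩
    exact ⟨rfl, _, ⟨a, _, h, rfl, rfl⟩, rfl⟩
  · rintro ⟨rfl, _, ⟨a, _, h, rfl, rfl⟩, rfl⟩
    exact ⟨a, h, rfl, rfl⟩

theorem exists_reduction : ∃ (R₁ R₂ : ℕ → List (ℕ × List ℕ)), Primrec R₁ ∧ Primrec R₂ ∧
    (∀ n a, (a ∈ [0, 1] ∨ ∃ p ∈ R₁ n, a ∈ p.2) → ∃ w, (a, w) ∈ R₁ n) ∧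
    (∀ n a, (a ∈ [0, 1] ∨ ∃ p ∈ R₂ n, a ∈ p.2) → ∃ w, (a, w) ∈ R₂ n) ∧
    ¬ ComputablePred fun n => ¬ (Seqs (fun a w => (a, w) ∈ R₁ n) [0, 1] =
      Seqs (fun a w => (a, w) ∈ R₂ n) [0, 1]) := by
  obtain ⟨Q, _, δ, F, M, I, qA, qB, -, hδ, hc⟩ := exists_automaton
  obtain ⟨N, ⟨e⟩⟩ := Finite.exists_equiv_fin Q
  let A : WA Q := ⟨δ, F, N, fun q => e q + 1, fun q q' h => e.injective (Fin.ext (by simpa using h)),
    fun q => Nat.succ_pos _, fun q => (e q).2⟩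
  let J0 : Q → ℕ → Prop := fun q z => I q ∧ z = 0
  let J : ℕ → Q → ℕ → Prop := fun n q z => J0 q z ∨ (q = qA ∧ z = n) ∨ (q = qB ∧ z < n)
  have hS2 : {u | A.S2 J0 u}.Finite :=
    (((Set.finite_range fun q => pw N 1 ++ A.al q).insert (pw N 2)).insert []).subset (by
      rintro u (rfl | rfl | ⟨q, z, ⟨-, rfl⟩, rfl⟩)
      exacts [Or.inl rfl, Or.inr (Or.inl rfl), Or.inr (Or.inr ⟨q, rfl⟩)])
  have hS1 : {u | A.S1 J0 u}.Finite := hS2.union (Set.finite_singleton (blk N))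
  let ext : ℕ → List (ℕ × List ℕ) := fun n =>
    startRules N M (A.al qA) n ++ (range n).flatMap (startRules N M (A.al qB))
  have hext : Primrec ext := Primrec.list_append.comp (primrec_startRules _ _ _)
    (Primrec.list_flatMap Primrec.list_range ((primrec_startRules _ _ _).comp Primrec.snd))
  have key : ∀ (S0 : List ℕ → Prop) (hS : {u | S0 u}.Finite), ∃ R : ℕ → List (ℕ × List ℕ),
      Primrec R ∧ ∀ n, (fun a w => (a, w) ∈ R n) = A.Rule M fun u => S0 u ∨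
        u = pw N (n + 1) ++ A.al qA ∨ ∃ z < n, u = pw N (z + 1) ++ A.al qB := by
    intro S0 hS
    refine ⟨fun n => (A.rule_finite M hδ hS).toFinset.toList ++ ext n,
      Primrec.list_append.comp (Primrec.const _) hext, fun n => ?_⟩
    funext l u
    simp only [ext, mem_append, Finset.mem_toList, Set.Finite.mem_toFinset, Set.mem_ofPred_eq,
      mem_flatMap, mem_range, WA.al, mem_startRules, WA.Rule, eq_iff_iff]
    constructor
    · rintro ((⟨h0, a, a', h1, h2⟩ | h) | ⟨h0, a', h⟩ | ⟨z, hz, h0, a', h⟩)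
      · exact Or.inl ⟨h0, a, a', Or.inl h1, h2⟩
      · exact Or.inr h
      · exact Or.inl ⟨h0, _, a', Or.inr (Or.inl rfl), h⟩
      · exact Or.inl ⟨h0, _, a', Or.inr (Or.inr ⟨z, hz, rfl⟩), h⟩
    · rintro (⟨h0, a, a', h1 | rfl | ⟨z, hz, rfl⟩, h2⟩ | h)
      · exact Or.inl (Or.inl ⟨h0, a, a', h1, h2⟩)
      · exact Or.inr (Or.inl ⟨h0, a', h2⟩)
      · exact Or.inr (Or.inr ⟨z, hz, h0, a', h2⟩)
      · exact Or.inl (Or.inr h)
  have e2 : ∀ n, (fun u => A.S2 J0 u ∨ u = pw N (n + 1) ++ A.al qA ∨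
      ∃ z < n, u = pw N (z + 1) ++ A.al qB) = A.S2 (J n) := by
    intro n
    funext u
    apply propext
    constructor
    · rintro ((h | h | ⟨q, z, h, h'⟩) | h | ⟨z, hz, h⟩)
      exacts [Or.inl h, Or.inr (Or.inl h), Or.inr (Or.inr ⟨q, z, Or.inl h, h'⟩),
        Or.inr (Or.inr ⟨_, _, Or.inr (Or.inl ⟨rfl, rfl⟩), h⟩),
        Or.inr (Or.inr ⟨_, _, Or.inr (Or.inr ⟨rfl, hz⟩), h⟩)]
    · rintro (h | h | ⟨q, z, h | ⟨rfl, rfl⟩ | ⟨rfl, hz⟩, h'⟩)
      exacts [Or.inl (Or.inl h), Or.inl (Or.inr (Or.inl h)),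
        Or.inl (Or.inr (Or.inr ⟨q, z, h, h'⟩)), Or.inr (Or.inl h'), Or.inr (Or.inr ⟨z, hz, h'⟩)]
  have e1 : ∀ n, (fun u => A.S1 J0 u ∨ u = pw N (n + 1) ++ A.al qA ∨
      ∃ z < n, u = pw N (z + 1) ++ A.al qB) = A.S1 (J n) := by
    intro n
    funext u
    rw [WA.S1, WA.S1, ← e2 n]
    exact propext or_right_comm
  obtain ⟨R₁, p1, h1⟩ := key _ hS1
  obtain ⟨R₂, p2, h2⟩ := key _ hS2
  simp only [e1] at h1
  simp only [e2] at h2
  have tot : ∀ (R : List (ℕ × List ℕ)) (S : List ℕ → Prop), S [] →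
      (fun a w => (a, w) ∈ R) = A.Rule M S →
      ∀ a, (a ∈ [0, 1] ∨ ∃ p ∈ R, a ∈ p.2) → ∃ w, (a, w) ∈ R := by
    intro R S hS h a ha
    have h' : ∀ a w, (a, w) ∈ R ↔ A.Rule M S a w := fun a w => by rw [← h]
    simp only [h']
    refine A.rule_total M S hS a ?_
    rcases ha with ha | ⟨p, hp, ha⟩
    · simp only [mem_cons, not_mem_nil, or_false] at ha
      omega
    · exact A.rule_letters M ((h' p.1 p.2).1 hp) a ha
  refine ⟨R₁, R₂, p1, p2, fun n => tot _ _ (Or.inl (Or.inl rfl)) (h1 n),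
    fun n => tot _ _ (Or.inl rfl) (h2 n), ?_⟩
  convert hc using 3 with n
  rw [h1, h2, A.seqs_eq_iff]
  simp only [not_forall, exists_prop]
  refine exists_congr fun w => and_congr_right fun _ => not_congr ⟨?_, ?_⟩
  · rintro ⟨q, z, ⟨h, rfl⟩ | ⟨rfl, rfl⟩ | ⟨rfl, hz⟩, k⟩
    exacts [Or.inl ⟨q, h, k⟩, Or.inr (Or.inl k), Or.inr (Or.inr ⟨z, hz, k⟩)]
  · rintro (⟨q, h, k⟩ | k | ⟨z, hz, k⟩)
    exacts [⟨q, 0, Or.inl ⟨h, rfl⟩, k⟩, ⟨_, _, Or.inr (Or.inl ⟨rfl, rfl⟩), k⟩,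
      ⟨_, _, Or.inr (Or.inr ⟨rfl, hz⟩), k⟩]

end Pool.Agent.MP_dd548e_lc
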