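import Mathlib

/-! Prefix codes, linearisation in groups, polynomial certificates. -/

set_option autoImplicit false

namespace Pool.Agent.MP_dd548e_lc.Pre

abbrev W : Type := List ℕ

/-! ### Finite prefix codes factor uniquely -/

/-- finite nonempty prefix codes -/
def PC (X : Language ℕ) : Prop :=
  Set.Finite X ∧ (∃ x, x ∈ X) ∧ ∀ x ∈ X, ∀ t, x ++ t ∈ X → t = []

/-- the greatest length of a word -/
noncomputable def ml (X : Language ℕ) : ℕ := sSup (List.length '' X)

theorem PC.le {X : Language ℕ} (h : PC X) {x : W} (hx : x ∈ X) : x.length ≤ ml X :=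
  le_csSup (h.1.image _).bddAbove ⟨x, hx, rfl⟩

theorem PC.ex {X : Language ℕ} (h : PC X) : ∃ x ∈ X, x.length = ml X :=
  Nat.sSup_mem (s := List.length '' X) (h.2.1.elim fun x hx => ⟨_, x, hx, rfl⟩)
    (h.1.image _).bddAbove

theorem PC.key {X Y : Language ℕ} (h : PC X) {x z : W} (hx : x ∈ X) (hz : x ++ z ∈ X * Y) :
    z ∈ Y := by
  obtain ⟨x', a, y, b, e⟩ := Language.mem_mul.1 hz
  rcases List.append_eq_append_iff.1 e with ⟨t, rfl, rfl⟩ | ⟨t, rfl, rfl⟩
  · rwa [h.2.2 _ a t hx] at b
  · rwa [h.2.2 _ hx t a]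

theorem PC.one : PC 1 :=
  ⟨Set.finite_singleton _, ⟨[], rfl⟩, fun _ _ _ h => (List.append_eq_nil_iff.1 h).2⟩

theorem PC.mul {X Y : Language ℕ} (h : PC X) (h' : PC Y) : PC (X * Y) := by
  obtain ⟨x, hx⟩ := h.2.1
  obtain ⟨y, hy⟩ := h'.2.1
  refine ⟨h.1.image2 _ h'.1, ⟨_, Language.append_mem_mul hx hy⟩, fun w hw t ht => ?_⟩
  obtain ⟨x, a, y, b, rfl⟩ := Language.mem_mul.1 hw
  rw [List.append_assoc] at ht
  exact h'.2.2 y b t (h.key a ht)

theorem PC.prod {L : List (Language ℕ)} (h : ∀ A ∈ L, PC A) : PC L.prod := by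
  induction L with
  | nil => exact PC.one
  | cons A L ih => exact (h A (by simp)).mul (ih fun B hB => h B (by simp [hB]))

theorem keyK {X X' Y Y' : Language ℕ} (h : PC X) (hY : PC Y) (hY' : PC Y') (e : X * Y = X' * Y')
    (hl : ml Y ≤ ml Y') {x t : W} (hx : x ∈ X) (ht : x ++ t ∈ X') : t = [] := by
  obtain ⟨y, a, b⟩ := hY'.ex
  have c := Language.append_mem_mul ht a
  rw [← e, List.append_assoc] at c
  have d := hY.le (h.key hx c)
  rw [List.length_append] at d
  exact List.length_eq_zero_iff.1 (by omega)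

theorem compar {X X' Y Y' : Language ℕ} (h : PC X) (hY : PC Y) (hY' : PC Y') (e : X * Y = X' * Y')
    (hl : ml Y ≤ ml Y') {x : W} (hx : x ∈ X) : ∃ x' ∈ X', ∃ z, x = x' ++ z := by
  obtain ⟨y, hy⟩ := hY.2.1
  obtain ⟨x', a, y', b, c⟩ := Language.mem_mul.1 (e ▸ Language.append_mem_mul hx hy)
  rcases List.append_eq_append_iff.1 c with ⟨t, rfl, -⟩ | ⟨t, rfl, -⟩
  · exact ⟨x', a, t, rfl⟩
  · exact ⟨_, a, [], by simp [keyK h hY hY' e hl hx a]⟩

theorem equi {X X' Y Y' : Language ℕ} (h : PC X) (h' : PC X') (hY : PC Y) (hY' : PC Y')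
    (e : X * Y = X' * Y') (hl : ml Y ≤ ml Y') : ∃ Z, PC Z ∧ X = X' * Z := by
  let Z : W → Language ℕ := fun x' => {z | x' ++ z ∈ X}
  have z1 : ∀ x' ∈ X', Z x' * Y = Y' := fun x' hx' => by
    ext y'
    constructor
    · intro a0
      obtain ⟨z, a, y, b, rfl⟩ := Language.mem_mul.1 a0
      have c := Language.append_mem_mul (show x' ++ z ∈ X from a) b
      rw [e, List.append_assoc] at c
      exact h'.key hx' c
    · intro a0
      obtain ⟨x, a, y, b, c⟩ := Language.mem_mul.1 (e ▸ Language.append_mem_mul hx' a0)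
      rcases List.append_eq_append_iff.1 c with ⟨t, rfl, rfl⟩ | ⟨t, rfl, rfl⟩
      · obtain rfl := keyK h hY hY' e hl a hx'
        exact Language.append_mem_mul (a := []) (show x ++ [] ++ [] ∈ X by simpa using a) b
      · exact Language.append_mem_mul (a := t) a b
  have z2 : ∀ x' ∈ X', PC (Z x') := fun x' hx' => by
    refine ⟨h.1.preimage (List.append_right_injective x').injOn, ?_, fun z a t b => ?_⟩
    · obtain ⟨y', a⟩ := hY'.2.1
      obtain ⟨z, a, -⟩ := Language.mem_mul.1 (z1 x' hx' ▸ a)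
      exact ⟨z, a⟩
    · exact h.2.2 _ a t (by rw [List.append_assoc]; exact b)
  have z3 : ∀ a ∈ X', ∀ b ∈ X', ∀ z ∈ Z a, z ∈ Z b := fun a ha b hb z hz => by
    have e' := (z1 a ha).trans (z1 b hb).symm
    obtain ⟨z', c, t, rfl⟩ := compar (z2 a ha) hY hY e' le_rfl hz
    rwa [keyK (z2 b hb) hY hY e'.symm le_rfl c hz, List.append_nil]
  obtain ⟨x0, h0⟩ := h'.2.1
  refine ⟨Z x0, z2 x0 h0, Language.ext fun x => ⟨fun hx => ?_, fun hx => ?_⟩⟩
  · obtain ⟨x', a, z, rfl⟩ := compar h hY hY' e hl hx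
    exact Language.append_mem_mul a (z3 x' a x0 h0 z hx)
  · obtain ⟨x', a, z, b, rfl⟩ := Language.mem_mul.1 hx
    exact z3 x0 h0 x' a z b

/-- atoms of the monoid of prefix codes -/
def At (X : Language ℕ) : Prop := PC X ∧ X ≠ 1 ∧ ∀ Y Z, PC Y → PC Z → X = Y * Z → Y = 1 ∨ Z = 1

theorem PC.eq_one {X : Language ℕ} (h : PC X) (h0 : [] ∈ X) : X = 1 :=
  Language.ext fun x => ⟨fun hx => h.2.2 [] h0 x hx, fun hx => (Language.mem_one x).1 hx ▸ h0⟩

theorem exists_fac (n : ℕ) : ∀ X, PC X → ml X = n →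
    ∃ L : List (Language ℕ), (∀ A ∈ L, At A) ∧ L.prod = X := by
  induction n using Nat.strong_induction_on with | _ n ih => ?_
  intro X h hn
  by_cases h1 : X = 1
  · exact ⟨[], by simp, h1.symm⟩
  by_cases h2 : At X
  · exact ⟨[X], by simpa using h2, by simp⟩
  simp only [At, h, h1, ne_eq, not_false_eq_true, true_and, not_forall, not_or] at h2
  obtain ⟨Y, Z, hY, hZ, rfl, a, b⟩ := h2
  obtain ⟨y, y1, y2⟩ := hY.ex
  obtain ⟨z, z1, z2⟩ := hZ.ex
  have c := h.le (Language.append_mem_mul y1 z1)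
  have y3 : y.length ≠ 0 := fun e => a (hY.eq_one (List.length_eq_zero_iff.1 e ▸ y1))
  have z3 : z.length ≠ 0 := fun e => b (hZ.eq_one (List.length_eq_zero_iff.1 e ▸ z1))
  rw [List.length_append] at c
  obtain ⟨L, l1, rfl⟩ := ih _ (by omega) Y hY rfl
  obtain ⟨L', l2, rfl⟩ := ih _ (by omega) Z hZ rfl
  exact ⟨L ++ L', fun A hA => (List.mem_append.1 hA).elim (l1 A) (l2 A), List.prod_append⟩

theorem uniq_fac : ∀ L L' : List (Language ℕ), (∀ A ∈ L, At A) → (∀ A ∈ L', At A) →
    L.prod = L'.prod → L = L' := by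
  have k : ∀ (A : Language ℕ) (L : List (Language ℕ)), At A → (A :: L).prod ≠ 1 := fun A L h e => by
    obtain ⟨x, a, y, -, c⟩ := Language.mem_mul.1 (show [] ∈ A * L.prod from e.ge Language.nil_mem_one)
    exact h.2.1 (h.1.eq_one ((List.append_eq_nil_iff.1 c).1 ▸ a))
  intro L
  induction L with
  | nil =>
    rintro (_ | ⟨B, L'⟩) - h e
    · rfl
    · exact absurd e.symm (k B L' (h B (by simp)))
  | cons A L ih =>
    rintro (_ | ⟨B, L'⟩) h h' e
    · exact absurd e (k A L (h A (by simp)))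
    have a := h A (by simp)
    have b := h' B (by simp)
    have p : PC L.prod := PC.prod fun C hC => (h C (by simp [hC])).1
    have p' : PC L'.prod := PC.prod fun C hC => (h' C (by simp [hC])).1
    rw [List.prod_cons, List.prod_cons] at e
    obtain rfl : A = B := by
      rcases le_total (ml L.prod) (ml L'.prod) with c | c
      · obtain ⟨Z, z1, z2⟩ := equi a.1 b.1 p p' e c
        rw [z2, (a.2.2 _ _ b.1 z1 z2).resolve_left b.2.1, mul_one]
      · obtain ⟨Z, z1, z2⟩ := equi b.1 a.1 p' p e.symm c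
        rw [z2, (b.2.2 _ _ a.1 z1 z2).resolve_left a.2.1, mul_one]
    obtain ⟨x, hx⟩ := a.1.2.1
    rw [ih L' (fun C hC => h C (by simp [hC])) (fun C hC => h' C (by simp [hC]))
      (Language.ext fun y => ⟨fun c => a.1.key hx (e ▸ Language.append_mem_mul hx c),
        fun c => a.1.key hx (e ▸ Language.append_mem_mul hx c)⟩)]

/-! ### Linearisation -/

theorem lin {G ι : Type} [Group G] (f g : ι → G × G) : ∀ (L : List ι) (d : G),
    d * (L.map f).prod.1 = (L.map f).prod.2 →
    (∀ L1 x L2, L = L1 ++ x :: L2 → d * ((L1.map f).prod * (g x * (L2.map f).prod)).1 =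
      ((L1.map f).prod * (g x * (L2.map f).prod)).2) → d * (L.map g).prod.1 = (L.map g).prod.2
  | [], _, h, _ => h
  | x :: L, d, h0, h1 => by
    have a := h1 [] x L rfl
    have b := lin f g L ((f x).2⁻¹ * d * (f x).1) (by
      rw [mul_assoc, mul_assoc, inv_mul_eq_iff_eq_mul]
      simpa using h0) fun L1 y L2 e => by
        rw [mul_assoc, mul_assoc, inv_mul_eq_iff_eq_mul]
        simpa [mul_assoc] using h1 (x :: L1) y L2 (by simp [e])
    simp only [List.map_cons, List.prod_cons, Prod.fst_mul, Prod.snd_mul, List.map_nil,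
      List.prod_nil, one_mul] at a h0 ⊢
    rw [← b, ← mul_assoc, eq_mul_inv_of_mul_eq ((mul_assoc _ _ _).trans a),
      eq_inv_mul_of_mul_eq h0.symm]
    group

/-! ### Affine maps -/

/-- affine maps of the rational line -/
@[ext] structure Af : Type where
  v : ℚ
  s : ℚˣ

instance : Mul Af := ⟨fun g h => ⟨g.v + g.s * h.v, g.s * h.s⟩⟩
instance : One Af := ⟨⟨0, 1⟩⟩
instance : Inv Af := ⟨fun g => ⟨-((g.s⁻¹ : ℚˣ) * g.v), g.s⁻¹⟩⟩

theorem mul_v (g h : Af) : (g * h).v = g.v + g.s * h.v := rfl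
theorem mul_s (g h : Af) : (g * h).s = g.s * h.s := rfl
theorem one_v : (1 : Af).v = 0 := rfl
theorem one_s : (1 : Af).s = 1 := rfl

instance : Group Af :=
  Group.ofLeftAxioms
    (fun a b c => Af.ext (by simp only [mul_v, mul_s, Units.val_mul]; ring) (mul_assoc _ _ _))
    (fun a => Af.ext (by simp [mul_v, one_v, one_s]) (one_mul _))
    (fun a => Af.ext (neg_add_cancel _) (inv_mul_cancel _))

/-- free generators -/
def af (g : ℕ) : Af := ⟨2 ^ g, Units.mk0 (2 ^ (g + 1)) (by positivity)⟩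

theorem af_v (w : W) : (w.map af).prod.v = (w.foldr (fun g x => 2 ^ g * (2 * x + 1)) 0 : ℕ) := by
  induction w with
  | nil => rfl
  | cons g w ih =>
    rw [List.map_cons, List.prod_cons, mul_v, ih, List.foldr_cons]
    simp only [af, Units.val_mk0]
    push_cast
    ring

theorem af_inj : ∀ u w : W, (u.map af).prod = (w.map af).prod → u = w := by
  have k : ∀ a b x y : ℕ, a ≤ b → 2 ^ a * (2 * x + 1) = 2 ^ b * (2 * y + 1) → a = b ∧ x = y := by
    intro a b x y h e
    obtain ⟨c, rfl⟩ := Nat.exists_eq_add_of_le h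
    rw [pow_add, mul_assoc, mul_right_inj' (by positivity)] at e
    rcases c with _ | c
    · omega
    · rw [pow_succ', mul_assoc] at e
      omega
  have key : ∀ u w : W, u.foldr (fun g x => 2 ^ g * (2 * x + 1)) 0 =
      w.foldr (fun g x => 2 ^ g * (2 * x + 1)) 0 → u = w := by
    intro u
    induction u with
    | nil =>
      rintro (_ | ⟨b, w⟩) e
      · rfl
      · exact absurd e (ne_of_lt (by rw [List.foldr_cons]; positivity))
    | cons a u ih =>
      rintro (_ | ⟨b, w⟩) e
      · exact absurd e (ne_of_gt (by rw [List.foldr_cons]; positivity))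
      · rcases le_total a b with c | c
        · rw [(k _ _ _ _ c e).1, ih w (k _ _ _ _ c e).2]
        · rw [(k _ _ _ _ c e.symm).1, ih w (k _ _ _ _ c e.symm).2.symm]
  intro u w e
  have := congrArg Af.v e
  rw [af_v, af_v] at this
  exact key u w (by exact_mod_cast this)

/-! ### Polynomials as lists of monomials -/

/-- product of lists of words -/
def lm (X Y : List W) : List W := X.flatMap fun u => Y.map fun v => u ++ v

/-- evaluation -/
def ev {R : Type} [CommRing R] (c : ℕ → R) (P : List W) : R := (P.map fun m => (m.map c).prod).sum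

section
variable {R S : Type} [CommRing R] [CommRing S] (c : ℕ → R)

theorem ev_cons (m : W) (P : List W) : ev c (m :: P) = (m.map c).prod + ev c P := by simp [ev]

theorem ev_append (P Q : List W) : ev c (P ++ Q) = ev c P + ev c Q := by simp [ev]

theorem ev_map (u : W) (Q : List W) : ev c (Q.map fun v => u ++ v) = (u.map c).prod * ev c Q := by
  simp [ev, ← List.sum_map_mul_left, Function.comp_def]

theorem ev_lm (P Q : List W) : ev c (lm P Q) = ev c P * ev c Q := by
  induction P with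
  | nil => simp [lm, ev]
  | cons m P ih =>
    rw [lm, List.flatMap_cons, ev_append, ev_map, ← lm, ih, ev_cons, add_mul]

theorem ev_flat {ι : Type} (L : List ι) (f : ι → List W) :
    ev c (L.flatMap f) = (L.map fun x => ev c (f x)).sum := by
  induction L with
  | nil => rfl
  | cons x L ih => rw [List.flatMap_cons, ev_append, ih, List.map_cons, List.sum_cons]

theorem map_ev (ρ : R →+* S) (P : List W) : ρ (ev c P) = ev (fun i => ρ (c i)) P := by
  simp [ev, map_list_sum, map_list_prod, Function.comp_def]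

theorem ev_congr {c' : ℕ → R} {P : List W} (h : ∀ m ∈ P, ∀ i ∈ m, c i = c' i) :
    ev c P = ev c' P :=
  congrArg List.sum (List.map_congr_left fun m hm =>
    congrArg List.prod (List.map_congr_left (h m hm)))

end

/-- the two lists have the same monomials -/
def Same (P Q : List W) : Prop :=
  ∀ m ∈ P ++ Q, P.countP (fun x => m.Perm x) = Q.countP fun x => m.Perm x

theorem Same.ev {R : Type} [CommRing R] (c : ℕ → R) {P Q : List W} (h : Same P Q) :
    ev c P = ev c Q := by
  have k : ∀ (P : List W) (m : W), (P.map Multiset.ofList).count (m : Multiset ℕ) =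
      P.countP fun x => m.Perm x := fun P m => by
    rw [List.count, List.countP_map]
    exact List.countP_congr fun x _ => by simp [List.perm_comm]
  have p : (P.map Multiset.ofList).Perm (Q.map Multiset.ofList) := by
    refine List.perm_iff_count.2 fun d => ?_
    by_cases hd : d ∈ (P ++ Q).map Multiset.ofList
    · obtain ⟨m, hm, rfl⟩ := List.mem_map.1 hd
      rw [k, k, h m hm]
    · rw [List.map_append, List.mem_append, not_or] at hd
      rw [List.count_eq_zero.2 hd.1, List.count_eq_zero.2 hd.2]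
  simpa [Pre.ev, Function.comp_def] using (p.map fun d => (d.map c).prod).sum_eq

open MvPolynomial in
theorem same_of_ev {P Q : List W} (h : ev (X : ℕ → MvPolynomial ℕ ℤ) P = ev X Q) : Same P Q := by
  have k1 : ∀ m : W, (m.map (X : ℕ → MvPolynomial ℕ ℤ)).prod =
      monomial (Multiset.toFinsupp (m : Multiset ℕ)) 1 := fun m => by
    induction m with
    | nil => simp
    | cons i m ih =>
      rw [List.map_cons, List.prod_cons, ih, X, monomial_mul, ← Multiset.cons_coe,
        ← Multiset.singleton_add, map_add, Multiset.toFinsupp_singleton, one_mul]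
  have k2 : ∀ (m : W) (P : List W), coeff (Multiset.toFinsupp (m : Multiset ℕ))
      (ev (X : ℕ → MvPolynomial ℕ ℤ) P) = (P.countP (fun x => m.Perm x) : ℕ) := fun m P => by
    induction P with
    | nil => simp [ev]
    | cons x P ih =>
      rw [ev_cons, coeff_add, ih, k1, coeff_monomial, List.countP_cons]
      simp [List.perm_comm, add_comm]
  intro m _
  have := k2 m P
  rw [h, k2] at this
  exact_mod_cast this.symm

/-- the equation `e` follows from the equations `A` by the multipliers `c` -/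
def Fol (A : List (List W × List W)) (e : List W × List W)
    (c : List (List W × List W × List W)) : Prop :=
  (∀ x ∈ c, ∃ a ∈ A, a = x.2) ∧
    Same (e.1 ++ c.flatMap fun x => lm x.1 x.2.2) (e.2 ++ c.flatMap fun x => lm x.1 x.2.1)

theorem Fol.sound {A : List (List W × List W)} {e : List W × List W}
    {c : List (List W × List W × List W)} (h : Fol A e c) {z : ℕ → ℚ}
    (hz : ∀ a ∈ A, ev z a.1 = ev z a.2) : ev z e.1 = ev z e.2 := by
  have := h.2.ev z
  rw [ev_append, ev_append, ev_flat, ev_flat, List.map_congr_left (g := fun x => ev z (lm x.1 x.2.1))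
    fun x hx => by
      obtain ⟨a, ha, e⟩ := h.1 x hx
      rw [ev_lm, ev_lm, ← e, hz a ha]] at this
  exact add_right_cancel this

open MvPolynomial in
theorem hilbert (N : ℕ) (A : ℕ → List (List W × List W)) (h1 : ∀ n, A n ⊆ A (n + 1))
    (h2 : ∀ n, ∀ a ∈ A n, a.swap ∈ A n) (h3 : ∀ n, ∀ a ∈ A n, ∀ m ∈ a.1, ∀ i ∈ m, i < N) :
    ∃ n, ∀ e ∈ A (n + 1), ∃ c, Fol (A n) e c := by
  let κ : ℕ → MvPolynomial (Fin N) ℤ := fun i => if h : i < N then X ⟨i, h⟩ else 0
  let ρ : MvPolynomial (Fin N) ℤ →+* MvPolynomial ℕ ℤ := (rename Fin.val).toRingHom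
  have k1 : ∀ n, ∀ a ∈ A n, ρ (ev κ a.1 - ev κ a.2) = ev X a.1 - ev X a.2 := fun n a ha => by
    have k : ∀ a ∈ A n, ρ (ev κ a.1) = ev X a.1 := fun a ha =>
      (map_ev κ ρ _).trans (ev_congr _ fun m hm i hi => by simp [κ, ρ, h3 n a ha m hm i hi])
    rw [map_sub, k a ha]
    exact congrArg _ (k _ (h2 n a ha))
  have k2 : ∀ r : MvPolynomial ℕ ℤ, ∃ p q, r = ev X p - ev X q := fun r => by
    induction r using MvPolynomial.induction_on with
    | C a => exact ⟨.replicate a.toNat [], .replicate (-a).toNat [], by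
        have := congrArg (Int.cast : ℤ → MvPolynomial ℕ ℤ) (Int.toNat_sub_toNat_neg a)
        rw [Int.cast_sub, Int.cast_natCast, Int.cast_natCast] at this
        simp [ev, this]⟩
    | add r r' a b =>
      obtain ⟨p, q, rfl⟩ := a
      obtain ⟨p', q', rfl⟩ := b
      exact ⟨p ++ p', q ++ q', by rw [ev_append, ev_append]; ring⟩
    | mul_X r i a =>
      obtain ⟨p, q, rfl⟩ := a
      exact ⟨lm p [[i]], lm q [[i]], by rw [ev_lm, ev_lm]; simp [ev, sub_mul]⟩
  let I : ℕ →o Ideal (MvPolynomial (Fin N) ℤ) :=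
    ⟨fun n => Ideal.span {p | ∃ a ∈ A n, ev κ a.1 - ev κ a.2 = p},
      monotone_nat_of_le_succ fun n => Ideal.span_mono fun _ ⟨a, ha, e⟩ => ⟨a, h1 n ha, e⟩⟩
  obtain ⟨n, hn⟩ := monotone_stabilizes_iff_noetherian.2 inferInstance I
  refine ⟨n, fun e he => ?_⟩
  have k3 : ∀ p ∈ I n, ∃ c : List (List W × List W × List W), (∀ x ∈ c, x.2 ∈ A n) ∧
      ρ p = (c.map fun x => ev X x.1 * (ev X x.2.1 - ev X x.2.2)).sum := fun p hp => by
    induction hp using Submodule.span_induction with
    | mem _ h =>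
      obtain ⟨a, ha, rfl⟩ := h
      exact ⟨[([[]], a)], by simpa using ha, by rw [k1 n a ha]; simp [ev]⟩
    | zero => exact ⟨[], by simp, by simp⟩
    | add p q _ _ a b =>
      obtain ⟨c, a1, a2⟩ := a
      obtain ⟨c', b1, b2⟩ := b
      exact ⟨c ++ c', fun x hx => (List.mem_append.1 hx).elim (a1 x) (b1 x), by simp [a2, b2]⟩
    | smul r p _ a =>
      obtain ⟨c, a1, a2⟩ := a
      obtain ⟨q, q', e⟩ := k2 (ρ r)
      refine ⟨(c.map fun x => (lm q x.1, x.2)) ++ c.map fun x => (lm q' x.1, x.2.swap), ?_, ?_⟩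
      · simp only [List.mem_append, List.mem_map]
        rintro _ (⟨x, hx, rfl⟩ | ⟨x, hx, rfl⟩)
        · exact a1 x hx
        · exact h2 n _ (a1 x hx)
      · rw [smul_eq_mul, map_mul, a2, e, List.map_append, List.sum_append, List.map_map,
          List.map_map, ← List.sum_map_add, ← List.sum_map_mul_left]
        refine congrArg List.sum (List.map_congr_left fun x _ => ?_)
        simp only [Function.comp, ev_lm, Prod.fst_swap, Prod.snd_swap]
        ring
  have k4 : ev κ e.1 - ev κ e.2 ∈ I (n + 1) := Ideal.subset_span ⟨e, he, rfl⟩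
  obtain ⟨c, c1, c2⟩ := k3 _ (hn (n + 1) (Nat.le_succ n) ▸ k4)
  refine ⟨c, fun x hx => ⟨_, c1 x hx, rfl⟩, same_of_ev ?_⟩
  rw [k1 _ e he] at c2
  rw [ev_append, ev_append, ev_flat, ev_flat, sub_eq_iff_eq_add'.1 c2, add_assoc,
    ← List.sum_map_add, add_right_inj]
  refine congrArg List.sum (List.map_congr_left fun x _ => ?_)
  rw [ev_lm, ev_lm]
  ring

end Pool.Agent.MP_dd548e_lc.Pre
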