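import Pool.Agent.MP_dd548e_lc.PreA

/-! Decidability of sequence equivalence for prefix tables. -/

set_option autoImplicit false

namespace Pool.Agent.MP_dd548e_lc.Pre

abbrev Rl : Type := List (ℕ × W)

/-- product of a list of lists of words -/
def lp (L : List (List W)) : List W := L.foldr (fun X Y => lm X Y) [[]]

/-- the right sides of a letter -/
def rhs (R : Rl) (a : ℕ) : List W := R.flatMap fun p => if p.1 = a then [p.2] else []

/-- the successors of a word -/
def nxt (R : Rl) (w : W) : List W := lp (w.map fun a => rhs R a)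

/-- the words reached in at most `n` steps -/
def lev (R : Rl) (ω : W) (n : ℕ) : List W :=
  Nat.rec [ω] (fun _ L => L ++ L.flatMap fun w => nxt R w) n

/-- the letters of a system -/
def alp (R : Rl) (ω : W) : W := ω ++ R.flatMap fun p => p.2

/-- all markings of a word -/
def mk (w : W) : List W := lp (w.map fun a => [[2 * a], [2 * a + 1]])

def PV (t : ℕ) (u : W) : List W :=
  u.foldr (fun b P => [4 * b + t] :: P.map fun v => [4 * b + t + 1] ++ v) []

def PS (t : ℕ) (u : W) : List W := [u.map fun b => 4 * b + t + 1]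

/-- the equations of the marked words -/
def eqs (L : List W) : List (List W × List W) :=
  (L.flatMap fun w => mk w).flatMap fun u =>
    [(PV 0 u, PV 2 u), (PV 2 u, PV 0 u), (PS 0 u, PS 2 u), (PS 2 u, PS 0 u)]

/-- the same set of words -/
def Eqv (X Y : List W) : Prop := (∀ x ∈ X, ∃ y ∈ Y, y = x) ∧ ∀ y ∈ Y, ∃ x ∈ X, x = y

def Tot (R : Rl) (ω : W) : Prop := ∀ a ∈ alp R ω, ¬ rhs R a = []

def Pf (R : Rl) : Prop := ∀ p ∈ R, ∀ q ∈ R, p.1 = q.1 → q.2.take p.2.length = p.2 → p.2 = q.2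

abbrev Inp : Type := (Rl × W) × (Rl × W)

abbrev Cert : Type :=
  ℕ × List (List (List W)) × List (List (List W)) × List (List (List W × List W × List W))

def Chk1 (x : Inp) (n : ℕ) : Prop := Tot x.1.1 x.1.2 ∧ Pf x.1.1 ∧ Pf x.2.1 ∧ x.1.2 = x.2.2 ∧
  ∀ w ∈ lev x.1.1 x.1.2 n, Eqv (nxt x.1.1 w) (nxt x.2.1 w)

def Chk2 (x : Inp) (c : Cert) : Prop :=
  (∀ a ∈ alp x.1.1 x.1.2, Eqv (lp (c.2.1.getD a [])) (rhs x.1.1 a) ∧
    Eqv (lp (c.2.2.1.getD a [])) (rhs x.2.1 a)) ∧
  (∀ w ∈ lev x.1.1 x.1.2 c.1,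
    (w.flatMap fun a => c.2.1.getD a []) = w.flatMap fun a => c.2.2.1.getD a []) ∧
  ∀ e ∈ eqs (lev x.1.1 x.1.2 (c.1 + 1)), ∃ d ∈ c.2.2.2, Fol (eqs (lev x.1.1 x.1.2 c.1)) e d

/-! ### Computability -/

section
variable {α β γ : Type} [Primcodable α] [Primcodable β] [Primcodable γ]

attribute [fun_prop] Primrec PrimrecPred

@[fun_prop] theorem r_id : Primrec fun x : α => x := Primrec.id
@[fun_prop] theorem r_const (c : β) : Primrec fun _ : α => c := Primrec.const c
@[fun_prop] theorem r_comp {f : β → γ} {g : α → β} (hf : Primrec f) (hg : Primrec g) :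
    Primrec fun x => f (g x) := hf.comp hg
@[fun_prop] theorem r_fst {f : α → β × γ} (hf : Primrec f) : Primrec fun x => (f x).1 :=
  Primrec.fst.comp hf
@[fun_prop] theorem r_snd {f : α → β × γ} (hf : Primrec f) : Primrec fun x => (f x).2 :=
  Primrec.snd.comp hf
@[fun_prop] theorem r_pair {f : α → β} {g : α → γ} (hf : Primrec f) (hg : Primrec g) :
    Primrec fun x => (f x, g x) := hf.pair hg
@[fun_prop] theorem r_add {f g : α → ℕ} (hf : Primrec f) (hg : Primrec g) :
    Primrec fun x => f x + g x := Primrec.nat_add.comp hf hg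
@[fun_prop] theorem r_mul {f g : α → ℕ} (hf : Primrec f) (hg : Primrec g) :
    Primrec fun x => f x * g x := Primrec.nat_mul.comp hf hg
@[fun_prop] theorem r_cons {f : α → β} {g : α → List β} (hf : Primrec f) (hg : Primrec g) :
    Primrec fun x => f x :: g x := Primrec.list_cons.comp hf hg
@[fun_prop] theorem r_append {f g : α → List β} (hf : Primrec f) (hg : Primrec g) :
    Primrec fun x => f x ++ g x := Primrec.list_append.comp hf hg
@[fun_prop] theorem r_length {f : α → List β} (hf : Primrec f) :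
    Primrec fun x => (f x).length := Primrec.list_length.comp hf
@[fun_prop] theorem r_take {n : α → ℕ} {f : α → List β} (hn : Primrec n) (hf : Primrec f) :
    Primrec fun x => (f x).take (n x) := Primrec.list_take.comp hn hf
@[fun_prop] theorem r_getD {f : α → List β} {g : α → ℕ} (d : β) (hf : Primrec f)
    (hg : Primrec g) : Primrec fun x => (f x).getD (g x) d := (Primrec.list_getD d).comp hf hg
@[fun_prop] theorem r_map {L : α → List β} {h : α → β → γ} (hL : Primrec L)
    (hh : Primrec fun z : α × β => h z.1 z.2) : Primrec fun a => (L a).map (h a) :=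
  Primrec.list_map hL hh.to₂
@[fun_prop] theorem r_flatMap {L : α → List β} {h : α → β → List γ} (hL : Primrec L)
    (hh : Primrec fun z : α × β => h z.1 z.2) : Primrec fun a => (L a).flatMap (h a) :=
  Primrec.list_flatMap hL hh.to₂
@[fun_prop] theorem r_foldr {L : α → List β} {b : α → γ} {h : α → β → γ → γ} (hL : Primrec L)
    (hb : Primrec b) (hh : Primrec fun z : α × β × γ => h z.1 z.2.1 z.2.2) :
    Primrec fun a => (L a).foldr (h a) (b a) :=
  Primrec.list_foldr (h := fun a (q : β × γ) => h a q.1 q.2) hL hb hh.to₂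
@[fun_prop] theorem r_ite {p : α → Prop} {d : ∀ a, Decidable (p a)} {f g : α → β}
    (hp : PrimrecPred p) (hf : Primrec f) (hg : Primrec g) :
    Primrec fun a => @ite _ (p a) (d a) (f a) (g a) := @Primrec.ite _ _ _ _ p d f g hp hf hg

variable {p q : α → Prop}

@[fun_prop] theorem p_const (P : Prop) : PrimrecPred fun _ : α => P := by
  classical exact (Primrec.const (decide P)).primrecPred
@[fun_prop] theorem p_comp {p : β → Prop} {g : α → β} (hp : PrimrecPred p) (hg : Primrec g) :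
    PrimrecPred fun a => p (g a) := hp.comp hg
@[fun_prop] theorem p_and (hp : PrimrecPred p) (hq : PrimrecPred q) :
    PrimrecPred fun a => p a ∧ q a := hp.and hq
@[fun_prop] theorem p_not (hp : PrimrecPred p) : PrimrecPred fun a => ¬ p a := hp.not
@[fun_prop] theorem p_eq {f g : α → β} (hf : Primrec f) (hg : Primrec g) :
    PrimrecPred fun a => f a = g a := Primrec.eq.comp hf hg

theorem p_imp (hp : PrimrecPred p) (hq : PrimrecPred q) : PrimrecPred fun a => p a → q a :=
  (hp.not.or hq).of_eq fun _ => imp_iff_not_or.symm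

theorem p_all {L : α → List β} {P : α → β → Prop} (hL : Primrec L)
    (hP : PrimrecPred fun z : α × β => P z.1 z.2) : PrimrecPred fun a => ∀ x ∈ L a, P a x :=
  (PrimrecRel.forall_mem_list (R := fun x a => P a x)
    (hP.comp (Primrec.snd.pair Primrec.fst))).comp hL Primrec.id

theorem p_ex {L : α → List β} {P : α → β → Prop} (hL : Primrec L)
    (hP : PrimrecPred fun z : α × β => P z.1 z.2) : PrimrecPred fun a => ∃ x ∈ L a, P a x :=
  (PrimrecRel.exists_mem_list (R := fun x a => P a x)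
    (hP.comp (Primrec.snd.pair Primrec.fst))).comp hL Primrec.id

theorem r_countP {L : α → List β} {P : α → β → Prop} [∀ a x, Decidable (P a x)] (hL : Primrec L)
    (hP : PrimrecPred fun z : α × β => P z.1 z.2) :
    Primrec fun a => (L a).countP fun x => P a x :=
  (Primrec.list_length.comp ((PrimrecRel.listFilter (R := fun x a => P a x)
    (hP.comp (Primrec.snd.pair Primrec.fst))).comp hL Primrec.id)).of_eq fun _ =>
      List.countP_eq_length_filter.symm

theorem p_perm {f g : α → W} (hf : Primrec f) (hg : Primrec g) :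
    PrimrecPred fun a => (f a).Perm (g a) := by
  have : PrimrecPred fun a => ∀ i ∈ f a ++ g a,
      (f a).countP (fun x => x = i) = (g a).countP fun x => x = i :=
    p_all (by fun_prop) (p_eq (r_countP (by fun_prop) (by fun_prop))
      (r_countP (by fun_prop) (by fun_prop)))
  refine this.of_eq fun a => ⟨fun h => List.perm_iff_count.2 fun i => ?_, fun h i _ => h.countP_eq _⟩
  by_cases hi : i ∈ f a ++ g a
  · exact h i hi
  · rw [List.mem_append, not_or] at hi
    rw [List.count_eq_zero.2 hi.1, List.count_eq_zero.2 hi.2]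

@[fun_prop] theorem p_Same {f g : α → List W} (hf : Primrec f) (hg : Primrec g) :
    PrimrecPred fun a => Same (f a) (g a) :=
  p_all (by fun_prop) (p_eq (r_countP (by fun_prop) (p_perm (by fun_prop) (by fun_prop)))
    (r_countP (by fun_prop) (p_perm (by fun_prop) (by fun_prop))))

@[fun_prop] theorem r_lm {f g : α → List W} (hf : Primrec f) (hg : Primrec g) :
    Primrec fun a => lm (f a) (g a) := by unfold lm; fun_prop
@[fun_prop] theorem r_lp : Primrec lp := by unfold lp; fun_prop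
@[fun_prop] theorem r_rhs {f : α → Rl} {g : α → ℕ} (hf : Primrec f) (hg : Primrec g) :
    Primrec fun a => rhs (f a) (g a) := by unfold rhs; fun_prop
@[fun_prop] theorem r_nxt {f : α → Rl} {g : α → W} (hf : Primrec f) (hg : Primrec g) :
    Primrec fun a => nxt (f a) (g a) := by unfold nxt; fun_prop
@[fun_prop] theorem r_lev {f : α → Rl} {g : α → W} {n : α → ℕ} (hf : Primrec f) (hg : Primrec g)
    (hn : Primrec n) : Primrec fun a => lev (f a) (g a) (n a) :=
  Primrec.nat_rec' (h := fun a (z : ℕ × List W) => z.2 ++ z.2.flatMap fun w => nxt (f a) w) hn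
    (by fun_prop) (by unfold Primrec₂; fun_prop)
@[fun_prop] theorem r_alp {f : α → Rl} {g : α → W} (hf : Primrec f) (hg : Primrec g) :
    Primrec fun a => alp (f a) (g a) := by unfold alp; fun_prop
@[fun_prop] theorem r_eqs : Primrec eqs := by unfold eqs PV PS mk; fun_prop
@[fun_prop] theorem p_Eqv {f g : α → List W} (hf : Primrec f) (hg : Primrec g) :
    PrimrecPred fun a => Eqv (f a) (g a) :=
  p_and (p_all hf (p_ex (by fun_prop) (by fun_prop))) (p_all hg (p_ex (by fun_prop) (by fun_prop)))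

theorem p_Pf : PrimrecPred Pf :=
  p_all r_id (p_all (by fun_prop) (p_imp (by fun_prop) (p_imp (by fun_prop) (by fun_prop))))

theorem p_Chk1 : PrimrecPred fun z : Inp × ℕ => Chk1 z.1 z.2 :=
  p_and (p_all (by fun_prop) (by fun_prop)) (p_and (p_Pf.comp (by fun_prop))
    (p_and (p_Pf.comp (by fun_prop)) (p_and (by fun_prop) (p_all (by fun_prop) (by fun_prop)))))

theorem p_Chk2 : PrimrecPred fun z : Inp × Cert => Chk2 z.1 z.2 :=
  p_and (p_all (by fun_prop) (by fun_prop)) (p_and (p_all (by fun_prop) (by fun_prop))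
    (p_all (by fun_prop) (p_ex (by fun_prop)
      (p_and (p_all (by fun_prop) (p_ex (by fun_prop) (by fun_prop))) (by fun_prop)))))

theorem decide_of {A : α → ℕ → Prop} {B : α → β → Prop} [Inhabited β]
    (hA : PrimrecPred fun z : α × ℕ => A z.1 z.2) (hB : PrimrecPred fun z : α × β => B z.1 z.2)
    (h1 : ∀ x n c, A x n → B x c → ∀ m, A x m) (h2 : ∀ x, (∀ n, A x n) → ∃ c, B x c) :
    ∃ f : α → Bool, Computable f ∧ ∀ x, f x = true ↔ ∀ n, A x n := by
  classical
  have ex : ∀ x, ∃ n, A x n → B x ((Encodable.decode n).getD default) := fun x => by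
    by_cases h : ∀ n, A x n
    · obtain ⟨c, hc⟩ := h2 x h
      exact ⟨Encodable.encode c, fun _ => by simpa using hc⟩
    · exact (not_forall.1 h).imp fun n hn a => absurd a hn
  have c := Computable.find (p_imp hA (hB.comp (Primrec.fst.pair (Primrec.option_getD.comp
    (Primrec.decode.comp Primrec.snd) (Primrec.const default))))).computablePred ex
  refine ⟨fun x => decide (A x (Nat.find (ex x))),
    hA.decide.to_comp.comp (Computable.id.pair c), fun x => ?_⟩
  rw [decide_eq_true_iff]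
  exact ⟨fun a => h1 x _ _ a (Nat.find_spec (ex x) a), fun a => a _⟩

end

/-! ### Languages -/

/-- the language of a list -/
def toL (X : List W) : Language ℕ := {u | u ∈ X}

theorem mem_lm {X Y : List W} {w : W} : w ∈ lm X Y ↔ ∃ u ∈ X, ∃ v ∈ Y, u ++ v = w := by
  simp [lm]

theorem toL_lp (L : List (List W)) : toL (lp L) = (L.map toL).prod := by
  induction L with
  | nil => exact Language.ext fun w => List.mem_singleton
  | cons X L ih =>
    rw [List.map_cons, List.prod_cons, ← ih]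
    exact Language.ext fun w => mem_lm.trans Language.mem_mul.symm

theorem eqv_iff {X Y : List W} : Eqv X Y ↔ toL X = toL Y := by
  simp only [Eqv, exists_eq_right]
  exact ⟨fun h => Language.ext fun w => ⟨h.1 w, h.2 w⟩, fun h => ⟨fun _ a => h.le a, fun _ a => h.ge a⟩⟩

theorem toL_flat (F : ℕ → List (List W)) (w : W) :
    toL (lp (w.flatMap F)) = (w.map fun a => toL (lp (F a))).prod := by
  induction w with
  | nil => exact toL_lp _
  | cons a w ih =>
    rw [List.flatMap_cons, List.map_cons, List.prod_cons, ← ih, toL_lp, toL_lp, toL_lp,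
      List.map_append, List.prod_append]

theorem toL_nxt (R : Rl) (w : W) : toL (nxt R w) = (w.map fun a => toL (rhs R a)).prod := by
  rw [nxt, toL_lp, List.map_map]
  rfl

theorem mem_rhs {R : Rl} {a : ℕ} {u : W} : u ∈ rhs R a ↔ (a, u) ∈ R := by
  simp only [rhs, List.mem_flatMap]
  exact ⟨fun ⟨p, hp, h⟩ => by split_ifs at h with e <;> simp at h; rw [← e, h]; exact hp,
    fun h => ⟨_, h, by simp⟩⟩

theorem nxt_cons {R : Rl} {a : ℕ} {w x : W} :
    x ∈ nxt R (a :: w) ↔ ∃ u ∈ rhs R a, ∃ v ∈ nxt R w, u ++ v = x := mem_lm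

theorem mem_nxt {R : Rl} (g : ℕ → ℕ) : ∀ {w x : W}, x.map g ∈ nxt R w ↔ ∃ Z : Rl,
    Z.map Prod.fst = w ∧ (∀ p ∈ Z, p.2.map g ∈ rhs R p.1) ∧ x = Z.flatMap Prod.snd
  | [], x => by simp [nxt, lp]
  | a :: w, x => by
    rw [nxt_cons]
    constructor
    · rintro ⟨u, hu, v, hv, e⟩
      obtain ⟨x1, x2, rfl, rfl, rfl⟩ := List.map_eq_append_iff.1 e.symm
      obtain ⟨Z, rfl, z, rfl⟩ := (mem_nxt g).1 hv
      exact ⟨(a, x1) :: Z, rfl, List.forall_mem_cons.2 ⟨hu, z⟩, rfl⟩
    · rintro ⟨_ | ⟨p, Z⟩, e, z, rfl⟩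
      · simp at e
      · obtain ⟨rfl, rfl⟩ := List.cons.inj e
        exact ⟨_, z p (by simp), _, (mem_nxt g).2 ⟨Z, rfl, fun q hq => z q (by simp [hq]), rfl⟩,
          by simp⟩

theorem mem_mk : ∀ {w u : W}, u ∈ mk w ↔ u.map (· / 2) = w
  | [], u => by simp [mk, lp]
  | a :: w, u => by
    refine mem_lm.trans ⟨?_, fun h => ?_⟩
    · rintro ⟨x, hx, v, hv, rfl⟩
      rw [List.map_append, mem_mk.1 hv]
      simp only [List.mem_cons, List.not_mem_nil, or_false] at hx
      rcases hx with rfl | rfl <;> simp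
      omega
    · obtain ⟨b, v, rfl, e, rfl⟩ := List.map_eq_cons_iff.1 h
      refine ⟨[b], ?_, v, mem_mk.2 rfl, rfl⟩
      simp only [List.mem_cons, List.cons.injEq, and_true, List.not_mem_nil, or_false]
      omega

theorem lev_succ {R : Rl} {ω w : W} {n : ℕ} :
    w ∈ lev R ω (n + 1) ↔ w ∈ lev R ω n ∨ ∃ v ∈ lev R ω n, w ∈ nxt R v :=
  List.mem_append.trans (or_congr_right List.mem_flatMap)

theorem nxt_alp {R : Rl} (ω : W) {v w : W} (h : w ∈ nxt R v) : ∀ a ∈ w, a ∈ alp R ω := by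
  obtain ⟨Z, -, z, rfl⟩ := (mem_nxt id).1 (by rwa [List.map_id])
  intro a ha
  obtain ⟨p, hp, ha⟩ := List.mem_flatMap.1 ha
  exact List.mem_append_right _ (List.mem_flatMap.2 ⟨_, mem_rhs.1 (z p hp), by simpa using ha⟩)

theorem lev_alp {R : Rl} {ω : W} : ∀ {n : ℕ} {w : W}, w ∈ lev R ω n → ∀ a ∈ w, a ∈ alp R ω
  | 0, _, h => fun _ ha => List.mem_append_left _ (List.mem_singleton.1 h ▸ ha)
  | _ + 1, _, h => (lev_succ.1 h).elim lev_alp fun ⟨_, _, h⟩ => nxt_alp ω h

/-! ### Points -/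

/-- the point solves the equations of all marked words of level at most `n` -/
def Sol (R : Rl) (ω : W) (y : ℕ → Af × Af) (n : ℕ) : Prop :=
  ∀ u : W, u.map (· / 2) ∈ lev R ω n → (u.map y).prod.1 = (u.map y).prod.2

theorem prod_flat {G ι κ : Type} [Monoid G] (y : κ → G) (τ : ι → List κ) (u : List ι) :
    ((u.flatMap τ).map y).prod = (u.map fun b => ((τ b).map y).prod).prod := by
  induction u with
  | nil => rfl
  | cons b u ih => simp only [List.flatMap_cons, List.map_append, List.prod_append, ih,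
      List.map_cons, List.prod_cons]

theorem sol_step {R : Rl} {ω : W} (hT : Tot R ω) {n : ℕ}
    (h : ∀ y, Sol R ω y n → Sol R ω y (n + 1)) (y : ℕ → Af × Af) (hy : Sol R ω y (n + 1)) :
    Sol R ω y (n + 2) := by
  have k : ∀ τ : ℕ → W, (∀ b, b / 2 ∈ alp R ω → (τ b).map (· / 2) ∈ rhs R (b / 2)) →
      Sol R ω (fun b => ((τ b).map y).prod) (n + 1) := fun τ hτ => h _ fun u hu => by
    rw [← prod_flat]
    refine hy _ (lev_succ.2 (Or.inr ⟨_, hu, (mem_nxt _).2
      ⟨u.map fun b => (b / 2, τ b), by simp, ?_, by simp [List.flatMap_map]⟩⟩))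
    intro p hp
    obtain ⟨b, hb, rfl⟩ := List.mem_map.1 hp
    exact hτ b (lev_alp hu _ (List.mem_map_of_mem hb))
  have d : ∀ a, ∃ x : W, a ∈ alp R ω → x.map (· / 2) ∈ rhs R a := fun a => by
    by_cases ha : a ∈ alp R ω
    · obtain ⟨x, hx⟩ := List.exists_mem_of_ne_nil _ (hT a ha)
      exact ⟨x.map (2 * ·), fun _ => by simpa [Function.comp_def] using hx⟩
    · exact ⟨[], fun a => absurd a ha⟩
  choose τ hτ using d
  intro u hu
  rcases lev_succ.1 hu with hu | ⟨w, hw, hu⟩
  · exact hy u hu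
  obtain ⟨Z, rfl, z, rfl⟩ := (mem_nxt _).1 hu
  rw [prod_flat]
  refine (one_mul _).symm.trans (lin (fun p => ((τ p.1).map y).prod) _ Z 1 ?_ ?_)
  · simpa [Function.comp_def] using k (fun b => τ (b / 2)) (fun b => hτ _) (Z.map (2 * ·.1))
      (by simpa [Function.comp_def] using hw)
  · rintro Z1 p Z2 rfl
    have e1 : (2 * p.1 + 1) / 2 = p.1 := by omega
    have e2 : ∀ a, 2 * a ≠ 2 * p.1 + 1 := by omega
    have e3 : ∀ a : ℕ, 2 * a / 2 = a := by omega
    have g := k (fun b => if b = 2 * p.1 + 1 then p.2 else τ (b / 2))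
      (fun b hb => by
        split_ifs with e
        · rw [e, e1]
          exact z p (by simp)
        · exact hτ _ hb) (Z1.map (2 * ·.1) ++ (2 * p.1 + 1) :: Z2.map (2 * ·.1))
      (by simpa [Function.comp_def, e1] using hw)
    rw [List.map_append, List.map_cons, List.map_map, List.map_map, if_pos rfl] at g
    simp only [Function.comp_def, if_neg (e2 _), e3] at g
    simpa using g

theorem ev_P {c : ℕ → ℚ} {z : ℕ → Af} {t : ℕ}
    (h : ∀ b, c (4 * b + t) = (z b).v ∧ c (4 * b + t + 1) = (z b).s) (u : W) :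
    ev c (PV t u) = (u.map z).prod.v ∧ ev c (PS t u) = (u.map z).prod.s := by
  induction u with
  | nil => exact ⟨rfl, by simp [PS, ev, one_s]⟩
  | cons b u ih =>
    rw [List.map_cons, List.prod_cons, mul_v, mul_s, Units.val_mul, ← ih.1, ← ih.2, ← (h b).1,
      ← (h b).2, PV, List.foldr_cons, ev_cons, ev_map]
    simp [PV, PS, ev]

theorem mem_eqs {L : List W} {a : List W × List W} : a ∈ eqs L ↔ ∃ u : W, u.map (· / 2) ∈ L ∧
    (a = (PV 0 u, PV 2 u) ∨ a = (PV 2 u, PV 0 u) ∨ a = (PS 0 u, PS 2 u) ∨ a = (PS 2 u, PS 0 u)) := by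
  simp only [eqs, List.mem_flatMap, mem_mk, exists_eq_right', List.mem_cons, List.not_mem_nil,
    or_false]

theorem sol_iff (R : Rl) (ω : W) (y : ℕ → Af × Af) : ∃ c : ℕ → ℚ, ∀ n,
    Sol R ω y n ↔ ∀ a ∈ eqs (lev R ω n), ev c a.1 = ev c a.2 := by
  let c : ℕ → ℚ := fun i => if i % 4 = 0 then (y (i / 4)).1.v else if i % 4 = 1 then
    (y (i / 4)).1.s else if i % 4 = 2 then (y (i / 4)).2.v else (y (i / 4)).2.s
  have h0 := ev_P (c := c) (z := fun b => (y b).1) (t := 0) fun b => by
    simp [c, show (4 * b + 1) / 4 = b by omega]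
  have h2 := ev_P (c := c) (z := fun b => (y b).2) (t := 2) fun b => by
    simp [c, show (4 * b + 2) / 4 = b by omega, show (4 * b + 2 + 1) / 4 = b by omega,
      show (4 * b + 2 + 1) % 4 = 3 by omega]
  have e1 : ∀ u : W, (u.map y).prod.1 = (u.map fun b => (y b).1).prod := fun u =>
    (map_list_prod (MonoidHom.fst Af Af) _).trans (by rw [List.map_map]; rfl)
  have e2 : ∀ u : W, (u.map y).prod.2 = (u.map fun b => (y b).2).prod := fun u =>
    (map_list_prod (MonoidHom.snd Af Af) _).trans (by rw [List.map_map]; rfl)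
  refine ⟨c, fun n => ⟨fun h a ha => ?_, fun h u hu => ?_⟩⟩
  · obtain ⟨u, hu, ha⟩ := mem_eqs.1 ha
    have := h u hu
    rw [e1, e2] at this
    rcases ha with rfl | rfl | rfl | rfl <;> simp only [h0, h2, this]
  · have a := h _ (mem_eqs.2 ⟨u, hu, Or.inl rfl⟩)
    have b := h _ (mem_eqs.2 ⟨u, hu, Or.inr (Or.inr (Or.inl rfl))⟩)
    simp only [h0, h2] at a b
    rw [e1, e2]
    exact Af.ext a (Units.ext b)

theorem lev_mono {R : Rl} {ω w : W} {n m : ℕ} (h : n ≤ m) (hw : w ∈ lev R ω n) : w ∈ lev R ω m := by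
  induction h with
  | refl => exact hw
  | step _ ih => exact lev_succ.2 (Or.inl ih)

theorem sound (x : Inp) (n : ℕ) (c : Cert) (h1 : Chk1 x n) (h2 : Chk2 x c) (m : ℕ) : Chk1 x m := by
  obtain ⟨⟨R, ω⟩, R', ω'⟩ := x
  obtain ⟨k, F, F', C⟩ := c
  obtain ⟨hT, a1, a2, a3, -⟩ := h1
  obtain ⟨b1, b2, b3⟩ := h2
  refine ⟨hT, a1, a2, a3, fun w hw => ?_⟩
  have s1 : ∀ j y, Sol R ω y (k + j) → Sol R ω y (k + j + 1) := fun j => by
    induction j with
    | zero =>
      intro y hy
      obtain ⟨c, hc⟩ := sol_iff R ω y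
      exact (hc _).2 fun e he => (b3 e he).elim fun d hd => hd.2.sound ((hc _).1 hy)
    | succ j ih => exact sol_step hT ih
  let A : List (List W) → Af := fun L => (L.map fun X => af (Encodable.encode X)).prod
  let y : ℕ → Af × Af := fun b => (A (F.getD (b / 2) []), A (F'.getD (b / 2) []))
  have e : ∀ u : W, (u.map y).prod = (A ((u.map (· / 2)).flatMap fun a => F.getD a []),
      A ((u.map (· / 2)).flatMap fun a => F'.getD a [])) := fun u => by
    induction u with
    | nil => rfl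
    | cons b u ih => simp only [List.map_cons, List.prod_cons, ih, A, y, List.flatMap_cons,
        List.map_append, List.prod_append, Prod.mk_mul_mk]
  have s2 : ∀ j, Sol R ω y (k + j) := fun j => by
    induction j with
    | zero => exact fun u hu => by rw [e, b2 _ hu]
    | succ j ih => exact s1 j y ih
  have s3 := s2 m (w.map (2 * ·)) (lev_mono (Nat.le_add_left m k)
    (by simpa [Function.comp_def] using hw))
  have s4 : (w.map (2 * ·)).map (· / 2) = w := by simp [Function.comp_def]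
  rw [e, s4] at s3
  have s5 : (w.flatMap fun a => F.getD a []) = w.flatMap fun a => F'.getD a [] :=
    List.map_injective_iff.2 Encodable.encode_injective
      (af_inj _ _ (by rw [List.map_map, List.map_map]; exact s3))
  rw [eqv_iff, toL_nxt, toL_nxt,
    List.map_congr_left fun a ha => (eqv_iff.1 (b1 a (lev_alp hw a ha)).1).symm,
    List.map_congr_left (f := fun a => toL (rhs R' a))
      fun a ha => (eqv_iff.1 (b1 a (lev_alp hw a ha)).2).symm, ← toL_flat, ← toL_flat, s5]

theorem pc_rhs {R : Rl} (h : Pf R) {a : ℕ} (h0 : ∃ x, x ∈ toL (rhs R a)) : PC (toL (rhs R a)) :=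
  ⟨List.finite_toSet _, h0, fun x hx t ht => List.self_eq_append_right.1
    (h _ (mem_rhs.1 hx) _ (mem_rhs.1 ht) rfl (by simp))⟩

theorem exists_rep : ∃ (at' : List W → List (Language ℕ)) (rep : Language ℕ → List W),
    ∀ X, ((at' X).map rep).map toL = at' X ∧ (at' X).prod = toL X ∧
      (PC (toL X) → ∀ A ∈ at' X, At A) := by
  have k : ∀ A : Language ℕ, ∃ X, Set.Finite A → toL X = A := fun A => by
    by_cases h : Set.Finite A
    · exact ⟨h.toFinset.toList, fun _ => Language.ext fun w =>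
        Finset.mem_toList.trans h.mem_toFinset⟩
    · exact ⟨[], fun a => absurd a h⟩
  choose rep hr using k
  have k2 : ∀ X : List W, ∃ L : List (Language ℕ), (∀ A ∈ L, Set.Finite A) ∧ L.prod = toL X ∧
      (PC (toL X) → ∀ A ∈ L, At A) := fun X => by
    by_cases h : PC (toL X)
    · obtain ⟨L, a, b⟩ := exists_fac _ _ h rfl
      exact ⟨L, fun A hA => (a A hA).1.1, b, fun _ => a⟩
    · exact ⟨[toL X], fun A hA => List.mem_singleton.1 hA ▸ List.finite_toSet X, by simp,
        fun a => absurd a h⟩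
  choose at' a b c using k2
  refine ⟨at', rep, fun X => ⟨?_, b X, c X⟩⟩
  rw [List.map_map]
  exact (List.map_congr_left fun A hA => hr A (a X A hA)).trans (List.map_id _)

theorem vars {t : ℕ} : ∀ u : W, ∀ m ∈ PV t u, ∀ i ∈ m, ∃ b ∈ u, i ≤ 4 * b + t + 1
  | [], _, h => by simp [PV] at h
  | b :: u, m, h => fun i hi => by
    rcases List.mem_cons.1 h with rfl | h
    · exact ⟨b, by simp, by rw [List.mem_singleton.1 hi]; omega⟩
    · obtain ⟨v, hv, rfl⟩ := List.mem_map.1 h
      rcases List.mem_cons.1 hi with rfl | hi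
      · exact ⟨b, by simp, le_rfl⟩
      · obtain ⟨b', a, c⟩ := vars u v hv i hi
        exact ⟨b', by simp [a], c⟩

theorem complete (x : Inp) (h : ∀ n, Chk1 x n) : ∃ c, Chk2 x c := by
  obtain ⟨⟨R, ω⟩, R', ω'⟩ := x
  obtain ⟨hT, a1, a2, -, -⟩ := h 0
  obtain ⟨K, hK⟩ : ∃ K, ∀ a ∈ alp R ω, a < K :=
    ⟨(alp R ω).sum + 1, fun a ha => Nat.lt_succ_of_le (List.le_sum_of_mem ha)⟩
  obtain ⟨n, hn⟩ := hilbert (8 * K) (fun n => eqs (lev R ω n))
    (fun n a ha => (mem_eqs.1 ha).elim fun u hu => mem_eqs.2 ⟨u, lev_succ.2 (Or.inl hu.1), hu.2⟩)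
    (fun n a ha => by
      obtain ⟨u, hu, rfl | rfl | rfl | rfl⟩ := mem_eqs.1 ha <;> exact mem_eqs.2 ⟨u, hu, by simp⟩)
    fun n a ha m hm i hi => by
      obtain ⟨u, hu, ha⟩ := mem_eqs.1 ha
      have k : ∀ b ∈ u, b / 2 < K := fun b hb => hK _ (lev_alp hu _ (List.mem_map_of_mem hb))
      rcases ha with rfl | rfl | rfl | rfl
      · obtain ⟨b, b1, b2⟩ := vars u m hm i hi
        have := k b b1
        omega
      · obtain ⟨b, b1, b2⟩ := vars u m hm i hi
        have := k b b1
        omega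
      all_goals
        obtain ⟨b, b1, rfl⟩ := List.mem_map.1 (List.mem_singleton.1 hm ▸ hi)
        have := k b b1
        omega
  choose! d hd using hn
  obtain ⟨at', rep, hr⟩ := exists_rep
  have g : ∀ (S : Rl) a, a ∈ alp R ω →
      ((List.range K).map fun a => (at' (rhs S a)).map rep).getD a [] = (at' (rhs S a)).map rep :=
    fun S a ha => by simp [hK a ha]
  have g2 : ∀ (S : Rl) (w : W), (w.flatMap fun a => at' (rhs S a)).prod = toL (nxt S w) :=
    fun S w => by
      rw [toL_nxt, ← List.map_id (List.flatMap _ _), prod_flat]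
      simp only [List.map_id, (hr _).2.1]
  refine ⟨(n, (List.range K).map fun a => (at' (rhs R a)).map rep,
    (List.range K).map fun a => (at' (rhs R' a)).map rep, (eqs (lev R ω (n + 1))).map d),
    fun a ha => ?_, fun w hw => ?_, fun e he => ⟨d e, List.mem_map_of_mem he, hd e he⟩⟩
  · simp only [g _ a ha, eqv_iff, toL_lp, (hr _).1, (hr _).2.1, and_self]
  · have e := eqv_iff.1 ((h n).2.2.2.2 w hw)
    have p1 : ∀ a ∈ w, PC (toL (rhs R a)) := fun a ha =>
      pc_rhs a1 (List.exists_mem_of_ne_nil _ (hT a (lev_alp hw a ha)))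
    have p2 : ∀ a ∈ w, PC (toL (rhs R' a)) := fun a ha => by
      obtain ⟨x, hx⟩ := (PC.prod (L := w.map fun a => toL (rhs R a)) (by simpa using p1)).2.1
      rw [← toL_nxt, e] at hx
      obtain ⟨Z, rfl, z, -⟩ := (mem_nxt id).1 (show x.map id ∈ nxt R' w by rwa [List.map_id])
      obtain ⟨p, hp, rfl⟩ := List.mem_map.1 ha
      exact pc_rhs a2 ⟨_, z p hp⟩
    have u := uniq_fac (w.flatMap fun a => at' (rhs R a)) (w.flatMap fun a => at' (rhs R' a))
      (fun A hA => (List.mem_flatMap.1 hA).elim fun a h => (hr _).2.2 (p1 a h.1) A h.2)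
      (fun A hA => (List.mem_flatMap.1 hA).elim fun a h => (hr _).2.2 (p2 a h.1) A h.2)
      (by rw [g2, g2, e])
    rw [List.flatMap_congr fun a ha => g R a (lev_alp hw a ha),
      List.flatMap_congr fun a ha => g R' a (lev_alp hw a ha), ← List.map_flatMap,
      ← List.map_flatMap, u]

/-! ### Derivation sequences -/

/-- derivation sequences -/
def Sq (R : Rl) (ω : W) : Set (ℕ → W) := {s | s 0 = ω ∧ ∀ n, s (n + 1) ∈ nxt R (s n)}

theorem sq_ex {R : Rl} {ω : W} (hT : Tot R ω) {w : W} (hw : ∀ a ∈ w, a ∈ alp R ω) :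
    ∃ s, s ∈ Sq R w := by
  have k : ∀ v : W, ∃ x, (∀ a ∈ v, a ∈ alp R ω) → x ∈ nxt R v := fun v => by
    induction v with
    | nil => exact ⟨[], fun _ => by simp [nxt, lp]⟩
    | cons a v ih =>
      obtain ⟨x, hx⟩ := ih
      refine ⟨(rhs R a).headI ++ x, fun h => nxt_cons.2
        ⟨_, List.head!_mem_self (hT a (h a (by simp))), x, hx fun b hb => h b (by simp [hb]), ?_⟩⟩
      cases rhs R a <;> rfl
  choose g hg using k
  have k2 : ∀ n, ∀ a ∈ g^[n] w, a ∈ alp R ω := fun n => by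
    induction n with
    | zero => exact hw
    | succ n ih => exact Function.iterate_succ_apply' g n w ▸ nxt_alp ω (hg _ ih)
  refine ⟨fun n => g^[n] w, rfl, fun n => ?_⟩
  simp only [Function.iterate_succ_apply']
  exact hg _ (k2 n)

theorem sq_cons {R : Rl} {v w : W} (h : w ∈ nxt R v) {s : ℕ → W} (hs : s ∈ Sq R w) :
    (fun n => Nat.casesOn n v s : ℕ → W) ∈ Sq R v :=
  ⟨rfl, fun n => Nat.casesOn n (show s 0 ∈ nxt R v from hs.1 ▸ h) hs.2⟩

theorem sq_iff {R R' : Rl} {ω ω' : W} (hT : Tot R ω) (hT' : Tot R' ω') : Sq R ω = Sq R' ω' ↔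
    ω = ω' ∧ ∀ n, ∀ w ∈ lev R ω n, Eqv (nxt R w) (nxt R' w) := by
  constructor
  · intro h
    obtain ⟨s, hs⟩ := sq_ex hT fun a ha => List.mem_append_left _ ha
    obtain rfl : ω = ω' := hs.1.symm.trans (h ▸ hs).1
    have k1 : ∀ {S S' : Rl} {v w : W}, Tot S ω → Sq S v = Sq S' v → w ∈ nxt S v →
        w ∈ nxt S' v ∧ Sq S w ⊆ Sq S' w := fun t e hw => by
      obtain ⟨s, hs⟩ := sq_ex t (nxt_alp ω hw)
      exact ⟨hs.1 ▸ (e ▸ sq_cons hw hs).2 0,
        fun s hs => ⟨hs.1, fun n => (e ▸ sq_cons hw hs).2 (n + 1)⟩⟩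
    have k2 : ∀ n, ∀ w ∈ lev R ω n, Sq R w = Sq R' w := fun n => by
      induction n with
      | zero => exact fun w hw => List.mem_singleton.1 hw ▸ h
      | succ n ih =>
        intro w hw
        rcases lev_succ.1 hw with hw | ⟨v, hv, hw⟩
        · exact ih w hw
        · have a := k1 hT (ih v hv) hw
          exact a.2.antisymm (k1 hT' (ih v hv).symm a.1).2
    exact ⟨rfl, fun n w hw => ⟨fun x hx => ⟨x, (k1 hT (k2 n w hw) hx).1, rfl⟩,
      fun x hx => ⟨x, (k1 hT' (k2 n w hw).symm hx).1, rfl⟩⟩⟩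
  · rintro ⟨rfl, h⟩
    have k : ∀ s : ℕ → W, s 0 = ω → (∀ n, s n ∈ lev R ω n → s (n + 1) ∈ nxt R (s n)) →
        ∀ n, s n ∈ lev R ω n := fun s a b n => by
      induction n with
      | zero => exact List.mem_singleton.2 a
      | succ n ih => exact lev_succ.2 (Or.inr ⟨_, ih, b n ih⟩)
    ext s
    exact and_congr_right fun a => ⟨fun b n => (eqv_iff.1 (h n _ (k s a (fun n _ => b n) n))).le (b n),
      fun b n => (eqv_iff.1 (h n _ (k s a (fun n c => (eqv_iff.1 (h n _ c)).ge (b n)) n))).ge (b n)⟩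

theorem nxt_iff {R : Rl} : ∀ {w x : W}, x ∈ nxt R w ↔
    ∃ ws : List W, List.Forall₂ (fun a u => (a, u) ∈ R) w ws ∧ x = ws.flatten
  | [], x => by simp [nxt, lp]
  | a :: w, x => by
    rw [nxt_cons]
    constructor
    · rintro ⟨u, hu, v, hv, rfl⟩
      obtain ⟨ws, h, rfl⟩ := nxt_iff.1 hv
      exact ⟨u :: ws, .cons (mem_rhs.1 hu) h, rfl⟩
    · rintro ⟨_, _ | ⟨h1, h2⟩, rfl⟩
      exact ⟨_, mem_rhs.2 h1, _, nxt_iff.2 ⟨_, h2, rfl⟩, rfl⟩

theorem main : ∃ f : Inp → Bool, Computable f ∧ ∀ (R : Rl) (ω : W) (R' : Rl) (ω' : W),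
    Tot R ω → Tot R' ω' → Pf R → Pf R' → (f ((R, ω), (R', ω')) = true ↔ Sq R ω = Sq R' ω') := by
  obtain ⟨f, h1, h2⟩ := decide_of p_Chk1 p_Chk2 sound complete
  refine ⟨f, h1, fun R ω R' ω' a b c d => (h2 _).trans ?_⟩
  rw [sq_iff a b]
  exact ⟨fun h => ⟨(h 0).2.2.2.1, fun n => (h n).2.2.2.2⟩, fun h n => ⟨a, c, d, h.1, h.2 n⟩⟩

end Pool.Agent.MP_dd548e_lc.Pre
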