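import Pool.Agent.MP_dd548e_lc.Counter

namespace Pool.Agent.MP_dd548e_lc

open Relation List.Vector

lemma Act.toTestN {s : ℕ} (n : ℕ) {Q : Regs → Regs → Prop} (h : Act (s + n) Q)
    (hQ : ∀ v u, Z s v → Q v u → ∀ i < s, u i = v i) : Test s (fun v => ∃ u, Q v u) := by
  induction n generalizing Q with
  | zero =>
    have key : ∀ v u, Z s v → Q v u → u = v := by
      intro v u hv k
      funext i
      by_cases hi : i < s
      · exact hQ v u hv k i hi
      · rw [h.1 v u hv k i (by omega), hv i (by omega)]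
    refine Act.congr h fun v hv v' => ⟨fun k => ⟨⟨_, k⟩, key _ _ hv k⟩, ?_⟩
    rintro ⟨⟨u, k⟩, rfl⟩
    rwa [key _ _ hv k] at k
  | succ n ih =>
    refine (ih (Act.close h) ?_).congr fun v _ => ⟨?_, ?_⟩
    · rintro v v' hv ⟨u, k1, k2, -⟩ i hi
      rw [k2 i (by omega), hQ v u hv k1 i hi]
    · rintro ⟨_, u, k, -⟩
      exact ⟨u, k⟩
    · rintro ⟨u, k⟩
      exact ⟨Function.update u (s + n) 0, u, k, fun i hi => by simp [hi], by simp⟩

lemma Test.existsN {s : ℕ} (n : ℕ) {P : Regs → Prop} (h : Test (s + n) P) :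
    Test s (fun v => ∃ u, (∀ i, i < s ∨ s + n ≤ i → u i = v i) ∧ P u) := by
  induction n generalizing P with
  | zero =>
    refine h.congr fun v _ => ⟨fun k => ⟨v, fun _ _ => rfl, k⟩, ?_⟩
    rintro ⟨u, k1, k2⟩
    rwa [show u = v from funext fun i => k1 i (by omega)] at k2
  | succ n ih =>
    refine (ih (Test.exists h)).congr fun v _ => ⟨?_, ?_⟩
    · rintro ⟨u, k1, z, k2⟩
      refine ⟨_, fun i hi => ?_, k2⟩
      rw [Function.update_of_ne (by omega), k1 i (by omega)]
    · rintro ⟨u, k1, k2⟩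
      refine ⟨Function.update u (s + n) (v (s + n)), fun i hi => ?_, u (s + n), by simpa using k2⟩
      by_cases e : i = s + n
      · simp [e]
      · rw [Function.update_of_ne e, k1 i (by omega)]

lemma test_succ {s i j : ℕ} (hi : i < s) (hj : j < s) : Test s (fun v => v i + 1 = v j) := by
  have h1 : Act (s + 1) _ := (act_havoc (Nat.lt_succ_self s)).comp
    (Act.comp (test_eq (i := s) (j := i) (by omega) (by omega))
      ((act_inc (Nat.lt_succ_self s)).comp (test_eq (i := s) (j := j) (by omega) (by omega))))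
  have his : i ≠ s := hi.ne
  have hjs : j ≠ s := hj.ne
  refine (h1.toTest ?_).congr fun v _ => ⟨?_, ?_⟩
  · rintro v _ _ ⟨u, k1, _, ⟨-, rfl⟩, _, rfl, -, rfl⟩ x hx
    simp [ee, hx, k1 x hx]
  · rintro ⟨_, u, k1, _, ⟨k2, rfl⟩, _, rfl, k3, -⟩
    simp [ee, hjs] at k3
    rw [← k1 i his, ← k1 j hjs]
    omega
  · intro k
    refine ⟨_, Function.update v s (v i), fun x hx => by simp [hx], _, ⟨by simp [his], rfl⟩, _, rfl,
      ?_, rfl⟩
    simp [ee, hjs, k]

/-- the contents of the registers listed by `ρ` -/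
def vec {n : ℕ} (ρ : Fin n → ℕ) (v : Regs) : List.Vector ℕ n := List.Vector.ofFn fun j => v (ρ j)

lemma vec_congr {n s : ℕ} {ρ : Fin n → ℕ} (hρ : ∀ j, ρ j < s) {u v : Regs}
    (h : ∀ i < s, u i = v i) : vec ρ u = vec ρ v := by
  unfold vec
  congr 1
  funext j
  exact h _ (hρ j)

lemma vec_cons {n : ℕ} (a : ℕ) (ρ : Fin n → ℕ) (v : Regs) :
    vec (Fin.cons a ρ : Fin (n + 1) → ℕ) v = v a ::ᵥ vec ρ v := rfl

lemma vec_succ {n : ℕ} (ρ : Fin (n + 1) → ℕ) (v : Regs) :
    vec ρ v = v (ρ 0) ::ᵥ vec (fun j => ρ j.succ) v := rfl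

theorem test_primrec {n : ℕ} {f : List.Vector ℕ n → ℕ} (hf : Nat.Primrec' f) :
    ∀ (s : ℕ) (ρ : Fin n → ℕ) (o : ℕ), (∀ j, ρ j < s) → o < s →
      Test s (fun v => f (vec ρ v) = v o) := by
  induction hf with
  | zero => exact fun s ρ o _ _ => (test_zero s o).congr fun v _ => eq_comm
  | succ =>
    intro s ρ o hρ ho
    exact (test_succ (hρ 0) ho).congr fun v _ => by simp [vec]
  | get i =>
    intro s ρ o hρ ho
    exact (test_eq (hρ i) ho).congr fun v _ => by simp [vec]
  | @comp m n f g _ _ ihf ihg =>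
    intro s ρ o hρ ho
    have h1 : Test (s + n) (fun v => ∀ i : Fin n, g i (vec ρ v) = v (s + i)) :=
      test_forall fun i => ihg i _ ρ _ (fun j => (hρ j).trans_le (by omega)) (by omega)
    have h2 := ihf (s + n) (fun i => s + i) o (fun j => by omega) (by omega)
    refine ((h1.and h2).existsN n).congr fun v _ => ⟨?_, ?_⟩
    · rintro ⟨u, k1, k2, k3⟩
      rw [← vec_congr hρ (fun i hi => k1 i (Or.inl hi)), ← k1 o (Or.inl ho), ← k3]
      simp only [k2]
      rfl
    · intro k
      let u : Regs := fun i => if h : s ≤ i ∧ i < s + n then g ⟨i - s, by omega⟩ (vec ρ v) else v i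
      have hu : ∀ i, i < s ∨ s + n ≤ i → u i = v i := fun i hi => dif_neg (by omega)
      have hu2 : ∀ i : Fin n, u (s + i) = g i (vec ρ v) := fun i => by
        simp only [u]
        rw [dif_pos ⟨by omega, by omega⟩]
        simp
      have hu3 : vec ρ u = vec ρ v := vec_congr hρ fun i hi => hu i (Or.inl hi)
      refine ⟨u, hu, fun i => by rw [hu2, hu3], ?_⟩
      rw [hu o (Or.inl ho), ← k]
      simp only [hu2, vec]
  | @prec n f g _ _ ihf ihg =>
    intro s ρ o hρ ho
    let ρ' : Fin n → ℕ := fun j => ρ j.succ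
    have hρ' : ∀ j, ρ' j < s := fun j => hρ _
    let F : List.Vector ℕ n → ℕ → ℕ := fun x y => y.rec (f x) fun y IH => g (y ::ᵥ IH ::ᵥ x)
    have tg := ihg (s + 3) (Fin.cons s (Fin.cons (s + 1) ρ')) (s + 2) (by
      intro j
      refine Fin.cases (by simp) (fun j => ?_) j
      refine Fin.cases (by simp) (fun j => ?_) j
      have := hρ' j
      simp only [Fin.cons_succ]
      omega) (by omega)
    have body : Act (s + 3) (fun t t' => (∀ i, i < s ∨ s + 3 ≤ i → t' i = t i) ∧ t' s = t s + 1 ∧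
        t' (s + 1) = g (t s ::ᵥ t (s + 1) ::ᵥ vec ρ' t) ∧ t' (s + 2) = t' (s + 1)) := by
      refine ((act_havoc (r := s + 2) (by omega)).comp (Act.comp tg
        ((act_havoc (r := s + 1) (by omega)).comp
          (Act.comp (test_eq (i := s + 1) (j := s + 2) (by omega) (by omega))
            (act_inc (r := s) (by omega)))))).congr fun t _ t' => ⟨?_, ?_⟩
      · rintro ⟨t1, k1, _, ⟨k2, rfl⟩, t3, k3, _, ⟨k4, rfl⟩, rfl⟩
        rw [vec_cons, vec_cons, k1 s (by omega), k1 (s + 1) (by omega),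
          vec_congr hρ' (fun i hi => k1 i (by omega))] at k2
        refine ⟨fun i hi => ?_, ?_, ?_, ?_⟩
        · have : i ≠ s := by omega
          simp only [Pi.add_apply, ee, this, if_false, add_zero]
          rw [k3 i (by omega), k1 i (by omega)]
        · simp only [Pi.add_apply, ee, if_true]
          rw [k3 s (by omega), k1 s (by omega)]
        · simp [ee, k4, k3, k2]
        · simp [ee, k4]
      · rintro ⟨k1, k2, k3, k4⟩
        refine ⟨Function.update t (s + 2) (t' (s + 1)), fun i hi => by simp [hi], _, ⟨?_, rfl⟩,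
          Function.update (Function.update t (s + 2) (t' (s + 1))) (s + 1) (t' (s + 1)),
          fun i hi => by simp [hi], _, ⟨by simp, rfl⟩, ?_⟩
        · beta_reduce
          rw [vec_cons, vec_cons, vec_congr hρ' (v := t)
            (fun i hi => Function.update_of_ne (by omega) _ _)]
          simp [k3]
        · funext i
          by_cases e0 : i = s
          · simp [ee, e0, k2]
          · by_cases e1 : i = s + 1
            · simp [ee, e1]
            · by_cases e2 : i = s + 2
              · simp [ee, e2, k4]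
              · simp [ee, e0, e1, e2, k1 i (by omega)]
    have all := (act_havoc (s := s + 3) (r := s + 1) (by omega)).comp
      (Act.comp (ihf (s + 3) ρ' (s + 1) (fun j => (hρ' j).trans_le (by omega)) (by omega))
        (body.star.comp ((test_eq (i := s) (j := ρ 0) (by omega) ((hρ 0).trans_le (by omega))).and
          (test_eq (i := s + 1) (j := o) (by omega) (by omega)))))
    have inv : ∀ (x : List.Vector ℕ n) (t t' : Regs), vec ρ' t = x → t (s + 1) = F x (t s) →
        ReflTransGen (fun t t' : Regs => (∀ i, i < s ∨ s + 3 ≤ i → t' i = t i) ∧ t' s = t s + 1 ∧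
        t' (s + 1) = g (t s ::ᵥ t (s + 1) ::ᵥ vec ρ' t) ∧ t' (s + 2) = t' (s + 1)) t t' →
        (∀ i < s, t' i = t i) ∧ t' (s + 1) = F x (t' s) := by
      intro x t t' h1 h2 k
      induction k with
      | refl => exact ⟨fun _ _ => rfl, h2⟩
      | tail _ k ih =>
        refine ⟨fun i hi => (k.1 i (Or.inl hi)).trans (ih.1 i hi), ?_⟩
        rw [k.2.2.1, k.2.1, vec_congr hρ' ih.1, h1, ih.2]
    have run : ∀ (x : List.Vector ℕ n) (t : Regs), vec ρ' t = x → t (s + 1) = f x → t s = 0 →
        ∀ y, ∃ t', ReflTransGen (fun t t' : Regs => (∀ i, i < s ∨ s + 3 ≤ i → t' i = t i) ∧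
        t' s = t s + 1 ∧ t' (s + 1) = g (t s ::ᵥ t (s + 1) ::ᵥ vec ρ' t) ∧
        t' (s + 2) = t' (s + 1)) t t' ∧ t' s = y := by
      intro x t _ _ h3 y
      induction y with
      | zero => exact ⟨t, ReflTransGen.refl, h3⟩
      | succ y ih =>
        obtain ⟨t', k1, k2⟩ := ih
        refine ⟨fun i => if i = s then y + 1 else if i = s + 1 ∨ i = s + 2 then
          g (t' s ::ᵥ t' (s + 1) ::ᵥ vec ρ' t') else t' i, k1.tail ⟨fun i hi => ?_, ?_, ?_, ?_⟩, ?_⟩
        · rw [if_neg (by omega), if_neg (by omega)]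
        · simp [k2]
        · simp
        · simp
        · simp
    refine (all.toTestN 3 ?_).congr fun v hv => ⟨?_, ?_⟩
    · rintro v t' hv ⟨_, k1, t, ⟨k2, rfl⟩, _, k3, -, rfl⟩ i hi
      have k0 : t s = 0 := by rw [k1 s (by omega), hv s le_rfl]
      rw [(inv _ _ _ rfl (by rw [k0, ← k2]; rfl) k3).1 i hi, k1 i (by omega)]
    · rintro ⟨_, _, k1, t, ⟨k2, rfl⟩, t', k3, ⟨k4, k5⟩, -⟩
      have k0 : t s = 0 := by rw [k1 s (by omega), hv s le_rfl]
      obtain ⟨i1, i2⟩ := inv _ _ _ rfl (by rw [k0, ← k2]; rfl) k3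
      have e : ∀ i < s, t' i = v i := fun i hi => (i1 i hi).trans (k1 i (by omega))
      change F (vec ρ' v) (v (ρ 0)) = v o
      rw [← e o ho, ← k5, i2, k4, e _ (hρ 0), vec_congr hρ' (fun i hi => k1 i (by omega))]
    · intro k
      change F (vec ρ' v) (v (ρ 0)) = v o at k
      have e0 : vec ρ' (Function.update v (s + 1) (f (vec ρ' v))) = vec ρ' v :=
        vec_congr hρ' fun i hi => Function.update_of_ne (by omega) _ _
      have e1 : Function.update v (s + 1) (f (vec ρ' v)) s = 0 := by simp [hv s le_rfl]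
      obtain ⟨t', k1, k2⟩ := run _ _ e0 (by simp) e1 (v (ρ 0))
      obtain ⟨i1, i2⟩ := inv _ _ _ e0 (by rw [e1]; simp [F]) k1
      have e : ∀ i < s, t' i = v i := fun i hi =>
        (i1 i hi).trans (Function.update_of_ne (by omega) _ _)
      refine ⟨t', _, fun i hi => Function.update_of_ne hi _ _, _,
        ⟨by beta_reduce; rw [e0]; simp, rfl⟩, t', k1,
        ⟨by rw [k2, e _ (hρ 0)], ?_⟩, rfl⟩
      rw [i2, k2, e o ho, ← k]

open Nat.Partrec Nat.Partrec.Code in
/-- a counter machine with regular control whose halting set is not computable -/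
theorem exists_machine : ∃ (L : Language ℕ) (M : ℕ), L.IsRegular ∧ (∀ w ∈ L, ∀ o ∈ w, o < M) ∧
    ¬ ComputablePred fun n : ℕ => ∃ w ∈ L, ∃ v', Exec w (n • ee 0) v' := by
  have hg : Primrec₂ fun n k : ℕ =>
      cond (evaln k (Denumerable.ofNat Code n) 0).isSome 0 1 := by
    refine Primrec.cond (Primrec.option_isSome.comp (primrec_evaln.comp
      ((Primrec.snd.pair ((Primrec.ofNat Code).comp Primrec.fst)).pair (Primrec.const 0))))
      (Primrec.const 0) (Primrec.const 1)
  have h1 := test_primrec (Nat.Primrec'.prim_iff₂.2 hg) 3 ![0, 2] 1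
    (by intro j; fin_cases j <;> simp) (by omega)
  obtain ⟨-, R, ⟨L, hL, ⟨M, hM⟩, hR⟩, h2⟩ := Test.exists h1
  refine ⟨L, M, hL, hM, fun hc => ComputablePred.halting_problem 0 ?_⟩
  have hz : ∀ n : ℕ, Z 2 (n • ee 0) := fun n i hi => by
    have : i ≠ 0 := by omega
    simp [ee, this]
  have key : ∀ c : Code, (∃ w ∈ L, ∃ v', Exec w (Encodable.encode c • ee 0) v') ↔
      (eval c 0).Dom := by
    intro c
    have : (∃ w ∈ L, ∃ v', Exec w (Encodable.encode c • ee 0) v') ↔
        ∃ v', R (Encodable.encode c • ee 0) v' := by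
      simp only [hR]
      tauto
    rw [this]
    simp only [h2 _ (hz _), exists_and_left, exists_eq, and_true]
    simp [vec, ee, Part.dom_iff_mem, evaln_complete]
    constructor
    · rintro ⟨z, hz⟩
      cases e : evaln z c 0 with
      | none => simp [e] at hz
      | some y => exact ⟨y, z, e⟩
    · rintro ⟨y, z, e⟩
      exact ⟨z, by simp [e]⟩
  obtain ⟨inst, hc⟩ := hc
  refine ⟨fun c => decidable_of_iff _ (key c), ?_⟩
  exact (hc.comp Computable.encode).of_eq fun c => decide_eq_decide.2 (key c)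

end Pool.Agent.MP_dd548e_lc
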