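import Mathlib

namespace Pool.Agent.MP_dd548e_lc

open Language Computability

variable {α : Type}

lemma regular_single (a : α) : Language.IsRegular ({[a]} : Language α) := by
  apply Language.IsRegular.of_finite_range_leftQuotient
  refine (Set.toFinite ({({[a]} : Language α), ({[]} : Language α), (0 : Language α)} :
    Set (Language α))).subset ?_
  rintro _ ⟨x, rfl⟩
  rcases x with _ | ⟨b, x⟩
  · exact Or.inl rfl
  · by_cases h : b = a ∧ x = []
    · obtain ⟨rfl, rfl⟩ := h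
      refine Or.inr (Or.inl ?_)
      ext y
      rw [mem_leftQuotient]
      change [b] ++ y = [b] ↔ y = []
      simp
    · refine Or.inr (Or.inr ?_)
      rw [Set.mem_singleton_iff]
      ext y
      rw [mem_leftQuotient]
      change b :: x ++ y = [a] ↔ y ∈ (0 : Language α)
      simp only [List.cons_append, List.cons.injEq, List.append_eq_nil_iff, Language.notMem_zero,
        iff_false]
      tauto

lemma regular_mul {L M : Language α} (hL : L.IsRegular) (hM : M.IsRegular) :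
    (L * M).IsRegular := by
  apply Language.IsRegular.of_finite_range_leftQuotient
  let Φ : Language α × Set (Language α) → Language α :=
    fun p => {y | y ∈ p.1 * M ∨ ∃ K ∈ p.2, y ∈ K}
  refine ((hL.finite_range_leftQuotient.prod
    hM.finite_range_leftQuotient.finite_subsets).image Φ).subset ?_
  rintro _ ⟨x, rfl⟩
  refine ⟨(L.leftQuotient x, {K | ∃ u v, u ++ v = x ∧ u ∈ L ∧ K = M.leftQuotient v}),
    ⟨⟨x, rfl⟩, ?_⟩, ?_⟩
  · rintro K ⟨u, v, -, -, rfl⟩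
    exact ⟨v, rfl⟩
  · ext y
    rw [mem_leftQuotient, Language.mem_mul]
    change (y ∈ L.leftQuotient x * M ∨ ∃ K ∈ {K | ∃ u v, u ++ v = x ∧ u ∈ L ∧
      K = M.leftQuotient v}, y ∈ K) ↔ _
    rw [Language.mem_mul]
    constructor
    · rintro (⟨a, ha, b, hb, rfl⟩ | ⟨_, ⟨u, v, rfl, hu, rfl⟩, hy⟩)
      · exact ⟨x ++ a, ha, b, hb, by simp⟩
      · exact ⟨u, hu, v ++ y, hy, by simp⟩
    · rintro ⟨a, ha, b, hb, h⟩
      rcases List.append_eq_append_iff.1 h with ⟨c, rfl, rfl⟩ | ⟨c, rfl, rfl⟩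
      · exact Or.inr ⟨_, ⟨a, c, rfl, ha, rfl⟩, hb⟩
      · exact Or.inl ⟨c, ha, b, hb, rfl⟩

lemma kstar_nil (L : Language α) : [] ∈ L∗ := Language.nil_mem_kstar L

lemma kstar_cons {L : Language α} {a b : List α} (ha : a ∈ L) (hb : b ∈ L∗) : a ++ b ∈ L∗ := by
  obtain ⟨S, rfl, hS⟩ := Language.mem_kstar.1 hb
  refine Language.mem_kstar.2 ⟨a :: S, by simp, ?_⟩
  intro y hy
  rcases List.mem_cons.1 hy with rfl | hy
  · exact ha
  · exact hS y hy

lemma kstar_induction {L : Language α} {P : List α → Prop} (h0 : P [])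
    (h1 : ∀ a b, a ∈ L → b ∈ L∗ → P b → P (a ++ b)) : ∀ w ∈ L∗, P w := by
  intro w hw
  obtain ⟨S, rfl, hS⟩ := Language.mem_kstar.1 hw
  clear hw
  induction S with
  | nil => exact h0
  | cons a S ih =>
    have hS' : ∀ y ∈ S, y ∈ L := fun y hy => hS y (List.mem_cons_of_mem _ hy)
    exact h1 a _ (hS a List.mem_cons_self) (Language.mem_kstar.2 ⟨S, rfl, hS'⟩) (ih hS')

lemma kstar_append {L : Language α} {a b : List α} (ha : a ∈ L∗) (hb : b ∈ L∗) : a ++ b ∈ L∗ := by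
  refine kstar_induction (P := fun a => a ++ b ∈ L∗) (by simpa using hb) ?_ a ha
  intro x y hx _ ih
  rw [List.append_assoc]
  exact kstar_cons hx ih

lemma kstar_split {L : Language α} : ∀ w ∈ L∗, ∀ x y, x ++ y = w →
    (x ∈ L∗ ∧ y ∈ L∗) ∨ ∃ u v y1 y2, u ++ v = x ∧ u ∈ L∗ ∧ y1 ++ y2 = y ∧ v ++ y1 ∈ L ∧ y2 ∈ L∗ := by
  refine kstar_induction ?_ ?_
  · intro x y h
    obtain ⟨rfl, rfl⟩ := List.append_eq_nil_iff.1 h
    exact Or.inl ⟨kstar_nil _, kstar_nil _⟩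
  · intro a b ha hb ih x y h
    rcases List.append_eq_append_iff.1 h with ⟨c, rfl, rfl⟩ | ⟨c, rfl, rfl⟩
    · exact Or.inr ⟨[], x, c, b, rfl, kstar_nil _, rfl, ha, hb⟩
    · rcases ih c y rfl with ⟨h1, h2⟩ | ⟨u, v, y1, y2, rfl, h1, rfl, h2, h3⟩
      · exact Or.inl ⟨kstar_cons ha h1, h2⟩
      · exact Or.inr ⟨a ++ u, v, y1, y2, by simp, kstar_cons ha h1, rfl, h2, h3⟩

lemma regular_kstar {L : Language α} (hL : L.IsRegular) : (L∗).IsRegular := by
  apply Language.IsRegular.of_finite_range_leftQuotient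
  let Φ : Prop × Set (Language α) → Language α :=
    fun p => {y | (p.1 ∧ y ∈ L∗) ∨ ∃ K ∈ p.2, y ∈ K * L∗}
  refine (((Set.toFinite (Set.univ : Set Prop)).prod
    hL.finite_range_leftQuotient.finite_subsets).image Φ).subset ?_
  rintro _ ⟨x, rfl⟩
  refine ⟨(x ∈ L∗, {K | ∃ u v, u ++ v = x ∧ u ∈ L∗ ∧ K = L.leftQuotient v}),
    ⟨trivial, ?_⟩, ?_⟩
  · rintro K ⟨u, v, -, -, rfl⟩
    exact ⟨v, rfl⟩
  · ext y
    rw [mem_leftQuotient]
    change ((x ∈ L∗ ∧ y ∈ L∗) ∨ ∃ K ∈ {K | ∃ u v, u ++ v = x ∧ u ∈ L∗ ∧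
      K = L.leftQuotient v}, y ∈ K * L∗) ↔ _
    constructor
    · rintro (⟨h1, h2⟩ | ⟨_, ⟨u, v, rfl, hu, rfl⟩, hy⟩)
      · exact kstar_append h1 h2
      · obtain ⟨a, ha, b, hb, rfl⟩ := Language.mem_mul.1 hy
        have := kstar_append hu (kstar_cons ha hb)
        simpa using this
    · intro h
      rcases kstar_split _ h x y rfl with h | ⟨u, v, y1, y2, h1, h2, h3, h4, h5⟩
      · exact Or.inl h
      · exact Or.inr ⟨_, ⟨u, v, h1, h2, rfl⟩, Language.mem_mul.2 ⟨y1, h4, y2, h5, h3⟩⟩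

end Pool.Agent.MP_dd548e_lc
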