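import Pool.Agent.MP_dd548e_lc.Prim

namespace Pool.Agent.MP_dd548e_lc

/-- acceptance by a blind one-counter automaton: a transition with weight `t` adds `t - 1` -/
inductive Acc {Q : Type} (δ : Q → ℕ → ℕ → Q → Prop) (F : Q → Prop) : Q → List ℕ → ℤ → Prop
  | nil (q : Q) : F q → Acc δ F q [] 0
  | cons (q : Q) (o t : ℕ) (q' : Q) (w : List ℕ) (z : ℤ) :
      δ q o t q' → Acc δ F q' w (z + t - 1) → Acc δ F q (o :: w) z

/-- states of the error detecting automaton -/
inductive St (σ : Type) (m : ℕ) : Type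
  | dfa (s : σ) : St σ m
  | cntA (r : Fin m) : St σ m
  | cntB (r : Fin m) : St σ m
  | wait (r : Fin m) : St σ m
  | done : St σ m

instance {σ : Type} [Finite σ] (m : ℕ) : Finite (St σ m) :=
  Finite.of_surjective (fun x : σ ⊕ Fin m ⊕ Fin m ⊕ Fin m ⊕ Unit => match x with
    | .inl s => St.dfa s
    | .inr (.inl r) => St.cntA r
    | .inr (.inr (.inl r)) => St.cntB r
    | .inr (.inr (.inr (.inl r))) => St.wait r
    | .inr (.inr (.inr (.inr _))) => St.done) (by
      rintro (s | r | r | r | _)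
      exacts [⟨.inl s, rfl⟩, ⟨.inr (.inl r), rfl⟩, ⟨.inr (.inr (.inl r)), rfl⟩,
        ⟨.inr (.inr (.inr (.inl r))), rfl⟩, ⟨.inr (.inr (.inr (.inr ()))), rfl⟩])

def eff (r o : ℕ) : ℕ := if o = 3 * r then 2 else if o = 3 * r + 1 then 0 else 1

lemma step_eff {o : ℕ} {v u : Regs} (h : Step o v u) (r : ℕ) : (u r : ℤ) = v r + eff r o - 1 := by
  unfold eff
  rcases h with ⟨h, rfl⟩ | ⟨h, rfl⟩ | ⟨h, -, rfl⟩
  · simp only [Pi.add_apply, ee]
    split_ifs <;> omega
  · simp only [Pi.add_apply, ee]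
    split_ifs <;> omega
  · split_ifs <;> omega

variable {σ : Type} {m : ℕ}

inductive Tr (D : DFA ℕ σ) : St σ m → ℕ → ℕ → St σ m → Prop
  | dfa (s : σ) (o : ℕ) : Tr D (.dfa s) o 1 (.dfa (D.step s o))
  | cntA (r : Fin m) (o : ℕ) : Tr D (.cntA r) o (eff r o) (.cntA r)
  | exitA (r : Fin m) : Tr D (.cntA r) (3 * r + 1) 1 .done
  | cntB (r : Fin m) (o : ℕ) : Tr D (.cntB r) o (eff r o) (.cntB r)
  | exitB (r : Fin m) : Tr D (.cntB r) (3 * r + 2) 1 .done
  | wait (r : Fin m) (o : ℕ) : Tr D (.wait r) o 1 (.wait r)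
  | start (r : Fin m) : Tr D (.wait r) (3 * r) 1 (.cntB r)
  | done (o : ℕ) : Tr D .done o 1 .done

def Fin' (D : DFA ℕ σ) : St σ m → Prop
  | .dfa s => s ∉ D.accept
  | .done => True
  | _ => False

variable (D : DFA ℕ σ)

lemma tr_le {q q' : St σ m} {o t : ℕ} (h : Tr D q o t q') : t ≤ 2 := by
  cases h <;> first | omega | (unfold eff; split_ifs <;> omega)

lemma acc_done (w : List ℕ) (z : ℤ) : Acc (Tr D) (Fin' D) (St.done : St σ m) w z ↔ z = 0 := by
  induction w generalizing z with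
  | nil =>
    constructor
    · intro h; cases h; rfl
    · rintro rfl; exact Acc.nil _ trivial
  | cons o w ih =>
    constructor
    · intro h
      cases h with
      | cons _ _ t q' _ _ h1 h2 =>
        cases h1
        simpa using (ih _).1 h2
    · rintro rfl
      exact Acc.cons _ _ _ _ _ _ (Tr.done o) ((ih _).2 (by simp))

lemma acc_dfa (s : σ) (w : List ℕ) :
    Acc (Tr D) (Fin' D) (St.dfa s : St σ m) w 0 ↔ D.evalFrom s w ∉ D.accept := by
  induction w generalizing s with
  | nil =>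
    constructor
    · intro h; cases h; assumption
    · intro h; exact Acc.nil _ h
  | cons o w ih =>
    constructor
    · intro h
      cases h with
      | cons _ _ t q' _ _ h1 h2 =>
        cases h1
        exact (ih _).1 (by simpa using h2)
    · intro h
      exact Acc.cons _ _ _ _ _ _ (Tr.dfa s o) (by simpa using (ih _).2 h)

lemma sound (w : List ℕ) (v v' : Regs) (h : Exec w v v') (r : Fin m) :
    ¬ Acc (Tr D) (Fin' D) (St.cntA r) w (v r) ∧
    (∀ z : ℤ, z < v r → ¬ Acc (Tr D) (Fin' D) (St.cntB r) w z) ∧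
    ¬ Acc (Tr D) (Fin' D) (St.wait r) w 0 := by
  induction w generalizing v with
  | nil => exact ⟨fun k => by generalize (v r : ℤ) = z at k; cases k; assumption,
      fun z _ k => by cases k; assumption, fun k => by cases k; assumption⟩
  | cons o w ih =>
    obtain ⟨u, h1, h2⟩ := h
    obtain ⟨i1, i2, i3⟩ := ih u h2
    have e := step_eff h1 r
    refine ⟨fun k => ?_, fun z hz k => ?_, fun k => ?_⟩
    · cases k with
      | cons _ _ t q' _ _ k1 k2 =>
        cases k1 with
        | cntA => exact i1 (e ▸ k2)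
        | exitA =>
          rw [acc_done] at k2
          simp only [eff] at e
          split_ifs at e <;> omega
    · cases k with
      | cons _ _ t q' _ _ k1 k2 =>
        cases k1 with
        | cntB => exact i2 _ (by omega) k2
        | exitB =>
          rw [acc_done] at k2
          rcases h1 with ⟨h, -⟩ | ⟨h, -⟩ | ⟨-, h, -⟩
          · omega
          · omega
          · rw [show (3 * r.val + 2) / 3 = r by omega] at h
            omega
    · cases k with
      | cons _ _ t q' _ _ k1 k2 =>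
        cases k1 with
        | wait => exact i3 (by simpa using k2)
        | start => exact i2 _ (by simp [eff] at e; omega) k2

lemma complete (w : List ℕ) (hw : ∀ o ∈ w, o < m) (v : Regs) (h : ¬ ∃ v', Exec w v v') :
    ∃ r : Fin m, Acc (Tr D) (Fin' D) (St.cntA r) w (v r) ∨
      (∃ z : ℕ, z < v r ∧ Acc (Tr D) (Fin' D) (St.cntB r) w z) ∨
      Acc (Tr D) (Fin' D) (St.wait r) w 0 := by
  induction w generalizing v with
  | nil => exact absurd ⟨v, rfl⟩ h
  | cons o w ih =>
    by_cases hs : ∃ u, Step o v u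
    · obtain ⟨u, hu⟩ := hs
      obtain ⟨r, k⟩ := ih (fun o ho => hw o (List.mem_cons_of_mem _ ho)) u
        fun ⟨v', k⟩ => h ⟨v', u, hu, k⟩
      have e := step_eff hu r
      refine ⟨r, ?_⟩
      rcases k with k | ⟨z, hz, k⟩ | k
      · exact Or.inl (Acc.cons _ _ _ _ _ _ (Tr.cntA r o) (e ▸ k))
      · by_cases h0 : o = 3 * r ∧ z = 0
        · obtain ⟨rfl, rfl⟩ := h0
          exact Or.inr (Or.inr (Acc.cons _ _ _ _ _ _ (Tr.start r) (by simpa using k)))
        · have h3 : eff r o ≤ z + 1 := by unfold eff; split_ifs <;> omega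
          refine Or.inr (Or.inl ⟨z + 1 - eff r o, by omega,
            Acc.cons _ _ _ _ _ _ (Tr.cntB r o) ?_⟩)
          rwa [show ((z + 1 - eff r o : ℕ) : ℤ) + eff r o - 1 = z by omega]
      · exact Or.inr (Or.inr (Acc.cons _ _ _ _ _ _ (Tr.wait r o) (by simpa using k)))
    · have ho : o / 3 < m := lt_of_le_of_lt (Nat.div_le_self _ _) (hw o List.mem_cons_self)
      refine ⟨⟨o / 3, ho⟩, ?_⟩
      have h3 : o % 3 = 0 ∨ o % 3 = 1 ∨ o % 3 = 2 := by omega
      rcases h3 with h3 | h3 | h3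
      · exact absurd ⟨_, Or.inl ⟨h3, rfl⟩⟩ hs
      · have h0 : v (o / 3) = 0 := by
          by_contra h0
          refine hs ⟨v - ee (o / 3), Or.inr (Or.inl ⟨h3, funext fun i => ?_⟩)⟩
          simp only [Pi.add_apply, Pi.sub_apply, ee]
          split_ifs with hi
          · rw [hi]; omega
          · omega
        have := Tr.exitA (D := D) ⟨o / 3, ho⟩
        rw [show 3 * (o / 3) + 1 = o by omega] at this
        exact Or.inl (Acc.cons _ _ _ _ _ _ this ((acc_done D _ _).2 (by simp [h0])))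
      · have h0 : v (o / 3) ≠ 0 := fun h0 => hs ⟨v, Or.inr (Or.inr ⟨h3, h0, rfl⟩)⟩
        have := Tr.exitB (D := D) ⟨o / 3, ho⟩
        rw [show 3 * (o / 3) + 2 = o by omega] at this
        exact Or.inr (Or.inl ⟨0, Nat.pos_of_ne_zero h0,
          Acc.cons _ _ _ _ _ _ this ((acc_done D _ _).2 (by simp))⟩)

/-- a fixed weighted automaton whose universality, as a function of the initial weight,
is not computable -/
theorem exists_automaton : ∃ (Q : Type) (_ : Finite Q) (δ : Q → ℕ → ℕ → Q → Prop) (F : Q → Prop)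
    (M : ℕ) (I : Q → Prop) (qA qB : Q), 0 < M ∧ (∀ q o t q', δ q o t q' → t ≤ 2) ∧
    ¬ ComputablePred fun n : ℕ => ∃ w : List ℕ, (∀ o ∈ w, o < M) ∧
      ¬ ((∃ q, I q ∧ Acc δ F q w 0) ∨ Acc δ F qA w n ∨ ∃ z : ℕ, z < n ∧ Acc δ F qB w z) := by
  obtain ⟨L, M, ⟨σ, _, D, rfl⟩, hM, hc⟩ := exists_machine
  refine ⟨St σ (M + 1), inferInstance, Tr D, Fin' D, M + 1,
    fun q => q = .dfa D.start ∨ (∃ r, r ≠ 0 ∧ q = .cntA r) ∨ ∃ r, q = .wait r,
    .cntA 0, .cntB 0, Nat.succ_pos _, fun _ _ _ _ h => tr_le D h, ?_⟩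
  convert hc using 3 with n
  constructor
  · rintro ⟨w, hw, h⟩
    simp only [not_or, not_exists, not_and] at h
    obtain ⟨h1, h2, h3⟩ := h
    refine ⟨w, ?_, ?_⟩
    · have := h1 _ (Or.inl rfl)
      rw [acc_dfa, not_not] at this
      exact this
    · by_contra hn
      obtain ⟨r, k | ⟨z, hz, k⟩ | k⟩ := complete D w hw _ hn
      · by_cases hr : r = 0
        · subst hr
          exact h2 (by simpa [ee] using k)
        · have hr' : r.val ≠ 0 := fun e => hr (Fin.ext e)
          exact h1 _ (Or.inr (Or.inl ⟨r, hr, rfl⟩)) (by simpa [ee, hr'] using k)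
      · by_cases hr : r = 0
        · subst hr
          exact h3 z (by simpa [ee] using hz) k
        · have hr' : r.val ≠ 0 := fun e => hr (Fin.ext e)
          simp [ee, hr'] at hz
      · exact h1 _ (Or.inr (Or.inr ⟨r, rfl⟩)) k
  · rintro ⟨w, hw, v', h⟩
    refine ⟨w, fun o ho => (hM w hw o ho).trans (Nat.lt_succ_self _), ?_⟩
    rintro (⟨q, rfl | ⟨r, hr, rfl⟩ | ⟨r, rfl⟩, k⟩ | k | ⟨z, hz, k⟩)
    · exact (acc_dfa D _ _).1 k hw
    · have hr' : r.val ≠ 0 := fun e => hr (Fin.ext e)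
      exact (sound D w _ _ h r).1 (by simpa [ee, hr'] using k)
    · exact (sound D w _ _ h r).2.2 k
    · refine (sound D w _ _ h (0 : Fin (M + 1))).1 ?_
      rwa [show (n • ee 0) (0 : Fin (M + 1)) = n by simp [ee]]
    · exact (sound D w _ _ h 0).2.1 z (by simpa [ee] using hz) k

end Pool.Agent.MP_dd548e_lc
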