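import Pool.Agent.MP_dd548e_lc.Weighted

namespace Pool.Agent.MP_dd548e_lc

open List

/-- the block `x^N y` -/
def blk (N : ℕ) : List ℕ := replicate N 2 ++ [3]

/-- powers of the block -/
def pw (N : ℕ) : ℕ → List ℕ
  | 0 => []
  | k + 1 => blk N ++ pw N k

lemma pw_add (N a b : ℕ) : pw N (a + b) = pw N a ++ pw N b := by
  induction a with
  | zero => simp [pw]
  | succ a ih => rw [Nat.succ_add, pw, pw, ih, append_assoc]

lemma pw_one (N : ℕ) : pw N 1 = blk N := by simp [pw]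

lemma blk_pw (N a : ℕ) (u : List ℕ) : blk N ++ (pw N a ++ u) = pw N a ++ (blk N ++ u) := by
  rw [← append_assoc, ← append_assoc, ← pw_one, ← pw_add, ← pw_add, add_comm]

lemma rep_inj (a b : ℕ) (u u' : List ℕ) (h : replicate a 2 ++ 3 :: u = replicate b 2 ++ 3 :: u') :
    a = b ∧ u = u' := by
  induction a generalizing b with
  | zero => cases b <;> simp_all [replicate_succ]
  | succ a ih =>
    cases b with
    | zero => simp [replicate_succ] at h
    | succ b =>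
      simp only [replicate_succ, cons_append, cons.injEq, true_and] at h
      exact ⟨by rw [(ih b h).1], (ih b h).2⟩

lemma strip {N a m : ℕ} {u : List ℕ} (h : replicate a 2 ++ 3 :: u = pw N m) :
    ∃ m', m = m' + 1 ∧ a = N ∧ u = pw N m' := by
  cases m with
  | zero => simp [pw] at h
  | succ m =>
    rw [pw, blk, append_assoc, singleton_append] at h
    exact ⟨m, rfl, rep_inj _ _ _ _ h⟩

lemma strip_pw {N t m : ℕ} {u : List ℕ} (h : pw N t ++ u = pw N m) :
    ∃ m', m = t + m' ∧ u = pw N m' := by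
  induction t generalizing m with
  | zero => exact ⟨m, by simp, h⟩
  | succ t ih =>
    rw [pw, blk, append_assoc, append_assoc, singleton_append] at h
    obtain ⟨m', rfl, -, h⟩ := strip h
    obtain ⟨m'', rfl, h'⟩ := ih h
    exact ⟨m'', by omega, h'⟩

lemma pw_eq_nil {N m : ℕ} (h : [] = pw N m) : m = 0 := by
  cases m with
  | zero => rfl
  | succ m => simp [pw, blk] at h

lemma pw_letters {N m : ℕ} : ∀ l ∈ pw N m, l = 2 ∨ l = 3 := by
  induction m with
  | zero => simp [pw]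
  | succ m ih =>
    intro l hl
    simp only [pw, blk, mem_append, mem_replicate, mem_singleton] at hl
    rcases hl with (h | h) | h
    exacts [Or.inl h.2, Or.inr h, ih l h]

/-- the data of a weighted automaton with numbered states -/
structure WA (Q : Type) where
  δ : Q → ℕ → ℕ → Q → Prop
  F : Q → Prop
  N : ℕ
  idx : Q → ℕ
  inj : Function.Injective idx
  pos : ∀ q, 0 < idx q
  le : ∀ q, idx q ≤ N

namespace WA

variable {Q : Type} (A : WA Q)

def al (q : Q) : List ℕ := replicate (A.idx q) 2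
def be (q : Q) : List ℕ := replicate (A.N - A.idx q) 2 ++ [3]

lemma al_be (q : Q) : A.al q ++ A.be q = blk A.N := by
  rw [al, be, ← append_assoc, replicate_append_replicate, Nat.add_sub_cancel' (A.le q), blk]

def U0 (o : ℕ) (u : List ℕ) : Prop := ∃ q t q', A.δ q o t q' ∧ u = A.be q ++ (pw A.N t ++ A.al q')
def B (o : ℕ) (u : List ℕ) : Prop :=
  A.U0 o u ∨ (∃ u0, A.U0 o u0 ∧ u = blk A.N ++ u0) ∨ u = pw A.N 2
def C0 (u : List ℕ) : Prop := ∃ q, A.F q ∧ u = A.be q
def C (u : List ℕ) : Prop := A.C0 u ∨ (∃ u0, A.C0 u0 ∧ u = blk A.N ++ u0) ∨ u = blk A.N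

def Tail : List ℕ → List ℕ → Prop
  | [], u => A.C u
  | o :: w, u => ∃ b r, A.B o b ∧ Tail w r ∧ u = b ++ r

lemma tail_pw (w : List ℕ) : A.Tail w (pw A.N (2 * w.length + 1)) := by
  induction w with
  | nil => exact Or.inr (Or.inr (pw_one _))
  | cons o w ih =>
    exact ⟨_, _, Or.inr (Or.inr rfl), ih, by rw [← pw_add, length_cons]; congr 1; omega⟩

lemma tail_shift {w u : List ℕ} (h : A.Tail w u) : u = pw A.N (2 * w.length + 1) ∨
    A.Tail w (blk A.N ++ u) ∨ ∃ u', A.Tail w u' ∧ u = blk A.N ++ u' := by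
  induction w generalizing u with
  | nil =>
    rcases h with h | ⟨u0, h, rfl⟩ | rfl
    · exact Or.inr (Or.inl (Or.inr (Or.inl ⟨u, h, rfl⟩)))
    · exact Or.inr (Or.inr ⟨u0, Or.inl h, rfl⟩)
    · exact Or.inl (pw_one _).symm
  | cons o w ih =>
    obtain ⟨b, r, hb, hr, rfl⟩ := h
    rcases hb with h | ⟨u0, h, rfl⟩ | rfl
    · exact Or.inr (Or.inl ⟨_, r, Or.inr (Or.inl ⟨b, h, rfl⟩), hr, (append_assoc _ _ _).symm⟩)
    · exact Or.inr (Or.inr ⟨u0 ++ r, ⟨u0, r, Or.inl h, hr, rfl⟩, append_assoc _ _ _⟩)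
    · rcases ih hr with rfl | k | ⟨u', k, rfl⟩
      · exact Or.inl (by rw [← pw_add, length_cons]; congr 1; omega)
      · exact Or.inr (Or.inl ⟨_, _, Or.inr (Or.inr rfl), k, blk_pw _ _ _⟩)
      · exact Or.inr (Or.inr ⟨_, ⟨_, _, Or.inr (Or.inr rfl), k, rfl⟩, (blk_pw _ _ _).symm⟩)

lemma tail_of_acc {q : Q} {w : List ℕ} {z : ℤ} (h : Acc A.δ A.F q w z) :
    ∃ (m : ℕ) (u : List ℕ), m + z = 2 * w.length + 1 ∧ A.Tail w u ∧ A.al q ++ u = pw A.N m := by
  induction h with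
  | nil q hq => exact ⟨1, A.be q, by simp, Or.inl ⟨q, hq, rfl⟩, by rw [al_be, pw_one]⟩
  | cons q o t q' w z h _ ih =>
    obtain ⟨m, u, k1, k2, k3⟩ := ih
    refine ⟨1 + (t + m), _, by simp only [length_cons]; push_cast; omega,
      ⟨_, u, Or.inl ⟨q, t, q', h, rfl⟩, k2, rfl⟩, ?_⟩
    rw [pw_add, pw_add, pw_one, ← k3, ← A.al_be q]
    simp only [append_assoc]

lemma decode {w u : List ℕ} (h : A.Tail w u) {j m : ℕ} (e : replicate j 2 ++ u = pw A.N m) :
    (j = 0 ∧ m = 2 * w.length + 1) ∨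
      ∃ q, j = A.idx q ∧ Acc A.δ A.F q w (2 * w.length + 1 - m) := by
  have hbe : ∀ (q : Q) (j m : ℕ) (r : List ℕ), replicate j 2 ++ (A.be q ++ r) = pw A.N m →
      j = A.idx q ∧ ∃ m', m = m' + 1 ∧ r = pw A.N m' := by
    intro q j m r e
    rw [be, append_assoc, ← append_assoc, replicate_append_replicate, singleton_append] at e
    obtain ⟨m', h1, h2, h3⟩ := strip e
    have := A.le q
    exact ⟨by omega, m', h1, h3⟩
  have hblk : ∀ (j m : ℕ) (r : List ℕ), replicate j 2 ++ (blk A.N ++ r) = pw A.N m →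
      j = 0 ∧ ∃ m', m = m' + 1 ∧ r = pw A.N m' := by
    intro j m r e
    rw [blk, append_assoc, ← append_assoc, replicate_append_replicate, singleton_append] at e
    obtain ⟨m', h1, h2, h3⟩ := strip e
    exact ⟨by omega, m', h1, h3⟩
  induction w generalizing u j m with
  | nil =>
    rcases h with ⟨q, hq, rfl⟩ | ⟨_, ⟨q, hq, rfl⟩, rfl⟩ | rfl
    · obtain ⟨h1, m', rfl, h2⟩ := hbe q j m [] (by simpa using e)
      obtain rfl := pw_eq_nil h2
      exact Or.inr ⟨q, h1, by simpa using Acc.nil q hq⟩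
    · obtain ⟨-, m', -, h2⟩ := hblk _ _ _ e
      exact absurd (hbe q 0 m' [] (by simpa using h2)).1 (A.pos q).ne
    · obtain ⟨h1, m', rfl, h2⟩ := hblk j m [] (by simpa using e)
      obtain rfl := pw_eq_nil h2
      exact Or.inl ⟨h1, rfl⟩
  | cons o w ih =>
    obtain ⟨b, r, hb, hr, rfl⟩ := h
    rcases hb with ⟨q, t, q', hq, rfl⟩ | ⟨_, ⟨q, t, q', hq, rfl⟩, rfl⟩ | rfl
    · rw [append_assoc] at e
      obtain ⟨h1, m', rfl, h2⟩ := hbe _ _ _ _ e
      rw [append_assoc] at h2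
      obtain ⟨m'', rfl, h3⟩ := strip_pw h2
      rcases ih hr h3 with k | ⟨q'', k1, k2⟩
      · exact absurd k.1 (A.pos q').ne'
      · obtain rfl := A.inj k1
        refine Or.inr ⟨q, h1, Acc.cons _ _ _ _ _ _ hq ?_⟩
        convert k2 using 1
        simp only [length_cons]; push_cast; omega
    · rw [append_assoc] at e
      obtain ⟨-, m', -, h2⟩ := hblk _ _ _ e
      rw [append_assoc] at h2
      exact absurd (hbe q 0 m' _ (by simpa using h2)).1 (A.pos q).ne
    · rw [pw, append_assoc] at e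
      obtain ⟨h1, m', rfl, h2⟩ := hblk _ _ _ e
      obtain ⟨m'', rfl, h3⟩ := strip_pw h2
      rcases ih hr (j := 0) h3 with k | ⟨q'', k1, -⟩
      · exact Or.inl ⟨h1, by rw [length_cons]; omega⟩
      · exact absurd k1 (A.pos q'').ne

lemma al_letters (q : Q) : ∀ l ∈ A.al q, l = 2 ∨ l = 3 := fun _ h => Or.inl (mem_replicate.1 h).2

lemma be_letters (q : Q) : ∀ l ∈ A.be q, l = 2 ∨ l = 3 := by
  intro l hl
  simp only [be, mem_append, mem_replicate, mem_singleton] at hl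
  exact hl.imp_left fun h => h.2

lemma blk_letters : ∀ l ∈ blk A.N, l = 2 ∨ l = 3 := by rw [← pw_one]; exact pw_letters

lemma B_letters {o : ℕ} {u : List ℕ} (h : A.B o u) : ∀ l ∈ u, l = 2 ∨ l = 3 := by
  have h0 : ∀ u, A.U0 o u → ∀ l ∈ u, l = 2 ∨ l = 3 := by
    rintro _ ⟨q, t, q', -, rfl⟩
    exact forall_mem_append.2 ⟨A.be_letters q, forall_mem_append.2 ⟨pw_letters, A.al_letters q'⟩⟩
  rcases h with h | ⟨u0, h, rfl⟩ | rfl
  · exact h0 _ h
  · exact forall_mem_append.2 ⟨A.blk_letters, h0 _ h⟩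
  · exact pw_letters

lemma C_letters {u : List ℕ} (h : A.C u) : ∀ l ∈ u, l = 2 ∨ l = 3 := by
  rcases h with ⟨q, -, rfl⟩ | ⟨_, ⟨q, -, rfl⟩, rfl⟩ | rfl
  · exact A.be_letters q
  · exact forall_mem_append.2 ⟨A.blk_letters, A.be_letters q⟩
  · exact A.blk_letters

lemma tail_letters {w u : List ℕ} (h : A.Tail w u) : ∀ l ∈ u, l = 2 ∨ l = 3 := by
  induction w generalizing u with
  | nil => exact A.C_letters h
  | cons o w ih =>
    obtain ⟨b, r, hb, hr, rfl⟩ := h
    exact forall_mem_append.2 ⟨A.B_letters hb, ih hr⟩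

/-- the start words of the second system, `J` being the set of initial configurations -/
def S2 (J : Q → ℕ → Prop) (u : List ℕ) : Prop :=
  u = [] ∨ u = pw A.N 2 ∨ ∃ q z, J q z ∧ u = pw A.N (z + 1) ++ A.al q

/-- the start words of the first system -/
def S1 (J : Q → ℕ → Prop) (u : List ℕ) : Prop := A.S2 J u ∨ u = blk A.N

def Full (S : List ℕ → Prop) (w u : List ℕ) : Prop := ∃ a r, S a ∧ A.Tail w r ∧ u = a ++ r

lemma S1_letters {J : Q → ℕ → Prop} {u : List ℕ} (h : A.S1 J u) : ∀ l ∈ u, l = 2 ∨ l = 3 := by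
  rcases h with (rfl | rfl | ⟨q, z, -, rfl⟩) | rfl
  · simp
  · exact pw_letters
  · exact forall_mem_append.2 ⟨pw_letters, A.al_letters q⟩
  · exact A.blk_letters

lemma full_iff {J : Q → ℕ → Prop} {w : List ℕ} (h : ∃ q z, J q z ∧ Acc A.δ A.F q w z)
    (u : List ℕ) : A.Full (A.S1 J) w u ↔ A.Full (A.S2 J) w u := by
  refine ⟨?_, fun ⟨a, r, h1, h2⟩ => ⟨a, r, Or.inl h1, h2⟩⟩
  rintro ⟨a, r, h1 | rfl, h2, rfl⟩
  · exact ⟨a, r, h1, h2, rfl⟩
  · rcases A.tail_shift h2 with rfl | k | ⟨u', k, rfl⟩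
    · obtain ⟨q, z, hJ, h⟩ := h
      obtain ⟨m, u, k1, k2, k3⟩ := A.tail_of_acc h
      refine ⟨_, u, Or.inr (Or.inr ⟨q, z, hJ, rfl⟩), k2, ?_⟩
      rw [append_assoc, k3, ← pw_add, ← pw_one, ← pw_add]
      congr 1; omega
    · exact ⟨[], _, Or.inl rfl, k, rfl⟩
    · exact ⟨_, u', Or.inr (Or.inl rfl), k, by simp [pw]⟩

lemma full_one (J : Q → ℕ → Prop) (w : List ℕ) :
    A.Full (A.S1 J) w (pw A.N (2 * w.length + 1 + 1)) := ⟨_, _, Or.inr rfl, A.tail_pw w, rfl⟩

lemma full_two {J : Q → ℕ → Prop} {w : List ℕ}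
    (h : A.Full (A.S2 J) w (pw A.N (2 * w.length + 1 + 1))) : ∃ q z, J q z ∧ Acc A.δ A.F q w z := by
  obtain ⟨a, r, rfl | rfl | ⟨q, z, hJ, rfl⟩, h2, e⟩ := h
  · rcases A.decode h2 (j := 0) e.symm with k | ⟨q, k, -⟩
    · omega
    · exact absurd k (A.pos q).ne
  · obtain ⟨m, k1, k2⟩ := strip_pw e.symm
    rcases A.decode h2 (j := 0) k2 with k | ⟨q, k, -⟩
    · omega
    · exact absurd k (A.pos q).ne
  · rw [append_assoc] at e
    obtain ⟨m, k1, k2⟩ := strip_pw e.symm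
    rcases A.decode h2 k2 with k | ⟨q', k, k3⟩
    · exact absurd k.1 (A.pos q).ne'
    · obtain rfl := A.inj k
      refine ⟨q, z, hJ, ?_⟩
      convert k3 using 1
      omega

end WA

end Pool.Agent.MP_dd548e_lc
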